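import Mathlib

/-!
Constructible subsets of `ℂ^Q`.
-/

set_option autoImplicit false

open MvPolynomial

namespace Pool.Agent.H13.NipSeq

/-- Constructible subsets of `Q → ℂ`: the Boolean algebra generated by the zero sets of
polynomials. -/
inductive Cst {Q : Type} : Set (Q → ℂ) → Prop
  | zero (f : MvPolynomial Q ℂ) : Cst {c | eval c f = 0}
  | compl (C : Set (Q → ℂ)) : Cst C → Cst Cᶜ
  | inter (C D : Set (Q → ℂ)) : Cst C → Cst D → Cst (C ∩ D)

/-- Preimage under a map of the index sets. -/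
theorem Cst.preimage {Q Q' : Type} {C : Set (Q' → ℂ)} (hC : Cst C) (τ : Q' → Q) :
    Cst {c : Q → ℂ | c ∘ τ ∈ C} := by
  induction hC with
  | zero f =>
    have h : {c : Q → ℂ | c ∘ τ ∈ {c : Q' → ℂ | eval c f = 0}} =
        {c : Q → ℂ | eval c (rename τ f) = 0} := by
      ext c
      simp only [Set.mem_ofPred_eq, eval_rename]
    rw [h]
    exact Cst.zero _
  | compl C _ ih => exact Cst.compl _ ih
  | inter C D _ _ ih1 ih2 => exact Cst.inter _ _ ih1 ih2

theorem Cst.univ' {Q : Type} : Cst (Set.univ : Set (Q → ℂ)) := by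
  have h : (Set.univ : Set (Q → ℂ)) = {c | eval c (0 : MvPolynomial Q ℂ) = 0} := by
    ext c; simp
  rw [h]
  exact Cst.zero 0

theorem Cst.empty' {Q : Type} : Cst (∅ : Set (Q → ℂ)) := by
  have h := Cst.compl _ (Cst.univ' (Q := Q))
  rwa [Set.compl_univ] at h

theorem Cst.union' {Q : Type} {C D : Set (Q → ℂ)} (hC : Cst C) (hD : Cst D) : Cst (C ∪ D) := by
  have h := Cst.compl _ (Cst.inter _ _ (Cst.compl _ hC) (Cst.compl _ hD))
  rwa [Set.compl_inter, compl_compl, compl_compl] at h

theorem Cst.biUnion' {Q ι : Type} (S : Finset ι) (C : ι → Set (Q → ℂ)) (h : ∀ i ∈ S, Cst (C i)) :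
    Cst (⋃ i ∈ S, C i) := by
  classical
  induction S using Finset.induction_on with
  | empty => simpa using Cst.empty'
  | insert a S _ ih =>
    rw [Finset.set_biUnion_insert]
    exact Cst.union' (h a (Finset.mem_insert_self _ _))
      (ih fun i hi => h i (Finset.mem_insert_of_mem hi))

theorem Cst.biInter' {Q ι : Type} (S : Finset ι) (C : ι → Set (Q → ℂ)) (h : ∀ i ∈ S, Cst (C i)) :
    Cst (⋂ i ∈ S, C i) := by
  classical
  induction S using Finset.induction_on with
  | empty => simpa using Cst.univ'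
  | insert a S _ ih =>
    rw [Finset.set_biInter_insert]
    exact Cst.inter _ _ (h a (Finset.mem_insert_self _ _))
      (ih fun i hi => h i (Finset.mem_insert_of_mem hi))

/-- The prime ideal of a point. -/
noncomputable def pt {Q : Type} (c : Q → ℂ) : PrimeSpectrum (MvPolynomial Q ℂ) :=
  ⟨RingHom.ker (eval c), RingHom.ker_isPrime _⟩

theorem mem_pt {Q : Type} (c : Q → ℂ) (f : MvPolynomial Q ℂ) :
    f ∈ (pt c).asIdeal ↔ eval c f = 0 := Iff.rfl

/-- A constructible set is the preimage of a constructible subset of the prime spectrum. -/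
theorem Cst.exists_spec {Q : Type} {C : Set (Q → ℂ)} (hC : Cst C) :
    ∃ s : Set (PrimeSpectrum (MvPolynomial Q ℂ)), Topology.IsConstructible s ∧
      C = pt ⁻¹' s := by
  induction hC with
  | zero f =>
    refine ⟨((PrimeSpectrum.basicOpen f : Set (PrimeSpectrum (MvPolynomial Q ℂ))))ᶜ,
      PrimeSpectrum.isConstructible_basicOpen.compl, ?_⟩
    ext c
    simp [PrimeSpectrum.mem_basicOpen, mem_pt]
  | compl C _ ih =>
    obtain ⟨s, hs, rfl⟩ := ih
    exact ⟨sᶜ, hs.compl, rfl⟩
  | inter C D _ _ ih1 ih2 =>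
    obtain ⟨s, hs, rfl⟩ := ih1
    obtain ⟨t, ht, rfl⟩ := ih2
    exact ⟨s ∩ t, hs.inter ht, rfl⟩

theorem mem_basic {Q : Type} (B : PrimeSpectrum.BasicConstructibleSetData (MvPolynomial Q ℂ))
    (P : PrimeSpectrum (MvPolynomial Q ℂ)) :
    P ∈ B.toSet ↔ (∀ i, B.g i ∈ P.asIdeal) ∧ B.f ∉ P.asIdeal := by
  unfold PrimeSpectrum.BasicConstructibleSetData.toSet
  rw [Set.mem_sdiff, PrimeSpectrum.mem_zeroLocus, PrimeSpectrum.mem_zeroLocus,
    Set.range_subset_iff, Set.singleton_subset_iff]
  rfl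

theorem mem_data {Q : Type} (S : PrimeSpectrum.ConstructibleSetData (MvPolynomial Q ℂ))
    (P : PrimeSpectrum (MvPolynomial Q ℂ)) :
    P ∈ S.toSet ↔ ∃ B ∈ S, P ∈ B.toSet := by
  unfold PrimeSpectrum.ConstructibleSetData.toSet
  simp

/-- The preimage of a constructible subset of the prime spectrum is constructible. -/
theorem Cst.of_spec {Q : Type} {s : Set (PrimeSpectrum (MvPolynomial Q ℂ))}
    (hs : Topology.IsConstructible s) : Cst (pt ⁻¹' s) := by
  obtain ⟨S, rfl⟩ := PrimeSpectrum.exists_constructibleSetData_iff.2 hs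
  have h : pt ⁻¹' S.toSet = ⋃ B ∈ S, pt ⁻¹' (B.toSet) := by
    ext c
    simp only [Set.mem_preimage, mem_data, Set.mem_iUnion, exists_prop]
  rw [h]
  refine Cst.biUnion' S _ fun B _ => ?_
  have h2 : pt ⁻¹' (B.toSet) = (⋂ i ∈ (Finset.univ : Finset (Fin B.n)),
      {c : Q → ℂ | eval c (B.g i) = 0}) ∩ {c : Q → ℂ | eval c B.f = 0}ᶜ := by
    ext c
    simp only [Set.mem_preimage, mem_basic, mem_pt, Set.mem_inter_iff, Set.mem_iInter,
      Finset.mem_univ, true_imp_iff, Set.mem_ofPred_eq, Set.mem_compl_iff]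
  rw [h2]
  exact Cst.inter _ _ (Cst.biInter' _ _ fun i _ => Cst.zero _) (Cst.compl _ (Cst.zero _))

/-- Nullstellensatz: a prime in a constructible set is contained in a point of it. -/
theorem exists_pt {Q : Type} [Finite Q] {s : Set (PrimeSpectrum (MvPolynomial Q ℂ))}
    (hs : Topology.IsConstructible s) (P : PrimeSpectrum (MvPolynomial Q ℂ)) (hP : P ∈ s) :
    ∃ c : Q → ℂ, pt c ∈ s ∧ P.asIdeal ≤ (pt c).asIdeal := by
  obtain ⟨S, rfl⟩ := PrimeSpectrum.exists_constructibleSetData_iff.2 hs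
  obtain ⟨B, hB, hPB⟩ := (mem_data S P).1 hP
  obtain ⟨h1, h2⟩ := (mem_basic B P).1 hPB
  have h3 : P.asIdeal.jacobson = P.asIdeal :=
    (inferInstance : IsJacobsonRing (MvPolynomial Q ℂ)).out P.isPrime.isRadical
  rw [← h3] at h2
  unfold Ideal.jacobson at h2
  rw [Ideal.mem_sInf] at h2
  push Not at h2
  obtain ⟨M, ⟨hPM, hM⟩, hfM⟩ := h2
  obtain ⟨c, rfl⟩ := MvPolynomial.isMaximal_iff_eq_vanishingIdeal_singleton.1 hM
  have h4 : ∀ f, f ∈ MvPolynomial.vanishingIdeal ℂ {c} ↔ f ∈ (pt c).asIdeal := by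
    intro f
    rw [MvPolynomial.mem_vanishingIdeal_singleton_iff, mem_pt]
    rfl
  refine ⟨c, (mem_data S _).2 ⟨B, hB, (mem_basic B _).2 ⟨fun i => (h4 _).1 (hPM (h1 i)),
    fun h => hfM ((h4 _).2 h)⟩⟩, fun f hf => (h4 f).1 (hPM hf)⟩

/-- Quantifier elimination (Chevalley). Idea: by induction `Cst C` iff `C` is the set of points
`c` whose maximal ideal lies in a constructible subset of the prime spectrum of
`MvPolynomial Q ℂ`; then `PrimeSpectrum.isConstructible_comap_image` for `rename τ` and the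
Nullstellensatz (a nonempty constructible subset of the closed fibre has a closed point:
`PrimeSpectrum.exists_isClosed_singleton_of_isJacobsonRing`,
`MvPolynomial.isMaximal_iff_eq_vanishingIdeal_singleton`). -/
theorem Cst.image {Q Q' : Type} [Finite Q] [Finite Q'] {C : Set (Q → ℂ)} (hC : Cst C)
    (τ : Q' → Q) : Cst {c' : Q' → ℂ | ∃ c ∈ C, c' = c ∘ τ} := by
  obtain ⟨s, hs, rfl⟩ := hC.exists_spec
  have hft : (rename τ : MvPolynomial Q' ℂ →ₐ[ℂ] MvPolynomial Q ℂ).toRingHom.FiniteType := by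
    refine RingHom.FiniteType.of_comp_finiteType (f := (C : ℂ →+* MvPolynomial Q' ℂ)) ?_
    have h1 : (rename τ : MvPolynomial Q' ℂ →ₐ[ℂ] MvPolynomial Q ℂ).toRingHom.comp
        (C : ℂ →+* MvPolynomial Q' ℂ) = algebraMap ℂ (MvPolynomial Q ℂ) := by
      ext x
      · simp
    rw [h1, RingHom.finiteType_algebraMap]
    infer_instance
  have hfp : (rename τ : MvPolynomial Q' ℂ →ₐ[ℂ] MvPolynomial Q ℂ).toRingHom.FinitePresentation :=
    RingHom.FinitePresentation.of_finiteType.1 hft
  have key := Cst.of_spec (PrimeSpectrum.isConstructible_comap_image hfp hs)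
  convert! key using 1
  ext c'
  simp only [Set.mem_ofPred_eq, Set.mem_preimage, Set.mem_image]
  constructor
  · rintro ⟨c, hc, rfl⟩
    refine ⟨pt c, hc, ?_⟩
    ext f
    show eval c (rename τ f) = 0 ↔ eval (c ∘ τ) f = 0
    rw [eval_rename]
  · rintro ⟨P, hP, hPc⟩
    obtain ⟨c, hc, hPc'⟩ := exists_pt hs P hP
    refine ⟨c, hc, ?_⟩
    funext i
    have h1 : (X i - C (c' i) : MvPolynomial Q' ℂ) ∈ (pt c').asIdeal := by
      rw [mem_pt]
      simp
    rw [← hPc] at h1
    have h2 : (rename τ (X i - C (c' i)) : MvPolynomial Q ℂ) ∈ P.asIdeal := h1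
    have h3 := hPc' h2
    rw [mem_pt, eval_rename] at h3
    simp only [map_sub, eval_X, eval_C, Function.comp_apply, sub_eq_zero] at h3
    exact h3.symm

/-- One variable sections are uniformly finite or cofinite (induction on `Cst`). -/
theorem Cst.uniform {Q : Type} {C : Set (Option Q → ℂ)} (hC : Cst C) :
    ∃ B : ℕ, ∀ c : Q → ℂ,
      (∃ E : Finset ℂ, E.card ≤ B ∧ ∀ s ∉ E, (fun o => Option.elim o s c) ∉ C) ∨
      (∃ E : Finset ℂ, E.card ≤ B ∧ ∀ s ∉ E, (fun o => Option.elim o s c) ∈ C) := by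
  classical
  induction hC with
  | zero f =>
    refine ⟨f.totalDegree, fun c => ?_⟩
    set p : Polynomial ℂ := aeval (fun o : Option Q =>
      Option.elim o (Polynomial.X : Polynomial ℂ) (fun q => Polynomial.C (c q))) f with hp
    have hdeg : p.natDegree ≤ f.totalDegree := by
      have h := aeval_natDegree_le f (le_refl f.totalDegree) (fun o : Option Q =>
        Option.elim o (Polynomial.X : Polynomial ℂ) (fun q => Polynomial.C (c q))) (n := 1) (by
          intro o
          cases o with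
          | none => exact Polynomial.natDegree_X_le
          | some q => simp)
      rw [mul_one] at h
      exact h
    have hev : ∀ s : ℂ, p.eval s = eval (fun o : Option Q => Option.elim o s c) f := by
      intro s
      rw [hp]
      have h1 : (Polynomial.evalRingHom s) (aeval (fun o : Option Q =>
          Option.elim o (Polynomial.X : Polynomial ℂ) (fun q => Polynomial.C (c q))) f) =
          eval (fun o : Option Q => Option.elim o s c) f := by
        rw [aeval_def, hom_eval₂, ← eval₂_id]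
        congr 1
        · ext x
          simp
        · funext o
          cases o <;> simp
      exact h1
    by_cases h0 : p = 0
    · right
      refine ⟨∅, by simp, fun s _ => ?_⟩
      show eval _ f = 0
      rw [← hev s, h0]
      simp
    · left
      refine ⟨p.roots.toFinset, ?_, fun s hs => ?_⟩
      · exact (Multiset.toFinset_card_le _).trans ((Polynomial.card_roots' p).trans hdeg)
      · intro h1
        have h2 : eval (fun o : Option Q => Option.elim o s c) f = 0 := h1
        rw [← hev s] at h2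
        refine hs ?_
        rw [Multiset.mem_toFinset, Polynomial.mem_roots h0]
        exact h2
  | compl C _ ih =>
    obtain ⟨B, hB⟩ := ih
    refine ⟨B, fun c => ?_⟩
    rcases hB c with ⟨E, h1, h2⟩ | ⟨E, h1, h2⟩
    · exact Or.inr ⟨E, h1, h2⟩
    · exact Or.inl ⟨E, h1, fun s hs h => h (h2 s hs)⟩
  | inter C D _ _ ih1 ih2 =>
    obtain ⟨B1, hB1⟩ := ih1
    obtain ⟨B2, hB2⟩ := ih2
    refine ⟨B1 + B2, fun c => ?_⟩
    rcases hB1 c with ⟨E, h1, h2⟩ | ⟨E, h1, h2⟩
    · exact Or.inl ⟨E, by omega, fun s hs h => h2 s hs h.1⟩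
    · rcases hB2 c with ⟨E', h1', h2'⟩ | ⟨E', h1', h2'⟩
      · exact Or.inl ⟨E', by omega, fun s hs h => h2' s hs h.2⟩
      · refine Or.inr ⟨E ∪ E', (Finset.card_union_le _ _).trans (by omega), fun s hs => ?_⟩
        rw [Finset.mem_union, not_or] at hs
        exact ⟨h2 s hs.1, h2' s hs.2⟩

end Pool.Agent.H13.NipSeq
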