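import Mathlib
import Pool.Agent.H13.NipSeq.Constr

/-!
The class of subsets of `ℚ^P × ℂ^Q` which are invariant under order automorphisms of `ℚ` and
constructible in the second coordinate.
-/

set_option autoImplicit false

open MvPolynomial

namespace Pool.Agent.H13.NipSeq

open Order in
/-- Two tuples of rationals of the same order type are conjugate under an order automorphism. -/
theorem exists_orderIso {P : Type} [Finite P] (x y : P → ℚ)
    (h : ∀ i j, x i < x j ↔ y i < y j) : ∃ Φ : ℚ ≃o ℚ, ∀ i, Φ (x i) = y i := by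
  classical
  have : Fintype P := Fintype.ofFinite P
  have hcmp : ∀ i j, cmp (x i) (x j) = cmp (y i) (y j) := by
    intro i j
    rcases lt_trichotomy (x i) (x j) with h1 | h1 | h1
    · rw [(cmp_eq_lt_iff _ _).mpr h1, (cmp_eq_lt_iff _ _).mpr ((h i j).mp h1)]
    · have h2 : y i = y j := by
        apply le_antisymm
        · exact not_lt.mp fun h3 => absurd ((h j i).mpr h3) (by rw [h1]; exact lt_irrefl _)
        · exact not_lt.mp fun h3 => absurd ((h i j).mpr h3) (by rw [h1]; exact lt_irrefl _)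
      rw [(cmp_eq_eq_iff _ _).mpr h1, (cmp_eq_eq_iff _ _).mpr h2]
    · rw [(cmp_eq_gt_iff _ _).mpr h1, (cmp_eq_gt_iff _ _).mpr ((h j i).mp h1)]
  let p0 : PartialIso ℚ ℚ := ⟨Finset.univ.image fun i => (x i, y i), by
    intro p hp q hq
    obtain ⟨i, _, rfl⟩ := Finset.mem_image.mp hp
    obtain ⟨j, _, rfl⟩ := Finset.mem_image.mp hq
    exact hcmp i j⟩
  let to_cofinal : ℚ ⊕ ℚ → Cofinal (PartialIso ℚ ℚ) := fun p ↦
    Sum.recOn p (PartialIso.definedAtLeft ℚ) (PartialIso.definedAtRight ℚ)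
  let our_ideal : Ideal (PartialIso ℚ ℚ) := idealOfCofinals p0 to_cofinal
  let F a := PartialIso.funOfIdeal a our_ideal
    (cofinal_meets_idealOfCofinals _ to_cofinal (Sum.inl a))
  let G b := PartialIso.invOfIdeal b our_ideal
    (cofinal_meets_idealOfCofinals _ to_cofinal (Sum.inr b))
  refine ⟨OrderIso.ofCmpEqCmp (fun a ↦ (F a).val) (fun b ↦ (G b).val) fun a b ↦ by
      rcases (F a).prop with ⟨f, hf, ha⟩
      rcases (G b).prop with ⟨g, hg, hb⟩
      rcases our_ideal.directed _ hf _ hg with ⟨m, _, fm, gm⟩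
      exact m.prop (a, _) (fm ha) (_, b) (gm hb), fun i => ?_⟩
  show (F (x i)).val = y i
  rcases (F (x i)).prop with ⟨f, hf, ha⟩
  have hp0 : p0 ∈ our_ideal := mem_idealOfCofinals _ _
  rcases our_ideal.directed _ hf _ hp0 with ⟨m, _, fm, gm⟩
  have hm0 : (x i, y i) ∈ m.val := gm (Finset.mem_image_of_mem _ (Finset.mem_univ i))
  have := m.prop (x i, _) (fm ha) (x i, y i) hm0
  simp only [cmp_self_eq_eq] at this
  exact (cmp_eq_eq_iff _ _).mp this.symm

namespace Cst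

variable {Q : Type}

theorem union2 {C D : Set (Q → ℂ)} (hC : Cst C) (hD : Cst D) : Cst (C ∪ D) := by
  have := Cst.compl _ (Cst.inter _ _ (Cst.compl _ hC) (Cst.compl _ hD))
  rwa [← Set.compl_union, compl_compl] at this

theorem univ2 : Cst (Set.univ : Set (Q → ℂ)) := by
  have := Cst.zero (Q := Q) 0
  simpa using this

theorem empty2 : Cst (∅ : Set (Q → ℂ)) := by
  have := Cst.compl _ (univ2 (Q := Q))
  simpa using this

theorem biUnion2 {ι : Type*} {s : Set ι} (hs : s.Finite) {C : ι → Set (Q → ℂ)} :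
    (∀ i ∈ s, Cst (C i)) → Cst (⋃ i ∈ s, C i) := by
  induction s, hs using Set.Finite.induction_on with
  | empty => intro _; simpa using empty2 (Q := Q)
  | @insert a s _ _ ih =>
    intro h
    rw [Set.biUnion_insert]
    exact union2 (h a (Set.mem_insert _ _)) (ih fun i hi => h i (Set.mem_insert_of_mem _ hi))

theorem iUnion2 {ι : Type*} [Finite ι] {C : ι → Set (Q → ℂ)} (h : ∀ i, Cst (C i)) :
    Cst (⋃ i, C i) := by
  have := biUnion2 (Set.finite_univ (α := ι)) (C := C) fun i _ => h i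
  simpa using this

theorem iInter2 {ι : Type*} [Finite ι] {C : ι → Set (Q → ℂ)} (h : ∀ i, Cst (C i)) :
    Cst (⋂ i, C i) := by
  have := Cst.compl _ (iUnion2 (C := fun i => (C i)ᶜ) fun i => Cst.compl _ (h i))
  rw [Set.compl_iUnion] at this
  simpa using this

end Cst

/-- The class `𝒟`. -/
structure Dd {P Q : Type} (D : Set ((P → ℚ) × (Q → ℂ))) : Prop where
  inv : ∀ (Φ : ℚ ≃o ℚ) (x : P → ℚ) (c : Q → ℂ), (x, c) ∈ D → (Φ ∘ x, c) ∈ D
  cst : ∀ x : P → ℚ, Cst {c | (x, c) ∈ D}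

namespace Dd

variable {P Q P' Q' : Type}

theorem compl {D : Set ((P → ℚ) × (Q → ℂ))} (hD : Dd D) : Dd Dᶜ := by
  refine ⟨fun Φ x c hx h => hx ?_, fun x => Cst.compl _ (hD.cst x)⟩
  have := hD.inv Φ.symm _ c h
  have e : Φ.symm ∘ (Φ ∘ x) = x := by funext i; simp
  rwa [e] at this

theorem inter {D E : Set ((P → ℚ) × (Q → ℂ))} (hD : Dd D) (hE : Dd E) : Dd (D ∩ E) :=
  ⟨fun Φ x c h => ⟨hD.inv Φ x c h.1, hE.inv Φ x c h.2⟩,
    fun x => Cst.inter _ _ (hD.cst x) (hE.cst x)⟩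

theorem union {D E : Set ((P → ℚ) × (Q → ℂ))} (hD : Dd D) (hE : Dd E) : Dd (D ∪ E) := by
  have := (hD.compl.inter hE.compl).compl
  rwa [← Set.compl_union, compl_compl] at this

theorem univ : Dd (Set.univ : Set ((P → ℚ) × (Q → ℂ))) :=
  ⟨fun _ _ _ _ => trivial, fun _ => Cst.univ'⟩

theorem empty : Dd (∅ : Set ((P → ℚ) × (Q → ℂ))) := by
  have := (univ (P := P) (Q := Q)).compl
  simpa using this

theorem iInter {ι : Type} [Finite ι] {D : ι → Set ((P → ℚ) × (Q → ℂ))} (hD : ∀ i, Dd (D i)) :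
    Dd (⋂ i, D i) := by
  refine ⟨fun Φ x c h => ?_, fun x => ?_⟩
  · rw [Set.mem_iInter] at h ⊢
    exact fun i => (hD i).inv Φ x c (h i)
  · have := Cst.iInter2 (C := fun i => {c | (x, c) ∈ D i}) fun i => (hD i).cst x
    convert this using 1
    ext c
    simp

theorem iUnion {ι : Type} [Finite ι] {D : ι → Set ((P → ℚ) × (Q → ℂ))} (hD : ∀ i, Dd (D i)) :
    Dd (⋃ i, D i) := by
  have := (iInter (D := fun i => (D i)ᶜ) fun i => (hD i).compl).compl
  rw [Set.compl_iInter] at this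
  simpa using this

/-- The sets which depend only on the order type of the first coordinate. -/
theorem of_order (S : Set (P → ℚ)) (h : ∀ (Φ : ℚ ≃o ℚ) (x : P → ℚ), x ∈ S → Φ ∘ x ∈ S) :
    Dd {z : (P → ℚ) × (Q → ℂ) | z.1 ∈ S} := by
  refine ⟨fun Φ x c hx => h Φ x hx, fun x => ?_⟩
  by_cases hx : x ∈ S
  · have : {c : Q → ℂ | (x, c) ∈ {z : (P → ℚ) × (Q → ℂ) | z.1 ∈ S}} = Set.univ := by
      ext c; simp [hx]
    rw [this]
    exact Cst.univ'
  · have : {c : Q → ℂ | (x, c) ∈ {z : (P → ℚ) × (Q → ℂ) | z.1 ∈ S}} = ∅ := by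
      ext c; simp [hx]
    rw [this]
    exact Cst.empty'

theorem lt (i j : P) : Dd {z : (P → ℚ) × (Q → ℂ) | z.1 i < z.1 j} :=
  of_order {x | x i < x j} fun Φ x hx => by
    show Φ (x i) < Φ (x j)
    exact Φ.lt_iff_lt.mpr hx

theorem le (i j : P) : Dd {z : (P → ℚ) × (Q → ℂ) | z.1 i ≤ z.1 j} :=
  of_order {x | x i ≤ x j} fun Φ x hx => by
    show Φ (x i) ≤ Φ (x j)
    exact Φ.le_iff_le.mpr hx

theorem eq (i j : P) : Dd {z : (P → ℚ) × (Q → ℂ) | z.1 i = z.1 j} :=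
  of_order {x | x i = x j} fun Φ x hx => by
    show Φ (x i) = Φ (x j)
    exact congrArg Φ hx

/-- The sets which are zero sets of polynomials in the second coordinate. -/
theorem zero (f : MvPolynomial Q ℂ) : Dd {z : (P → ℚ) × (Q → ℂ) | eval z.2 f = 0} :=
  ⟨fun _ _ _ h => h, fun _ => Cst.zero f⟩

theorem preimage {D : Set ((P' → ℚ) × (Q' → ℂ))} (hD : Dd D) (σ : P' → P) (τ : Q' → Q) :
    Dd {z : (P → ℚ) × (Q → ℂ) | (z.1 ∘ σ, z.2 ∘ τ) ∈ D} :=
  ⟨fun Φ x c h => hD.inv Φ (x ∘ σ) (c ∘ τ) h, fun x => (hD.cst (x ∘ σ)).preimage τ⟩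

/-- The sections of `D` over the first coordinate form a finite set (they depend only on the order
type, by `exists_orderIso`). -/
theorem finite_sections [Finite P] {D : Set ((P → ℚ) × (Q → ℂ))} (hD : Dd D) :
    (Set.range fun x : P → ℚ => {c : Q → ℂ | (x, c) ∈ D}).Finite := by
  classical
  set S : (P → ℚ) → Set (Q → ℂ) := fun x => {c : Q → ℂ | (x, c) ∈ D} with hS
  set ot : (P → ℚ) → (P → P → Prop) := fun x i j => x i < x j with hot
  have hfac : Function.FactorsThrough S ot := by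
    intro x y hxy
    have h1 : ∀ i j, x i < x j ↔ y i < y j := fun i j => by
      have := congrFun (congrFun hxy i) j
      exact iff_of_eq this
    obtain ⟨Φ, hΦ⟩ := exists_orderIso x y h1
    have e1 : Φ ∘ x = y := funext hΦ
    have e2 : Φ.symm ∘ y = x := by
      rw [← e1]; funext i; simp
    ext c
    constructor
    · intro h
      have := hD.inv Φ x c h
      rwa [e1] at this
    · intro h
      have := hD.inv Φ.symm y c h
      rwa [e2] at this
  obtain ⟨g, hg⟩ := (Function.factorsThrough_iff S).mp hfac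
  rw [hg]
  exact (Set.finite_range g).subset (Set.range_comp_subset_range _ _)

theorem image [Finite P] [Finite Q] [Finite P'] [Finite Q'] {D : Set ((P → ℚ) × (Q → ℂ))}
    (hD : Dd D) (σ : P' → P) (τ : Q' → Q) :
    Dd {z' : (P' → ℚ) × (Q' → ℂ) | ∃ z ∈ D, z' = (z.1 ∘ σ, z.2 ∘ τ)} := by
  refine ⟨?_, fun x' => ?_⟩
  · rintro Φ x' c' ⟨⟨x, c⟩, hz, h⟩
    rw [Prod.mk.injEq] at h
    obtain ⟨rfl, rfl⟩ := h
    exact ⟨(Φ ∘ x, c), hD.inv Φ x c hz, rfl⟩
  · set 𝒯 : Set (Set (Q → ℂ)) := {T | ∃ x : P → ℚ, x ∘ σ = x' ∧ {c : Q → ℂ | (x, c) ∈ D} = T}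
      with h𝒯
    have hfin : 𝒯.Finite := by
      refine hD.finite_sections.subset ?_
      rintro T ⟨x, _, rfl⟩
      exact ⟨x, rfl⟩
    have key : {c' : Q' → ℂ | (x', c') ∈ {z' : (P' → ℚ) × (Q' → ℂ) |
        ∃ z ∈ D, z' = (z.1 ∘ σ, z.2 ∘ τ)}} =
        ⋃ T ∈ 𝒯, {c' : Q' → ℂ | ∃ c ∈ T, c' = c ∘ τ} := by
      ext c'
      simp only [Set.mem_setOf_eq, Set.mem_iUnion, Prod.mk.injEq, Prod.exists]
      constructor
      · rintro ⟨x, c, h, h1, h2⟩
        exact ⟨_, ⟨x, h1.symm, rfl⟩, c, h, h2⟩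
      · rintro ⟨T, ⟨x, h1, rfl⟩, c, h, h2⟩
        exact ⟨x, c, h, h1.symm, h2⟩
    rw [key]
    refine Cst.biUnion2 hfin ?_
    rintro T ⟨x, _, rfl⟩
    exact (hD.cst x).image τ

end Dd

end Pool.Agent.H13.NipSeq
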