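import Mathlib

/-!
The space `V` of finitely supported functions on `ℚ × ℕ`, its filtered automorphisms and their
normal forms.
-/

set_option autoImplicit false

namespace Pool.Agent.H13.NipSeq

/-- The space of finitely supported functions on `ℚ × ℕ` (the first coordinate is the level). -/
abbrev V : Type := (ℚ × ℕ) →₀ ℂ

/-- Truncation at level `v`. -/
noncomputable def tr (v : ℚ) (h : V) : V := h.filter fun i => v ≤ i.1

/-- The dot product. -/
noncomputable def dot (μ h : V) : ℂ := μ.sum fun i c => c * h i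

/-- A pair of linear automorphisms of `V` which are dual to each other; the first one preserves
the subspaces of vectors supported at levels `< v`, the second one those of vectors supported at
levels `≥ v`. -/
structure Mv where
  A : V ≃ₗ[ℂ] V
  B : V ≃ₗ[ℂ] V
  dot_eq : ∀ μ h, dot (B μ) (A h) = dot μ h
  lowA : ∀ (v : ℚ) (h : V), (∀ i : ℚ × ℕ, v ≤ i.1 → h i = 0) →
    ∀ i : ℚ × ℕ, v ≤ i.1 → A h i = 0
  lowA' : ∀ (v : ℚ) (h : V), (∀ i : ℚ × ℕ, v ≤ i.1 → h i = 0) →
    ∀ i : ℚ × ℕ, v ≤ i.1 → A.symm h i = 0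
  highB : ∀ (v : ℚ) (μ : V), (∀ i : ℚ × ℕ, i.1 < v → μ i = 0) →
    ∀ i : ℚ × ℕ, i.1 < v → B μ i = 0
  highB' : ∀ (v : ℚ) (μ : V), (∀ i : ℚ × ℕ, i.1 < v → μ i = 0) →
    ∀ i : ℚ × ℕ, i.1 < v → B.symm μ i = 0

@[simp] theorem tr_apply (v : ℚ) (h : V) (i : ℚ × ℕ) : tr v h i = if v ≤ i.1 then h i else 0 := by
  simp [tr, Finsupp.filter_apply]

theorem tr_add (v : ℚ) (h g : V) : tr v (h + g) = tr v h + tr v g := by
  ext i; simp only [tr_apply, Finsupp.add_apply]; split_ifs <;> simp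

theorem dot_eq_sum (μ h : V) (S : Finset (ℚ × ℕ)) (hS : μ.support ⊆ S) :
    dot μ h = ∑ i ∈ S, μ i * h i := by
  unfold dot
  rw [Finsupp.sum_of_support_subset μ hS]
  intro i _
  simp

theorem dot_comm (μ h : V) : dot μ h = dot h μ := by
  classical
  rw [dot_eq_sum μ h (μ.support ∪ h.support) Finset.subset_union_left,
    dot_eq_sum h μ (μ.support ∪ h.support) Finset.subset_union_right]
  exact Finset.sum_congr rfl fun i _ => mul_comm _ _

theorem dot_add_left (μ ν h : V) : dot (μ + ν) h = dot μ h + dot ν h := by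
  unfold dot
  rw [Finsupp.sum_add_index']
  · intro i; simp
  · intro i a b; ring

theorem dot_add_right (μ h g : V) : dot μ (h + g) = dot μ h + dot μ g := by
  rw [dot_comm μ (h + g), dot_add_left, dot_comm h μ, dot_comm g μ]

theorem dot_smul_left (a : ℂ) (μ h : V) : dot (a • μ) h = a * dot μ h := by
  unfold dot
  rw [Finsupp.sum_smul_index' (fun i => by simp), Finsupp.mul_sum]
  refine Finsupp.sum_congr fun i _ => ?_
  simp only [smul_eq_mul]
  ring

theorem dot_smul_right (a : ℂ) (μ h : V) : dot μ (a • h) = a * dot μ h := by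
  rw [dot_comm μ (a • h), dot_smul_left, dot_comm h μ]

theorem dot_single_left (i : ℚ × ℕ) (a : ℂ) (h : V) : dot (Finsupp.single i a) h = a * h i := by
  unfold dot
  rw [Finsupp.sum_single_index]
  simp

theorem dot_single_right (i : ℚ × ℕ) (a : ℂ) (μ : V) : dot μ (Finsupp.single i a) = μ i * a := by
  rw [dot_comm, dot_single_left, mul_comm]

/-- Vectors with disjoint supports are orthogonal. -/
theorem dot_eq_zero (μ h : V) (hd : ∀ i, μ i ≠ 0 → h i = 0) : dot μ h = 0 := by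
  unfold dot
  rw [Finsupp.sum]
  refine Finset.sum_eq_zero fun i hi => ?_
  rw [hd i (Finsupp.mem_support_iff.mp hi), mul_zero]

/-- Vectors below the truncation level are invisible. -/
theorem dot_tr (v : ℚ) (μ h : V) (hμ : ∀ i : ℚ × ℕ, i.1 < v → μ i = 0) :
    dot μ (tr v h) = dot μ h := by
  unfold dot
  refine Finsupp.sum_congr fun i hi => ?_
  have h1 : ¬ i.1 < v := fun hlt => (Finsupp.mem_support_iff.mp hi) (hμ i hlt)
  rw [tr_apply, if_pos (not_lt.mp h1)]

namespace Mv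

/-- The identity. -/
noncomputable def one : Mv where
  A := LinearEquiv.refl ℂ V
  B := LinearEquiv.refl ℂ V
  dot_eq := fun _ _ => rfl
  lowA := fun _ _ h => h
  lowA' := fun _ _ h => h
  highB := fun _ _ h => h
  highB' := fun _ _ h => h

/-- The inverse. -/
noncomputable def inv (M : Mv) : Mv where
  A := M.A.symm
  B := M.B.symm
  dot_eq := fun μ h => by
    have := M.dot_eq (M.B.symm μ) (M.A.symm h)
    simpa using this.symm
  lowA := M.lowA'
  lowA' := M.lowA
  highB := M.highB'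
  highB' := M.highB

/-- Composition (first `M`, then `N`). -/
noncomputable def comp (N M : Mv) : Mv where
  A := M.A.trans N.A
  B := M.B.trans N.B
  dot_eq := fun μ h => by
    simp only [LinearEquiv.trans_apply]
    rw [N.dot_eq, M.dot_eq]
  lowA := fun v h hh => N.lowA v _ (M.lowA v h hh)
  lowA' := fun v h hh => M.lowA' v _ (N.lowA' v h hh)
  highB := fun v h hh => N.highB v _ (M.highB v h hh)
  highB' := fun v h hh => M.highB' v _ (N.highB' v h hh)

/-- A permutation of the basis preserving the levels. -/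
theorem exists_perm (σ : Equiv.Perm (ℚ × ℕ)) (hσ : ∀ i, (σ i).1 = i.1) :
    ∃ M : Mv, (∀ h : V, ∀ i, M.A h (σ i) = h i) ∧ (∀ h : V, ∀ i, M.B h (σ i) = h i) := by
  have hap : ∀ (h : V) (i : ℚ × ℕ), Finsupp.domLCongr (R := ℂ) (M := ℂ) σ h i = h (σ.symm i) := by
    intro h i
    rw [Finsupp.domLCongr_apply]
    rfl
  have hap' : ∀ (h : V) (i : ℚ × ℕ),
      (Finsupp.domLCongr (R := ℂ) (M := ℂ) σ).symm h i = h (σ i) := by
    intro h i
    have := hap ((Finsupp.domLCongr (R := ℂ) (M := ℂ) σ).symm h) (σ i)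
    rw [LinearEquiv.apply_symm_apply, Equiv.symm_apply_apply] at this
    exact this.symm
  have hσ' : ∀ i, (σ.symm i).1 = i.1 := by
    intro i
    have := hσ (σ.symm i)
    rw [Equiv.apply_symm_apply] at this
    exact this.symm
  refine ⟨⟨Finsupp.domLCongr (R := ℂ) (M := ℂ) σ, Finsupp.domLCongr (R := ℂ) (M := ℂ) σ,
    ?_, ?_, ?_, ?_, ?_⟩, ?_, ?_⟩
  · intro μ h
    classical
    have h1 : (Finsupp.domLCongr (R := ℂ) (M := ℂ) σ μ).support ⊆
        μ.support.map σ.toEmbedding := by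
      intro i hi
      rw [Finsupp.mem_support_iff, hap] at hi
      rw [Finset.mem_map]
      exact ⟨σ.symm i, Finsupp.mem_support_iff.mpr hi, by simp⟩
    rw [dot_eq_sum _ _ _ h1, dot_eq_sum μ h _ (Finset.Subset.refl _), Finset.sum_map]
    refine Finset.sum_congr rfl fun i _ => ?_
    rw [hap, hap]
    simp
  · intro v h hh i hi
    rw [hap]
    exact hh _ (by rw [hσ']; exact hi)
  · intro v h hh i hi
    rw [hap']
    exact hh _ (by rw [hσ]; exact hi)
  · intro v h hh i hi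
    rw [hap]
    exact hh _ (by rw [hσ']; exact hi)
  · intro v h hh i hi
    rw [hap']
    exact hh _ (by rw [hσ]; exact hi)
  · intro h i
    change Finsupp.domLCongr (R := ℂ) (M := ℂ) σ h (σ i) = h i
    rw [hap]
    simp
  · intro h i
    change Finsupp.domLCongr (R := ℂ) (M := ℂ) σ h (σ i) = h i
    rw [hap]
    simp

/-- The map `e_{i₁} ↦ u`. -/
noncomputable def eqE (i₁ : ℚ × ℕ) (u : V) (hu : u i₁ ≠ 0) : V ≃ₗ[ℂ] V where
  toFun h := h + h i₁ • (u - Finsupp.single i₁ 1)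
  map_add' h g := by
    simp only [Finsupp.add_apply, add_smul]
    abel
  map_smul' a h := by
    simp only [Finsupp.smul_apply, smul_eq_mul, RingHom.id_apply, smul_add, smul_smul]
  invFun h := h + (h i₁ * (u i₁)⁻¹) • (Finsupp.single i₁ 1 - u)
  left_inv h := by
    ext i
    simp only [Finsupp.add_apply, Finsupp.smul_apply, Finsupp.sub_apply, smul_eq_mul,
      Finsupp.single_eq_same]
    field_simp
    ring
  right_inv h := by
    ext i
    simp only [Finsupp.add_apply, Finsupp.smul_apply, Finsupp.sub_apply, smul_eq_mul,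
      Finsupp.single_eq_same]
    field_simp
    ring

/-- The dual map. -/
noncomputable def eqF (i₁ : ℚ × ℕ) (u : V) (hu : u i₁ ≠ 0) : V ≃ₗ[ℂ] V where
  toFun μ := μ + Finsupp.single i₁ ((μ i₁ - dot u μ) / u i₁)
  map_add' h g := by
    rw [dot_add_right, Finsupp.add_apply]
    rw [show (h i₁ + g i₁ - (dot u h + dot u g)) / u i₁ =
      (h i₁ - dot u h) / u i₁ + (g i₁ - dot u g) / u i₁ by ring, Finsupp.single_add]
    abel
  map_smul' a h := by
    rw [dot_smul_right, Finsupp.smul_apply, RingHom.id_apply, smul_add, Finsupp.smul_single,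
      smul_eq_mul, smul_eq_mul]
    congr 2
    ring
  invFun μ := μ + Finsupp.single i₁ (dot u μ - μ i₁)
  left_inv μ := by
    simp only
    rw [dot_add_right, dot_single_right, Finsupp.add_apply, Finsupp.single_eq_same, add_assoc,
      ← Finsupp.single_add]
    rw [show (μ i₁ - dot u μ) / u i₁ + (dot u μ + u i₁ * ((μ i₁ - dot u μ) / u i₁) -
      (μ i₁ + (μ i₁ - dot u μ) / u i₁)) = 0 by field_simp; ring, Finsupp.single_zero, add_zero]
  right_inv μ := by
    simp only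
    rw [dot_add_right, dot_single_right, Finsupp.add_apply, Finsupp.single_eq_same, add_assoc,
      ← Finsupp.single_add]
    rw [show dot u μ - μ i₁ + (μ i₁ + (dot u μ - μ i₁) -
      (dot u μ + u i₁ * (dot u μ - μ i₁))) / u i₁ = 0 by field_simp; ring, Finsupp.single_zero,
      add_zero]

theorem eqE_apply (i₁ : ℚ × ℕ) (u : V) (hu : u i₁ ≠ 0) (h : V) :
    eqE i₁ u hu h = h + h i₁ • (u - Finsupp.single i₁ 1) := rfl

theorem eqE_symm_apply (i₁ : ℚ × ℕ) (u : V) (hu : u i₁ ≠ 0) (h : V) :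
    (eqE i₁ u hu).symm h = h + (h i₁ * (u i₁)⁻¹) • (Finsupp.single i₁ 1 - u) := rfl

theorem eqF_apply (i₁ : ℚ × ℕ) (u : V) (hu : u i₁ ≠ 0) (μ : V) :
    eqF i₁ u hu μ = μ + Finsupp.single i₁ ((μ i₁ - dot u μ) / u i₁) := rfl

theorem eqF_symm_apply (i₁ : ℚ × ℕ) (u : V) (hu : u i₁ ≠ 0) (μ : V) :
    (eqF i₁ u hu).symm μ = μ + Finsupp.single i₁ (dot u μ - μ i₁) := rfl

theorem dot_eqF_eqE (i₁ : ℚ × ℕ) (u : V) (hu : u i₁ ≠ 0) (μ h : V) :
    dot (eqF i₁ u hu μ) (eqE i₁ u hu h) = dot μ h := by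
  have h1 : u - Finsupp.single i₁ 1 = u + (-1 : ℂ) • Finsupp.single i₁ (1 : ℂ) := by
    rw [neg_one_smul, sub_eq_add_neg]
  rw [eqE_apply, eqF_apply, h1, dot_add_left, dot_add_right, dot_smul_right, dot_add_right,
    dot_smul_right, dot_single_right, dot_single_left]
  simp only [Finsupp.add_apply, Finsupp.smul_apply, smul_eq_mul, Finsupp.single_eq_same]
  rw [dot_comm u μ]
  field_simp
  ring

/-- The map `e_{i₁} ↦ u` (other basis vectors fixed) and its dual. -/
theorem exists_transA (i₁ : ℚ × ℕ) (u : V) (hu : u i₁ ≠ 0) (hlow : ∀ i, u i ≠ 0 → i.1 ≤ i₁.1) :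
    ∃ M : Mv, (∀ h : V, M.A h = h + h i₁ • (u - Finsupp.single i₁ 1)) ∧
      (∀ μ : V, M.B μ = μ + Finsupp.single i₁ ((μ i₁ - dot u μ) / u i₁)) := by
  have hz : ∀ (v : ℚ), i₁.1 < v → ∀ i : ℚ × ℕ, v ≤ i.1 → u i = 0 ∧ i₁ ≠ i := by
    intro v hv i hi
    constructor
    · by_contra hne
      exact absurd (hlow i hne) (not_le.mpr (lt_of_lt_of_le hv hi))
    · rintro rfl
      exact absurd hv (not_lt.mpr hi)
  have hd : ∀ (v : ℚ) (μ : V), (∀ i : ℚ × ℕ, i.1 < v → μ i = 0) → i₁.1 < v → dot u μ = 0 :=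
    fun v μ hμ hv => dot_eq_zero u μ fun i hi => hμ i (lt_of_le_of_lt (hlow i hi) hv)
  refine ⟨⟨eqE i₁ u hu, eqF i₁ u hu, dot_eqF_eqE i₁ u hu, ?_, ?_, ?_, ?_⟩, fun h => rfl,
    fun μ => rfl⟩
  · intro v h hh i hi
    rw [eqE_apply]
    rcases le_or_gt v i₁.1 with hv | hv
    · simp [hh i₁ hv, hh i hi]
    · obtain ⟨h1, h2⟩ := hz v hv i hi
      simp [h1, hh i hi, h2]
  · intro v h hh i hi
    rw [eqE_symm_apply]
    rcases le_or_gt v i₁.1 with hv | hv
    · simp [hh i₁ hv, hh i hi]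
    · obtain ⟨h1, h2⟩ := hz v hv i hi
      simp [h1, hh i hi, h2]
  · intro v μ hμ i hi
    rw [eqF_apply]
    rcases lt_or_ge i₁.1 v with hv | hv
    · simp [hμ i₁ hv, hμ i hi, hd v μ hμ hv]
    · have h2 : i₁ ≠ i := by
        rintro rfl
        exact absurd hi (not_lt.mpr hv)
      simp [hμ i hi, h2]
  · intro v μ hμ i hi
    rw [eqF_symm_apply]
    rcases lt_or_ge i₁.1 v with hv | hv
    · simp [hμ i₁ hv, hμ i hi, hd v μ hμ hv]
    · have h2 : i₁ ≠ i := by
        rintro rfl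
        exact absurd hi (not_lt.mpr hv)
      simp [hμ i hi, h2]

/-- The dual version: `B` is the map `e_{i₁} ↦ w`. -/
theorem exists_transB (i₁ : ℚ × ℕ) (w : V) (hw : w i₁ ≠ 0) (hhigh : ∀ i, w i ≠ 0 → i₁.1 ≤ i.1) :
    ∃ M : Mv, (∀ μ : V, M.B μ = μ + μ i₁ • (w - Finsupp.single i₁ 1)) ∧
      (∀ h : V, M.A h = h + Finsupp.single i₁ ((h i₁ - dot w h) / w i₁)) := by
  have hz : ∀ (v : ℚ), v ≤ i₁.1 → ∀ i : ℚ × ℕ, i.1 < v → w i = 0 ∧ i₁ ≠ i := by
    intro v hv i hi
    constructor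
    · by_contra hne
      exact absurd (hhigh i hne) (not_le.mpr (lt_of_lt_of_le hi hv))
    · rintro rfl
      exact absurd hi (not_lt.mpr hv)
  have hd : ∀ (v : ℚ) (h : V), (∀ i : ℚ × ℕ, v ≤ i.1 → h i = 0) → v ≤ i₁.1 → dot w h = 0 :=
    fun v h hh hv => dot_eq_zero w h fun i hi => hh i (le_trans hv (hhigh i hi))
  refine ⟨⟨eqF i₁ w hw, eqE i₁ w hw, ?_, ?_, ?_, ?_, ?_⟩, fun h => rfl, fun μ => rfl⟩
  · intro μ h
    rw [dot_comm, dot_eqF_eqE, dot_comm]
  · intro v h hh i hi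
    rw [eqF_apply]
    rcases le_or_gt v i₁.1 with hv | hv
    · simp [hh i₁ hv, hh i hi, hd v h hh hv]
    · have h2 : i₁ ≠ i := by
        rintro rfl
        exact absurd hv (not_lt.mpr hi)
      simp [hh i hi, h2]
  · intro v h hh i hi
    rw [eqF_symm_apply]
    rcases le_or_gt v i₁.1 with hv | hv
    · simp [hh i₁ hv, hh i hi, hd v h hh hv]
    · have h2 : i₁ ≠ i := by
        rintro rfl
        exact absurd hv (not_lt.mpr hi)
      simp [hh i hi, h2]
  · intro v μ hμ i hi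
    rw [eqE_apply]
    rcases lt_or_ge i₁.1 v with hv | hv
    · simp [hμ i₁ hv, hμ i hi]
    · obtain ⟨h1, h2⟩ := hz v hv i hi
      simp [h1, hμ i hi, h2]
  · intro v μ hμ i hi
    rw [eqE_symm_apply]
    rcases lt_or_ge i₁.1 v with hv | hv
    · simp [hμ i₁ hv, hμ i hi]
    · obtain ⟨h1, h2⟩ := hz v hv i hi
      simp [h1, hμ i hi, h2]

/-- A level preserving swap. -/
theorem exists_swap (i₀ i₁ : ℚ × ℕ) (h01 : i₁.1 = i₀.1) :
    ∃ M : Mv, (∀ h : V, ∀ i, M.A h i = h (Equiv.swap i₀ i₁ i)) ∧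
      (∀ h : V, ∀ i, M.B h i = h (Equiv.swap i₀ i₁ i)) := by
  obtain ⟨P, hA, hB⟩ := exists_perm (Equiv.swap i₀ i₁) (by
    intro i
    rcases eq_or_ne i i₀ with rfl | h0
    · rw [Equiv.swap_apply_left, h01]
    · rcases eq_or_ne i i₁ with rfl | h1
      · rw [Equiv.swap_apply_right, h01]
      · rw [Equiv.swap_apply_of_ne_of_ne h0 h1])
  refine ⟨P, fun h i => ?_, fun h i => ?_⟩
  · have := hA h (Equiv.swap i₀ i₁ i)
    rwa [Equiv.swap_apply_self] at this
  · have := hB h (Equiv.swap i₀ i₁ i)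
    rwa [Equiv.swap_apply_self] at this

theorem swap_level (i₀ i₁ : ℚ × ℕ) (h01 : i₁.1 = i₀.1) (i : ℚ × ℕ) :
    (Equiv.swap i₀ i₁ i).1 = i.1 := by
  rcases eq_or_ne i i₀ with rfl | h0
  · rw [Equiv.swap_apply_left, h01]
  · rcases eq_or_ne i i₁ with rfl | h1
    · rw [Equiv.swap_apply_right, h01]
    · rw [Equiv.swap_apply_of_ne_of_ne h0 h1]

theorem swap_fix (J : Set (ℚ × ℕ)) (i₀ i₁ : ℚ × ℕ) (h0 : i₀ ∉ J) (h1 : i₁ ∉ J) (g : V)
    (hg : ∀ i, g i ≠ 0 → i ∈ J) (i : ℚ × ℕ) : g (Equiv.swap i₀ i₁ i) = g i := by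
  have g0 : g i₀ = 0 := by
    by_contra h; exact h0 (hg _ h)
  have g1 : g i₁ = 0 := by
    by_contra h; exact h1 (hg _ h)
  rcases eq_or_ne i i₀ with rfl | h0
  · rw [Equiv.swap_apply_left, g0, g1]
  · rcases eq_or_ne i i₁ with rfl | h1
    · rw [Equiv.swap_apply_right, g0, g1]
    · rw [Equiv.swap_apply_of_ne_of_ne h0 h1]

/-- One step, for `A`. -/
theorem stepA (J : Set (ℚ × ℕ)) (K : ℕ) (hJ : ∀ i ∈ J, i.2 < K) (h : V) :
    ∃ (M : Mv) (γ : ℚ), (∀ g : V, (∀ i, g i ≠ 0 → i ∈ J) → M.A g = g ∧ M.B g = g) ∧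
      (∀ i, M.A h i ≠ 0 → i ∈ J ∨ i = (γ, K)) := by
  classical
  have hdec : h.filter (fun i => i ∈ J) + h.filter (fun i => ¬ i ∈ J) = h :=
    Finsupp.filter_add_filter_not h _
  set hJ' : V := h.filter (fun i => i ∈ J) with hhJ'
  set h' : V := h.filter (fun i => ¬ i ∈ J) with hh'
  have hJs : ∀ i, hJ' i ≠ 0 → i ∈ J := by
    intro i hi
    by_contra hiJ
    exact hi (by rw [hhJ', Finsupp.filter_apply, if_neg hiJ])
  have h's : ∀ i, i ∈ J → h' i = 0 := by
    intro i hi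
    rw [hh', Finsupp.filter_apply, if_neg (not_not.mpr hi)]
  by_cases h0 : h' = 0
  · refine ⟨one, 0, fun g _ => ⟨rfl, rfl⟩, fun i hi => Or.inl (hJs i ?_)⟩
    rw [h0, add_zero] at hdec
    rw [hdec]
    exact hi
  · obtain ⟨i₀, hi₀, hmax⟩ := Finset.exists_max_image h'.support (fun i => i.1)
      (Finsupp.support_nonempty_iff.mpr h0)
    have hi₀' : h' i₀ ≠ 0 := Finsupp.mem_support_iff.mp hi₀
    have hi₀J : i₀ ∉ J := fun hh => hi₀' (h's _ hh)
    have hi₁J : ((i₀.1, K) : ℚ × ℕ) ∉ J := fun hh => (hJ _ hh).false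
    obtain ⟨P, hPA, hPB⟩ := exists_swap i₀ (i₀.1, K) rfl
    have hPfix : ∀ g : V, (∀ i, g i ≠ 0 → i ∈ J) → P.A g = g ∧ P.B g = g := by
      intro g hg
      constructor
      · ext i; rw [hPA, swap_fix J i₀ _ hi₀J hi₁J g hg]
      · ext i; rw [hPB, swap_fix J i₀ _ hi₀J hi₁J g hg]
    have hu : P.A h' (i₀.1, K) ≠ 0 := by
      rw [hPA, Equiv.swap_apply_right]; exact hi₀'
    have hlow : ∀ i, P.A h' i ≠ 0 → i.1 ≤ ((i₀.1, K) : ℚ × ℕ).1 := by
      intro i hi
      rw [hPA] at hi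
      have := hmax _ (Finsupp.mem_support_iff.mpr hi)
      rw [swap_level i₀ (i₀.1, K) rfl] at this
      exact this
    obtain ⟨T, hTA, hTB⟩ := exists_transA (i₀.1, K) (P.A h') hu hlow
    have hTfix : ∀ g : V, (∀ i, g i ≠ 0 → i ∈ J) → T.A.symm g = g ∧ T.B.symm g = g := by
      intro g hg
      have g1 : g (i₀.1, K) = 0 := by
        by_contra hne; exact hi₁J (hg _ hne)
      have hd : dot (P.A h') g = 0 := by
        refine dot_eq_zero _ _ fun i hi => ?_
        by_contra hne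
        have hiJ := hg i hne
        apply hi
        rw [hPA, Equiv.swap_apply_of_ne_of_ne, h's i hiJ]
        · rintro rfl; exact hi₀J hiJ
        · rintro rfl; exact hi₁J hiJ
      constructor
      · rw [LinearEquiv.symm_apply_eq, hTA, g1, zero_smul, add_zero]
      · rw [LinearEquiv.symm_apply_eq, hTB, g1, hd, sub_zero, zero_div, Finsupp.single_zero,
          add_zero]
    refine ⟨comp (inv T) P, i₀.1, ?_, ?_⟩
    · intro g hg
      constructor
      · change T.A.symm (P.A g) = g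
        rw [(hPfix g hg).1, (hTfix g hg).1]
      · change T.B.symm (P.B g) = g
        rw [(hPfix g hg).2, (hTfix g hg).2]
    · intro i hi
      change T.A.symm (P.A h) i ≠ 0 at hi
      have h1 : T.A.symm (P.A h) = hJ' + Finsupp.single (i₀.1, K) 1 := by
        rw [← hdec, map_add, map_add, (hPfix _ hJs).1, (hTfix _ hJs).1]
        congr 1
        rw [LinearEquiv.symm_apply_eq, hTA, Finsupp.single_eq_same, one_smul]
        abel
      rw [h1, Finsupp.add_apply] at hi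
      by_cases h2 : hJ' i = 0
      · right
        rw [h2, zero_add, Finsupp.single_apply] at hi
        by_contra hne
        exact hi (if_neg fun hh => hne hh.symm)
      · exact Or.inl (hJs i h2)

/-- One step, for `B`. -/
theorem stepB (J : Set (ℚ × ℕ)) (K : ℕ) (hJ : ∀ i ∈ J, i.2 < K) (h : V) :
    ∃ (M : Mv) (γ : ℚ), (∀ g : V, (∀ i, g i ≠ 0 → i ∈ J) → M.A g = g ∧ M.B g = g) ∧
      (∀ i, M.B h i ≠ 0 → i ∈ J ∨ i = (γ, K)) := by
  classical
  have hdec : h.filter (fun i => i ∈ J) + h.filter (fun i => ¬ i ∈ J) = h :=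
    Finsupp.filter_add_filter_not h _
  set hJ' : V := h.filter (fun i => i ∈ J) with hhJ'
  set h' : V := h.filter (fun i => ¬ i ∈ J) with hh'
  have hJs : ∀ i, hJ' i ≠ 0 → i ∈ J := by
    intro i hi
    by_contra hiJ
    exact hi (by rw [hhJ', Finsupp.filter_apply, if_neg hiJ])
  have h's : ∀ i, i ∈ J → h' i = 0 := by
    intro i hi
    rw [hh', Finsupp.filter_apply, if_neg (not_not.mpr hi)]
  by_cases h0 : h' = 0
  · refine ⟨one, 0, fun g _ => ⟨rfl, rfl⟩, fun i hi => Or.inl (hJs i ?_)⟩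
    rw [h0, add_zero] at hdec
    rw [hdec]
    exact hi
  · obtain ⟨i₀, hi₀, hmin⟩ := Finset.exists_min_image h'.support (fun i => i.1)
      (Finsupp.support_nonempty_iff.mpr h0)
    have hi₀' : h' i₀ ≠ 0 := Finsupp.mem_support_iff.mp hi₀
    have hi₀J : i₀ ∉ J := fun hh => hi₀' (h's _ hh)
    have hi₁J : ((i₀.1, K) : ℚ × ℕ) ∉ J := fun hh => (hJ _ hh).false
    obtain ⟨P, hPA, hPB⟩ := exists_swap i₀ (i₀.1, K) rfl
    have hPfix : ∀ g : V, (∀ i, g i ≠ 0 → i ∈ J) → P.A g = g ∧ P.B g = g := by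
      intro g hg
      constructor
      · ext i; rw [hPA, swap_fix J i₀ _ hi₀J hi₁J g hg]
      · ext i; rw [hPB, swap_fix J i₀ _ hi₀J hi₁J g hg]
    have hu : P.B h' (i₀.1, K) ≠ 0 := by
      rw [hPB, Equiv.swap_apply_right]; exact hi₀'
    have hhigh : ∀ i, P.B h' i ≠ 0 → ((i₀.1, K) : ℚ × ℕ).1 ≤ i.1 := by
      intro i hi
      rw [hPB] at hi
      have := hmin _ (Finsupp.mem_support_iff.mpr hi)
      rw [swap_level i₀ (i₀.1, K) rfl] at this
      exact this
    obtain ⟨T, hTB, hTA⟩ := exists_transB (i₀.1, K) (P.B h') hu hhigh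
    have hTfix : ∀ g : V, (∀ i, g i ≠ 0 → i ∈ J) → T.A.symm g = g ∧ T.B.symm g = g := by
      intro g hg
      have g1 : g (i₀.1, K) = 0 := by
        by_contra hne; exact hi₁J (hg _ hne)
      have hd : dot (P.B h') g = 0 := by
        refine dot_eq_zero _ _ fun i hi => ?_
        by_contra hne
        have hiJ := hg i hne
        apply hi
        rw [hPB, Equiv.swap_apply_of_ne_of_ne, h's i hiJ]
        · rintro rfl; exact hi₀J hiJ
        · rintro rfl; exact hi₁J hiJ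
      constructor
      · rw [LinearEquiv.symm_apply_eq, hTA, g1, hd, sub_zero, zero_div, Finsupp.single_zero,
          add_zero]
      · rw [LinearEquiv.symm_apply_eq, hTB, g1, zero_smul, add_zero]
    refine ⟨comp (inv T) P, i₀.1, ?_, ?_⟩
    · intro g hg
      constructor
      · change T.A.symm (P.A g) = g
        rw [(hPfix g hg).1, (hTfix g hg).1]
      · change T.B.symm (P.B g) = g
        rw [(hPfix g hg).2, (hTfix g hg).2]
    · intro i hi
      change T.B.symm (P.B h) i ≠ 0 at hi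
      have h1 : T.B.symm (P.B h) = hJ' + Finsupp.single (i₀.1, K) 1 := by
        rw [← hdec, map_add, map_add, (hPfix _ hJs).2, (hTfix _ hJs).2]
        congr 1
        rw [LinearEquiv.symm_apply_eq, hTB, Finsupp.single_eq_same, one_smul]
        abel
      rw [h1, Finsupp.add_apply] at hi
      by_cases h2 : hJ' i = 0
      · right
        rw [h2, zero_add, Finsupp.single_apply] at hi
        by_contra hne
        exact hi (if_neg fun hh => hne hh.symm)
      · exact Or.inl (hJs i h2)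

/-- Normal form of a pair `(h, m)` relative to a finite set `I` of occupied basis vectors:
first move the part of `h` outside `I` to one basis vector `(γ₀, N)` (a swap at the top level and
the inverse of `exists_transA`), then the part of `m` outside `I ∪ {(γ₀, N)}` to one basis vector
`(γ₁, N + 1)` (a swap at the lowest level and the inverse of `exists_transB`). -/
theorem normal_form (I : Set (ℚ × ℕ)) (N : ℕ) (hI : ∀ i ∈ I, i.2 < N)
    (v : ℚ) (h m : V) (hh : ∀ i : ℚ × ℕ, i.1 < v → h i = 0)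
    (hm : ∀ i : ℚ × ℕ, i.1 < v → m i = 0) :
    ∃ (M : Mv) (γ₀ γ₁ : ℚ),
      (∀ g : V, (∀ i, g i ≠ 0 → i ∈ I) → M.A g = g ∧ M.B g = g) ∧
      (∀ i, tr v (M.A h) i ≠ 0 → i ∈ I ∨ i = (γ₀, N)) ∧
      (∀ i, M.B m i ≠ 0 → i ∈ I ∨ i = (γ₀, N) ∨ i = (γ₁, N + 1)) := by
  obtain ⟨M₁, γ₀, hf₁, hs₁⟩ := stepA I N hI h
  obtain ⟨M₂, γ₁, hf₂, hs₂⟩ := stepB (I ∪ {(γ₀, N)}) (N + 1) (by
    rintro i (hi | hi)
    · exact (hI i hi).trans (Nat.lt_succ_self N)
    · rw [Set.mem_singleton_iff.mp hi]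
      exact Nat.lt_succ_self N) (M₁.B m)
  refine ⟨comp M₂ M₁, γ₀, γ₁, ?_, ?_, ?_⟩
  · intro g hg
    constructor
    · change M₂.A (M₁.A g) = g
      rw [(hf₁ g hg).1, (hf₂ g fun i hi => Or.inl (hg i hi)).1]
    · change M₂.B (M₁.B g) = g
      rw [(hf₁ g hg).2, (hf₂ g fun i hi => Or.inl (hg i hi)).2]
  · intro i hi
    have h1 : (comp M₂ M₁).A h = M₁.A h := by
      change M₂.A (M₁.A h) = M₁.A h
      exact (hf₂ _ fun i hi => hs₁ i hi).1
    rw [h1, tr_apply] at hi
    exact hs₁ i fun h0 => hi (by rw [h0, ite_self])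
  · intro i hi
    rcases hs₂ i hi with (h1 | h1) | h1
    · exact Or.inl h1
    · exact Or.inr (Or.inl h1)
    · exact Or.inr (Or.inr h1)

end Mv

end Pool.Agent.H13.NipSeq
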