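import Mathlib
import Pool.Agent.H13.NipSeq.Base
import Pool.Agent.H13.NipSeq.Moves

/-!
The underlying set of the structure and the class of good relations: definitions.
-/

set_option autoImplicit false

namespace Pool.Agent.H13.NipSeq

/-- The points of the structure: a level `v`, a direction `s`, and for every `k` a vector `h k`
and a functional `m k`, both supported at levels `≥ v`. -/
@[ext] structure Pt where
  v : ℚ
  s : ℂ
  h : ℕ → V
  m : ℕ → V
  hh : ∀ (k : ℕ) (i : ℚ × ℕ), i.1 < v → h k i = 0
  hm : ∀ (k : ℕ) (i : ℚ × ℕ), i.1 < v → m k i = 0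

/-- The action of a family of filtered automorphisms. -/
noncomputable def act (M : ℕ → Mv) (x : Pt) : Pt where
  v := x.v
  s := x.s
  h := fun k => tr x.v ((M k).A (x.h k))
  m := fun k => (M k).B (x.m k)
  hh := fun k i hi => by simp [not_le.mpr hi]
  hm := fun k i hi => (M k).highB x.v (x.m k) (x.hm k) i hi

/-- The value of the polynomial with coefficients `H k` at `s`. -/
noncomputable def pol (H : ℕ → ℕ → V) (k : ℕ) (s : ℂ) : V :=
  ∑ j ∈ Finset.range (k + 1), s ^ j • H k j

/-- The polynomial moves: `h k` is changed by a polynomial of degree `≤ k` in `s`. -/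
noncomputable def hact (H : ℕ → ℕ → V) (x : Pt) : Pt where
  v := x.v
  s := x.s
  h := fun k => x.h k + tr x.v (pol H k x.s)
  m := x.m
  hh := fun k i hi => by simp [x.hh k i hi, not_le.mpr hi]
  hm := x.hm

/-- Two points have the same data below `K`. -/
def Eqv (K : ℕ) (x y : Pt) : Prop :=
  x.v = y.v ∧ x.s = y.s ∧ ∀ k < K, x.h k = y.h k ∧ x.m k = y.m k

/-- Two tuples have the same equality pattern. -/
def SamePat {α : Type} (x y : α → Pt) : Prop := ∀ i j, x i = x j ↔ y i = y j

/-- The invariance conditions. -/
structure Inv {α : Type} (K : ℕ) (R : Set (α → Pt)) : Prop where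
  act : ∀ (M : ℕ → Mv) (x : α → Pt), x ∈ R ↔ (fun i => act M (x i)) ∈ R
  hact : ∀ (H : ℕ → ℕ → V) (x : α → Pt), x ∈ R ↔ (fun i => hact H (x i)) ∈ R
  fib : ∀ x y : α → Pt, (∀ i, Eqv K (x i) (y i)) → SamePat x y → x ∈ R → y ∈ R

/-- The indices of the levels of a normal form: one for every point, and `N` for every `k < K`. -/
abbrev Pi (α : Type) (K N : ℕ) : Type := α ⊕ (Fin K × Fin N)

/-- The indices of the coefficients of a normal form: the directions of the points, and for
every point the `N` coefficients of `h k` (`true`) and `m k` (`false`), `k < K`. -/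
abbrev Qi (α : Type) (K N : ℕ) : Type := α ⊕ (Bool × α × Fin K × Fin N)

/-- The vector with coefficients `c` at the basis vectors `(γ l, l)` of level at least `v`. -/
noncomputable def vec {N : ℕ} (v : ℚ) (γ : Fin N → ℚ) (c : Fin N → ℂ) : V :=
  ∑ l : Fin N, if v ≤ γ l then Finsupp.single (γ l, (l : ℕ)) (c l) else 0

/-- The normal form with levels `x`, coefficients `c` and tags `t`. -/
noncomputable def real {α : Type} (K N : ℕ) (t : α → ℕ) (x : Pi α K N → ℚ) (c : Qi α K N → ℂ)
    (i : α) : Pt where
  v := x (Sum.inl i)
  s := c (Sum.inl i)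
  h := fun k => if hk : k < K then
      vec (x (Sum.inl i)) (fun l => x (Sum.inr (⟨k, hk⟩, l)))
        (fun l => c (Sum.inr (true, i, ⟨k, hk⟩, l)))
    else if k = K then Finsupp.single (x (Sum.inl i), 0) (t i : ℂ) else 0
  m := fun k => if hk : k < K then
      vec (x (Sum.inl i)) (fun l => x (Sum.inr (⟨k, hk⟩, l)))
        (fun l => c (Sum.inr (false, i, ⟨k, hk⟩, l)))
    else 0
  hh := by
    intro k i' hi'
    by_cases hk : k < K
    · simp only [hk, dif_pos, vec, Finsupp.finsetSum_apply]
      refine Finset.sum_eq_zero fun l _ => ?_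
      split_ifs with h1
      · rw [Finsupp.single_apply, if_neg]
        rintro rfl
        exact absurd h1 (not_le.mpr hi')
      · rfl
    · simp only [hk, dif_neg, not_false_eq_true]
      split_ifs with h1
      · rw [Finsupp.single_apply, if_neg]
        rintro rfl
        exact absurd hi' (lt_irrefl _)
      · rfl
  hm := by
    intro k i' hi'
    by_cases hk : k < K
    · simp only [hk, dif_pos, vec, Finsupp.finsetSum_apply]
      refine Finset.sum_eq_zero fun l _ => ?_
      split_ifs with h1
      · rw [Finsupp.single_apply, if_neg]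
        rintro rfl
        exact absurd h1 (not_le.mpr hi')
      · rfl
    · simp only [hk, dif_neg, not_false_eq_true]
      rfl

/-- `R` is good at stage `K`. -/
structure GoodAt {α : Type} (K : ℕ) (R : Set (α → Pt)) : Prop where
  inv : Inv K R
  dd : ∀ (N : ℕ) (t : α → ℕ), Dd {z : (Pi α K N → ℚ) × (Qi α K N → ℂ) | real K N t z.1 z.2 ∈ R}

/-- The good relations. -/
def Good {α : Type} (R : Set (α → Pt)) : Prop := ∃ K, GoodAt K R

/-- The tuple with the new point `y` at `none`. -/
def ext {α : Type} {M : Type*} (x : α → M) (y : M) : Option α → M :=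
  fun o => Option.elim o y x

@[simp] theorem ext_none {α : Type} {M : Type*} (x : α → M) (y : M) : ext x y none = y := rfl
@[simp] theorem ext_some {α : Type} {M : Type*} (x : α → M) (y : M) (i : α) :
    ext x y (some i) = x i := rfl

end Pool.Agent.H13.NipSeq
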