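import Mathlib
import Pool.Agent.H13.NipSeq.Points

/-!
Closure properties of the class of good relations.
-/

set_option autoImplicit false

open MvPolynomial

namespace Pool.Agent.H13.NipSeq

/-! ### The moves are invertible -/

theorem tr_of_high (v : ℚ) (h : V) (hh : ∀ i : ℚ × ℕ, i.1 < v → h i = 0) : tr v h = h := by
  ext i
  rw [tr_apply]
  split_ifs with hi
  · rfl
  · exact (hh i (not_le.mp hi)).symm

theorem tr_of_low (v : ℚ) (h : V) (hh : ∀ i : ℚ × ℕ, v ≤ i.1 → h i = 0) : tr v h = 0 := by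
  ext i
  rw [tr_apply]
  split_ifs with hi
  · exact hh i hi
  · rfl

theorem tr_A_tr (M : Mv) (v : ℚ) (g : V) : tr v (M.A (tr v g)) = tr v (M.A g) := by
  have h1 : M.A g = M.A (tr v g) + M.A (g - tr v g) := by
    rw [← map_add]; congr 1; abel
  rw [h1, tr_add, tr_of_low v (M.A (g - tr v g)), add_zero]
  apply M.lowA
  intro i hi
  simp [hi]

theorem act_inv (M : ℕ → Mv) (x : Pt) : act (fun k => (M k).inv) (act M x) = x := by
  ext1
  · rfl
  · rfl
  · funext k
    change tr x.v ((M k).inv.A (tr x.v ((M k).A (x.h k)))) = x.h k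
    rw [tr_A_tr]
    change tr x.v ((M k).A.symm ((M k).A (x.h k))) = x.h k
    rw [LinearEquiv.symm_apply_apply]
    exact tr_of_high _ _ (x.hh k)
  · funext k
    change (M k).B.symm ((M k).B (x.m k)) = x.m k
    rw [LinearEquiv.symm_apply_apply]

theorem inv_inv' (M : Mv) : M.inv.inv = M := rfl

theorem act_inv' (M : ℕ → Mv) (x : Pt) : act M (act (fun k => (M k).inv) x) = x := by
  exact act_inv (fun k => (M k).inv) x

theorem act_injective (M : ℕ → Mv) : Function.Injective (act M) := by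
  intro x y h
  rw [← act_inv M x, ← act_inv M y, h]

theorem pol_neg (H : ℕ → ℕ → V) (k : ℕ) (s : ℂ) : pol (-H) k s = - pol H k s := by
  unfold pol
  rw [← Finset.sum_neg_distrib]
  refine Finset.sum_congr rfl fun j _ => ?_
  simp

theorem tr_neg (v : ℚ) (h : V) : tr v (-h) = - tr v h := by
  ext i
  simp only [tr_apply, Finsupp.neg_apply]
  split_ifs <;> simp

theorem hact_neg (H : ℕ → ℕ → V) (x : Pt) : hact (-H) (hact H x) = x := by
  ext1
  · rfl
  · rfl
  · funext k
    change x.h k + tr x.v (pol H k x.s) + tr x.v (pol (-H) k x.s) = x.h k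
    rw [pol_neg, tr_neg]
    abel
  · rfl

theorem hact_neg' (H : ℕ → ℕ → V) (x : Pt) : hact H (hact (-H) x) = x := by
  have := hact_neg (-H) x
  simpa using this

theorem hact_injective (H : ℕ → ℕ → V) : Function.Injective (hact H) := by
  intro x y h
  rw [← hact_neg H x, ← hact_neg H y, h]

/-! ### Equivalence -/

theorem Eqv.refl (K : ℕ) (x : Pt) : Eqv K x x := ⟨rfl, rfl, fun _ _ => ⟨rfl, rfl⟩⟩

theorem Eqv.symm {K : ℕ} {x y : Pt} (h : Eqv K x y) : Eqv K y x :=
  ⟨h.1.symm, h.2.1.symm, fun k hk => ⟨(h.2.2 k hk).1.symm, (h.2.2 k hk).2.symm⟩⟩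

theorem Eqv.trans {K : ℕ} {x y z : Pt} (h : Eqv K x y) (h' : Eqv K y z) : Eqv K x z :=
  ⟨h.1.trans h'.1, h.2.1.trans h'.2.1,
    fun k hk => ⟨(h.2.2 k hk).1.trans (h'.2.2 k hk).1, (h.2.2 k hk).2.trans (h'.2.2 k hk).2⟩⟩

theorem Eqv.mono {K K' : ℕ} (hK : K ≤ K') {x y : Pt} (h : Eqv K' x y) : Eqv K x y :=
  ⟨h.1, h.2.1, fun k hk => h.2.2 k (hk.trans_le hK)⟩

theorem SamePat.symm {α : Type} {x y : α → Pt} (h : SamePat x y) : SamePat y x :=
  fun i j => (h i j).symm

theorem Inv.fib_iff {α : Type} {K : ℕ} {R : Set (α → Pt)} (hR : Inv K R) {x y : α → Pt}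
    (h : ∀ i, Eqv K (x i) (y i)) (h' : SamePat x y) : x ∈ R ↔ y ∈ R :=
  ⟨hR.fib x y h h', hR.fib y x (fun i => (h i).symm) h'.symm⟩

/-- Every class of `Eqv K` is infinite. -/
theorem exists_fresh (K : ℕ) (y : Pt) (F : Set Pt) (hF : F.Finite) : ∃ y' ∉ F, Eqv K y y' := by
  let f : ℕ → Pt := fun t =>
    { v := y.v, s := y.s,
      h := fun k => if k < K then y.h k else Finsupp.single (y.v, k) (t : ℂ)
      m := y.m
      hh := by
        intro k i hi
        split_ifs
        · exact y.hh k i hi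
        · rw [Finsupp.single_apply, if_neg]
          rintro rfl
          exact lt_irrefl _ hi
      hm := y.hm }
  have hf : Function.Injective f := by
    intro t t' h
    have h1 : (f t).h K = (f t').h K := by rw [h]
    have h2 : Finsupp.single (y.v, K) (t : ℂ) = Finsupp.single (y.v, K) (t' : ℂ) := by
      simpa [f] using h1
    have h3 := Finsupp.single_injective _ h2
    exact_mod_cast h3
  obtain ⟨t, ht⟩ : ∃ t, f t ∉ F := by
    by_contra hcon
    push Not at hcon
    exact Set.infinite_range_of_injective hf (hF.subset (by rintro _ ⟨t, rfl⟩; exact hcon t))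
  refine ⟨f t, ht, rfl, rfl, fun k hk => ⟨?_, rfl⟩⟩
  simp [f, hk]

/-! ### Vectors in normal form -/

theorem vec_at {N : ℕ} (v : ℚ) (γ : Fin N → ℚ) (c : Fin N → ℂ) (l : Fin N) :
    vec v γ c (γ l, (l : ℕ)) = if v ≤ γ l then c l else 0 := by
  unfold vec
  rw [Finsupp.finsetSum_apply, Finset.sum_eq_single l]
  · split_ifs <;> simp
  · intro l' _ hl'
    split_ifs
    · rw [Finsupp.single_apply, if_neg]
      intro h
      exact hl' (Fin.ext (congrArg Prod.snd h))
    · rfl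
  · intro h; exact absurd (Finset.mem_univ _) h

theorem vec_ne {N : ℕ} (v : ℚ) (γ : Fin N → ℚ) (c : Fin N → ℂ) (i : ℚ × ℕ)
    (hi : ∀ l : Fin N, i ≠ (γ l, (l : ℕ))) : vec v γ c i = 0 := by
  unfold vec
  rw [Finsupp.finsetSum_apply]
  refine Finset.sum_eq_zero fun l _ => ?_
  split_ifs
  · rw [Finsupp.single_apply, if_neg (fun h => hi l h.symm)]
  · rfl

theorem vec_repr {N : ℕ} (v : ℚ) (γ : Fin N → ℚ) (g : V) (hg : ∀ i, g i ≠ 0 → ∃ l : Fin N,
    i = (γ l, (l : ℕ))) (hv : ∀ i : ℚ × ℕ, i.1 < v → g i = 0) :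
    vec v γ (fun l => g (γ l, (l : ℕ))) = g := by
  ext i
  by_cases h : ∃ l : Fin N, i = (γ l, (l : ℕ))
  · obtain ⟨l, rfl⟩ := h
    rw [vec_at]
    split_ifs with h1
    · rfl
    · exact (hv _ (not_le.mp h1)).symm
  · rw [vec_ne v γ _ i (fun l hl => h ⟨l, hl⟩)]
    by_contra hne
    exact h (hg i (Ne.symm hne))

theorem vec_supp {N : ℕ} (v : ℚ) (γ : Fin N → ℚ) (c : Fin N → ℂ) (i : ℚ × ℕ)
    (hi : vec v γ c i ≠ 0) : ∃ l : Fin N, i = (γ l, (l : ℕ)) := by
  by_contra h
  exact hi (vec_ne v γ c i (fun l hl => h ⟨l, hl⟩))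

theorem vec_congr_iff {N : ℕ} (v : ℚ) (γ : Fin N → ℚ) (c d : Fin N → ℂ) :
    vec v γ c = vec v γ d ↔ ∀ l, v ≤ γ l → c l = d l := by
  constructor
  · intro h l hl
    have := DFunLike.congr_fun h (γ l, (l : ℕ))
    rw [vec_at, vec_at, if_pos hl, if_pos hl] at this
    exact this
  · intro h
    unfold vec
    refine Finset.sum_congr rfl fun l _ => ?_
    split_ifs with hl
    · rw [h l hl]
    · rfl

theorem real_h_lt {α : Type} (K N : ℕ) (t : α → ℕ) (x : Pi α K N → ℚ) (c : Qi α K N → ℂ)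
    (i : α) (k : Fin K) : (real K N t x c i).h k =
      vec (x (Sum.inl i)) (fun l => x (Sum.inr (k, l))) (fun l => c (Sum.inr (true, i, k, l))) := by
  simp [real]

theorem real_m_lt {α : Type} (K N : ℕ) (t : α → ℕ) (x : Pi α K N → ℚ) (c : Qi α K N → ℂ)
    (i : α) (k : Fin K) : (real K N t x c i).m k =
      vec (x (Sum.inl i)) (fun l => x (Sum.inr (k, l)))
        (fun l => c (Sum.inr (false, i, k, l))) := by
  simp [real]

theorem real_v {α : Type} (K N : ℕ) (t : α → ℕ) (x : Pi α K N → ℚ) (c : Qi α K N → ℂ)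
    (i : α) : (real K N t x c i).v = x (Sum.inl i) := rfl

theorem real_s {α : Type} (K N : ℕ) (t : α → ℕ) (x : Pi α K N → ℚ) (c : Qi α K N → ℂ)
    (i : α) : (real K N t x c i).s = c (Sum.inl i) := rfl

theorem real_h_K {α : Type} (K N : ℕ) (t : α → ℕ) (x : Pi α K N → ℚ) (c : Qi α K N → ℂ)
    (i : α) : (real K N t x c i).h K = Finsupp.single (x (Sum.inl i), 0) (t i : ℂ) := by
  simp [real]

theorem real_h_gt {α : Type} (K N : ℕ) (t : α → ℕ) (x : Pi α K N → ℚ) (c : Qi α K N → ℂ)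
    (i : α) (k : ℕ) (hk : K < k) : (real K N t x c i).h k = 0 := by
  simp [real, not_lt.mpr hk.le, hk.ne']

theorem real_m_ge {α : Type} (K N : ℕ) (t : α → ℕ) (x : Pi α K N → ℚ) (c : Qi α K N → ℂ)
    (i : α) (k : ℕ) (hk : K ≤ k) : (real K N t x c i).m k = 0 := by
  simp [real, not_lt.mpr hk]

/-- The tags can be recovered. -/
theorem tag_eq {α β : Type} {K N N' : ℕ} {t : α → ℕ} {x : Pi α K N → ℚ} {c : Qi α K N → ℂ}
    {t' : β → ℕ} {x' : Pi β K N' → ℚ} {c' : Qi β K N' → ℂ} {i : α} {j : β}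
    (h : real K N t x c i = real K N' t' x' c' j) : t i = t' j := by
  have hv : x (Sum.inl i) = x' (Sum.inl j) := congrArg Pt.v h
  have h1 : (real K N t x c i).h K = (real K N' t' x' c' j).h K := by rw [h]
  rw [real_h_K, real_h_K, hv] at h1
  have h2 := Finsupp.single_injective _ h1
  exact_mod_cast h2

theorem real_eq_of_eqv {α β : Type} {K N N' : ℕ} {t : α → ℕ} {x : Pi α K N → ℚ}
    {c : Qi α K N → ℂ} {t' : β → ℕ} {x' : Pi β K N' → ℚ} {c' : Qi β K N' → ℂ} {i : α} {j : β}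
    (h : Eqv K (real K N t x c i) (real K N' t' x' c' j)) (ht : t i = t' j) :
    real K N t x c i = real K N' t' x' c' j := by
  obtain ⟨h1, h2, h3⟩ := h
  ext1
  · exact h1
  · exact h2
  · funext k
    rcases lt_trichotomy k K with hk | hk | hk
    · exact (h3 k hk).1
    · subst hk
      rw [real_h_K, real_h_K, ht]
      have : x (Sum.inl i) = x' (Sum.inl j) := h1
      rw [this]
    · rw [real_h_gt _ _ _ _ _ _ _ hk, real_h_gt _ _ _ _ _ _ _ hk]
  · funext k
    rcases lt_or_ge k K with hk | hk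
    · exact (h3 k hk).2
    · rw [real_m_ge _ _ _ _ _ _ _ hk, real_m_ge _ _ _ _ _ _ _ hk]

theorem eqv_real_iff {α : Type} (K N : ℕ) (t : α → ℕ) (x : Pi α K N → ℚ) (c : Qi α K N → ℂ)
    (i j : α) : Eqv K (real K N t x c i) (real K N t x c j) ↔
      x (Sum.inl i) = x (Sum.inl j) ∧ c (Sum.inl i) = c (Sum.inl j) ∧
      ∀ (k : Fin K) (l : Fin N) (b : Bool), x (Sum.inl i) ≤ x (Sum.inr (k, l)) →
        c (Sum.inr (b, i, k, l)) = c (Sum.inr (b, j, k, l)) := by
  constructor
  · rintro ⟨h1, h2, h3⟩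
    have h1' : x (Sum.inl i) = x (Sum.inl j) := h1
    refine ⟨h1, h2, fun k l b hl => ?_⟩
    have h4 := h3 k k.2
    rw [real_h_lt, real_h_lt, real_m_lt, real_m_lt, ← h1'] at h4
    cases b
    · exact (vec_congr_iff _ _ _ _).mp h4.2 l hl
    · exact (vec_congr_iff _ _ _ _).mp h4.1 l hl
  · rintro ⟨h1, h2, h3⟩
    refine ⟨h1, h2, fun k hk => ?_⟩
    have e1 := real_h_lt K N t x c i ⟨k, hk⟩
    have e2 := real_h_lt K N t x c j ⟨k, hk⟩
    have e3 := real_m_lt K N t x c i ⟨k, hk⟩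
    have e4 := real_m_lt K N t x c j ⟨k, hk⟩
    dsimp only at e1 e2 e3 e4
    rw [e1, e2, e3, e4, ← h1]
    exact ⟨(vec_congr_iff _ _ _ _).mpr fun l hl => h3 _ l true hl,
      (vec_congr_iff _ _ _ _).mpr fun l hl => h3 _ l false hl⟩

/-! ### Sets in the class `Dd` -/

theorem Dd.eqC {P Q : Type} (p q : Q) : Dd {z : (P → ℚ) × (Q → ℂ) | z.2 p = z.2 q} := by
  have := Dd.zero (P := P) (X p - X q : MvPolynomial Q ℂ)
  convert this using 3 with z
  simp [sub_eq_zero]

theorem Dd.prop {P Q : Type} (p : Prop) : Dd {_z : (P → ℚ) × (Q → ℂ) | p} := by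
  by_cases hp : p
  · simpa [hp] using Dd.univ
  · simpa [hp] using Dd.empty

theorem Dd.imp {P Q : Type} {D E : Set ((P → ℚ) × (Q → ℂ))} (hD : Dd D) (hE : Dd E) :
    Dd {z | z ∈ D → z ∈ E} := by
  have := hD.compl.union hE
  convert this using 1
  ext z
  simp only [Set.mem_ofPred_eq, Set.mem_union, Set.mem_compl_iff]
  tauto

theorem Dd.iff {P Q : Type} {D E : Set ((P → ℚ) × (Q → ℂ))} (hD : Dd D) (hE : Dd E) :
    Dd {z | z ∈ D ↔ z ∈ E} := by
  have := (hD.imp hE).inter (hE.imp hD)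
  convert this using 1
  ext z
  simp only [Set.mem_ofPred_eq, Set.mem_inter_iff]
  tauto

theorem Dd.forall {P Q : Type} {ι : Type} [Finite ι] {D : ι → Set ((P → ℚ) × (Q → ℂ))}
    (hD : ∀ i, Dd (D i)) : Dd {z | ∀ i, z ∈ D i} := by
  have := Dd.iInter hD
  convert this using 1
  ext z
  simp

theorem Dd.exists {P Q : Type} {ι : Type} [Finite ι] {D : ι → Set ((P → ℚ) × (Q → ℂ))}
    (hD : ∀ i, Dd (D i)) : Dd {z | ∃ i, z ∈ D i} := by
  have := Dd.iUnion hD
  convert this using 1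
  ext z
  simp

theorem Dd.and {P Q : Type} {D E : Set ((P → ℚ) × (Q → ℂ))} (hD : Dd D) (hE : Dd E) :
    Dd {z | z ∈ D ∧ z ∈ E} := hD.inter hE

theorem dd_eqv {α : Type} (K N : ℕ) (t : α → ℕ) (i j : α) :
    Dd {z : (Pi α K N → ℚ) × (Qi α K N → ℂ) |
      Eqv K (real K N t z.1 z.2 i) (real K N t z.1 z.2 j)} := by
  have : Dd {z : (Pi α K N → ℚ) × (Qi α K N → ℂ) | z.1 (Sum.inl i) = z.1 (Sum.inl j) ∧
      z.2 (Sum.inl i) = z.2 (Sum.inl j) ∧
      ∀ (k : Fin K) (l : Fin N) (b : Bool), z.1 (Sum.inl i) ≤ z.1 (Sum.inr (k, l)) →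
        z.2 (Sum.inr (b, i, k, l)) = z.2 (Sum.inr (b, j, k, l))} :=
    (Dd.eq _ _).and ((Dd.eqC _ _).and
      (Dd.forall fun k => Dd.forall fun l => Dd.forall fun b => (Dd.le _ _).imp (Dd.eqC _ _)))
  convert this using 3 with z
  exact eqv_real_iff K N t z.1 z.2 i j

theorem dd_real_eq {α : Type} (K N : ℕ) (t : α → ℕ) (i j : α) :
    Dd {z : (Pi α K N → ℚ) × (Qi α K N → ℂ) |
      real K N t z.1 z.2 i = real K N t z.1 z.2 j} := by
  have := (dd_eqv K N t i j).and (Dd.prop (t i = t j))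
  convert this using 1
  ext z
  simp only [Set.mem_ofPred_eq]
  constructor
  · intro h
    exact ⟨h ▸ Eqv.refl _ _, tag_eq h⟩
  · rintro ⟨h1, h2⟩
    exact real_eq_of_eqv h1 h2

/-! ### Closure properties at a fixed stage -/

theorem GoodAt.compl {α : Type} {K : ℕ} {R : Set (α → Pt)} (h : GoodAt K R) : GoodAt K Rᶜ := by
  refine ⟨⟨fun M x => not_congr (h.inv.act M x), fun H x => not_congr (h.inv.hact H x),
    fun x y he hp hx hy => hx (h.inv.fib y x (fun i => (he i).symm) hp.symm hy)⟩,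
    fun N t => (h.dd N t).compl⟩

theorem GoodAt.inter {α : Type} {K : ℕ} {R S : Set (α → Pt)} (h : GoodAt K R)
    (h' : GoodAt K S) : GoodAt K (R ∩ S) := by
  refine ⟨⟨fun M x => and_congr (h.inv.act M x) (h'.inv.act M x),
    fun H x => and_congr (h.inv.hact H x) (h'.inv.hact H x),
    fun x y he hp hx => ⟨h.inv.fib x y he hp hx.1, h'.inv.fib x y he hp hx.2⟩⟩,
    fun N t => (h.dd N t).inter (h'.dd N t)⟩

/-- The restriction of the index sets. -/
def σs (α : Type) (K N : ℕ) : Pi α K N → Pi α (K + 1) N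
  | Sum.inl i => Sum.inl i
  | Sum.inr (k, l) => Sum.inr (k.castSucc, l)

def τs (α : Type) (K N : ℕ) : Qi α K N → Qi α (K + 1) N
  | Sum.inl i => Sum.inl i
  | Sum.inr (b, i, k, l) => Sum.inr (b, i, k.castSucc, l)

theorem eqv_succ {α : Type} (K N : ℕ) (t t' : α → ℕ) (x : Pi α (K + 1) N → ℚ)
    (c : Qi α (K + 1) N → ℂ) (i : α) :
    Eqv K (real (K + 1) N t' x c i) (real K N t (x ∘ σs α K N) (c ∘ τs α K N) i) := by
  refine ⟨rfl, rfl, fun k hk => ?_⟩
  have e1 := real_h_lt (K + 1) N t' x c i ⟨k, by omega⟩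
  have e2 := real_h_lt K N t (x ∘ σs α K N) (c ∘ τs α K N) i ⟨k, hk⟩
  have e3 := real_m_lt (K + 1) N t' x c i ⟨k, by omega⟩
  have e4 := real_m_lt K N t (x ∘ σs α K N) (c ∘ τs α K N) i ⟨k, hk⟩
  dsimp only at e1 e2 e3 e4
  rw [e1, e2, e3, e4]
  exact ⟨rfl, rfl⟩

/-- Tags recording an equality pattern. -/
theorem exists_tags {α : Type} [Finite α] {β : Type} (y : α → β) :
    ∃ t : α → Fin (Nat.card α), ∀ i j, t i = t j ↔ y i = y j := by
  classical
  have hch : ∀ p : Set.range y, ∃ j, y j = p.1 := fun p => p.2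
  choose ρ hρ using hch
  refine ⟨fun i => Finite.equivFin α (ρ ⟨y i, i, rfl⟩), fun i j => ?_⟩
  rw [EmbeddingLike.apply_eq_iff_eq]
  constructor
  · intro h
    have h1 := hρ ⟨y i, i, rfl⟩
    have h2 := hρ ⟨y j, j, rfl⟩
    rw [h] at h1
    exact h1.symm.trans h2
  · intro h
    congr 1
    exact Subtype.ext h

theorem GoodAt.succ {α : Type} [Finite α] {K : ℕ} {R : Set (α → Pt)} (h : GoodAt K R) :
    GoodAt (K + 1) R := by
  refine ⟨⟨h.inv.act, h.inv.hact,
    fun x y he hp hx => h.inv.fib x y (fun i => (he i).mono (by omega)) hp hx⟩, fun N t' => ?_⟩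
  have key : Dd {z : (Pi α (K + 1) N → ℚ) × (Qi α (K + 1) N → ℂ) |
      ∃ t : α → Fin (Nat.card α),
        (∀ i j, z ∈ {z : (Pi α (K + 1) N → ℚ) × (Qi α (K + 1) N → ℂ) |
          real (K + 1) N t' z.1 z.2 i = real (K + 1) N t' z.1 z.2 j} ↔
          z ∈ {z : (Pi α (K + 1) N → ℚ) × (Qi α (K + 1) N → ℂ) |
            (z.1 ∘ σs α K N, z.2 ∘ τs α K N) ∈
            {z : (Pi α K N → ℚ) × (Qi α K N → ℂ) |
              real K N (fun i => (t i : ℕ)) z.1 z.2 i =
                real K N (fun i => (t i : ℕ)) z.1 z.2 j}}) ∧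
        z ∈ {z : (Pi α (K + 1) N → ℚ) × (Qi α (K + 1) N → ℂ) |
            (z.1 ∘ σs α K N, z.2 ∘ τs α K N) ∈
            {z : (Pi α K N → ℚ) × (Qi α K N → ℂ) |
              real K N (fun i => (t i : ℕ)) z.1 z.2 ∈ R}}} := by
    refine Dd.exists fun t => Dd.and (Dd.forall fun i => Dd.forall fun j =>
      Dd.iff (dd_real_eq _ _ _ _ _) (Dd.preimage (dd_real_eq _ _ _ _ _) _ _))
      (Dd.preimage (h.dd N _) _ _)
  convert key using 1
  ext z
  simp only [Set.mem_ofPred_eq]
  constructor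
  · intro hz
    obtain ⟨t, ht⟩ := exists_tags (real (K + 1) N t' z.1 z.2)
    have hpat : SamePat (real (K + 1) N t' z.1 z.2)
        (real K N (fun i => (t i : ℕ)) (z.1 ∘ σs α K N) (z.2 ∘ τs α K N)) := by
      intro i j
      constructor
      · intro hij
        apply real_eq_of_eqv
        · exact ((eqv_succ K N (fun i => (t i : ℕ)) t' z.1 z.2 i).symm.trans
            ((hij ▸ Eqv.refl K _ : Eqv K (real (K + 1) N t' z.1 z.2 i)
              (real (K + 1) N t' z.1 z.2 j)))).trans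
              (eqv_succ K N (fun i => (t i : ℕ)) t' z.1 z.2 j)
        · exact congrArg Fin.val ((ht i j).mpr hij)
      · intro hij
        exact (ht i j).mp (Fin.ext (tag_eq (t := fun i => (t i : ℕ))
          (t' := fun i => (t i : ℕ)) (i := i) (j := j) hij))
    exact ⟨t, hpat, h.inv.fib _ _ (fun i => eqv_succ K N _ t' z.1 z.2 i) hpat hz⟩
  · rintro ⟨t, hpat, hz⟩
    exact h.inv.fib _ _ (fun i => (eqv_succ K N _ t' z.1 z.2 i).symm)
      (fun i j => (hpat i j).symm) hz

theorem GoodAt.mono {α : Type} [Finite α] {K K' : ℕ} (hK : K ≤ K') {R : Set (α → Pt)}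
    (h : GoodAt K R) : GoodAt K' R := by
  induction K', hK using Nat.le_induction with
  | base => exact h
  | succ n _ ih => exact ih.succ

theorem Good.compl {α : Type} [Finite α] {R : Set (α → Pt)} (h : Good R) : Good Rᶜ := by
  obtain ⟨K, hK⟩ := h
  exact ⟨K, hK.compl⟩

theorem Good.inter {α : Type} [Finite α] {R S : Set (α → Pt)} (h : Good R) (h' : Good S) :
    Good (R ∩ S) := by
  obtain ⟨K, hK⟩ := h
  obtain ⟨K', hK'⟩ := h'
  exact ⟨max K K', (hK.mono (le_max_left _ _)).inter (hK'.mono (le_max_right _ _))⟩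

theorem Good.univ {α : Type} [Finite α] : Good (Set.univ : Set (α → Pt)) :=
  ⟨0, ⟨fun _ _ => Iff.rfl, fun _ _ => Iff.rfl, fun _ _ _ _ _ => trivial⟩, fun _ _ => Dd.univ⟩

theorem Good.eq {α : Type} [Finite α] (i j : α) : Good {x : α → Pt | x i = x j} :=
  ⟨0, ⟨fun M _ => ⟨fun h => congrArg (act M) h, fun h => act_injective M h⟩,
    fun H _ => ⟨fun h => congrArg (hact H) h, fun h => hact_injective H h⟩,
    fun _ _ _ hp hx => (hp i j).mp hx⟩, fun N t => dd_real_eq 0 N t i j⟩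

/-- Reindexing of the data of a normal form. -/
def σf {α β : Type} (f : α → β) (K N : ℕ) : Pi α K N → Pi β K N
  | Sum.inl i => Sum.inl (f i)
  | Sum.inr (k, l) => Sum.inr (k, l)

def τf {α β : Type} (f : α → β) (K N : ℕ) : Qi α K N → Qi β K N
  | Sum.inl i => Sum.inl (f i)
  | Sum.inr (b, i, k, l) => Sum.inr (b, f i, k, l)

theorem real_comp {α β : Type} (f : α → β) (K N : ℕ) (t : β → ℕ) (x : Pi β K N → ℚ)
    (c : Qi β K N → ℂ) :
    real K N t x c ∘ f = real K N (t ∘ f) (x ∘ σf f K N) (c ∘ τf f K N) := by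
  funext i
  rfl

theorem Good.preimage {α β : Type} [Finite α] [Finite β] (f : α → β) {R : Set (α → Pt)}
    (h : Good R) : Good {x : β → Pt | x ∘ f ∈ R} := by
  obtain ⟨K, hK⟩ := h
  refine ⟨K, ⟨fun M x => hK.inv.act M (x ∘ f), fun H x => hK.inv.hact H (x ∘ f),
    fun x y he hp hx => hK.inv.fib (x ∘ f) (y ∘ f) (fun i => he (f i))
      (fun i j => hp (f i) (f j)) hx⟩, fun N t => ?_⟩
  exact (hK.dd N (t ∘ f)).preimage (P := Pi β K N) (Q := Qi β K N) (σf f K N) (τf f K N)

/-! ### Extension of normal forms -/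

/-- The restriction from `Option α` and `N + 2` basis vectors to `α` and `N` basis vectors. -/
def σo (α : Type) (K N : ℕ) : Pi α K N → Pi (Option α) K (N + 2)
  | Sum.inl i => Sum.inl (some i)
  | Sum.inr (k, l) => Sum.inr (k, l.castSucc.castSucc)

def τo (α : Type) (K N : ℕ) : Qi α K N → Qi (Option α) K (N + 2)
  | Sum.inl i => Sum.inl (some i)
  | Sum.inr (b, i, k, l) => Sum.inr (b, some i, k, l.castSucc.castSucc)

/-- The new coefficients of the old points vanish. -/
def NewZero {α : Type} {K N : ℕ} (c : Qi (Option α) K (N + 2) → ℂ) : Prop :=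
  ∀ (b : Bool) (i : α) (k : Fin K),
    c (Sum.inr (b, some i, k, (Fin.last N).castSucc)) = 0 ∧
    c (Sum.inr (b, some i, k, Fin.last (N + 1))) = 0

theorem vec_add_two {N : ℕ} (v : ℚ) (γ : Fin (N + 2) → ℚ) (c : Fin (N + 2) → ℂ)
    (h0 : c (Fin.last N).castSucc = 0) (h1 : c (Fin.last (N + 1)) = 0) :
    vec v γ c = vec v (fun l : Fin N => γ l.castSucc.castSucc)
      (fun l : Fin N => c l.castSucc.castSucc) := by
  unfold vec
  rw [Fin.sum_univ_castSucc, Fin.sum_univ_castSucc]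
  simp [h0, h1]

theorem real_restrict {α : Type} (K N : ℕ) (t : Option α → ℕ)
    (x : Pi (Option α) K (N + 2) → ℚ) (c : Qi (Option α) K (N + 2) → ℂ) (hc : NewZero c)
    (i : α) : real K (N + 2) t x c (some i) =
      real K N (fun i => t (some i)) (x ∘ σo α K N) (c ∘ τo α K N) i := by
  apply Pt.ext
  · rfl
  · rfl
  · funext k
    rcases lt_trichotomy k K with hk | hk | hk
    · have e1 := real_h_lt K (N + 2) t x c (some i) ⟨k, hk⟩
      have e2 := real_h_lt K N (fun i => t (some i)) (x ∘ σo α K N) (c ∘ τo α K N) i ⟨k, hk⟩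
      dsimp only at e1 e2
      rw [e1, e2, vec_add_two _ _ _ (hc true i ⟨k, hk⟩).1 (hc true i ⟨k, hk⟩).2]
      rfl
    · subst hk
      rw [real_h_K, real_h_K]
      rfl
    · rw [real_h_gt _ _ _ _ _ _ _ hk, real_h_gt _ _ _ _ _ _ _ hk]
  · funext k
    rcases lt_or_ge k K with hk | hk
    · have e1 := real_m_lt K (N + 2) t x c (some i) ⟨k, hk⟩
      have e2 := real_m_lt K N (fun i => t (some i)) (x ∘ σo α K N) (c ∘ τo α K N) i ⟨k, hk⟩
      dsimp only at e1 e2
      rw [e1, e2, vec_add_two _ _ _ (hc false i ⟨k, hk⟩).1 (hc false i ⟨k, hk⟩).2]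
      rfl
    · rw [real_m_ge _ _ _ _ _ _ _ hk, real_m_ge _ _ _ _ _ _ _ hk]

/-- A new point over a normal form can be moved to a normal form. -/
theorem exists_extension {α : Type} (K N : ℕ) (x : Pi α K N → ℚ) (c : Qi α K N → ℂ) (y : Pt) :
    ∃ (M : ℕ → Mv) (x' : Pi (Option α) K (N + 2) → ℚ) (c' : Qi (Option α) K (N + 2) → ℂ),
      NewZero c' ∧ x' ∘ σo α K N = x ∧ c' ∘ τo α K N = c ∧
      (∀ t i, Eqv K (act M (real K N t x c i)) (real K N t x c i)) ∧
      (∀ t, Eqv K (act M y) (real K (N + 2) t x' c' none)) := by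
  have hnf : ∀ k : Fin K, ∃ (M : Mv) (γ₀ γ₁ : ℚ),
      (∀ g : V, (∀ i, g i ≠ 0 → ∃ l : Fin N, i = (x (Sum.inr (k, l)), (l : ℕ))) →
        M.A g = g ∧ M.B g = g) ∧
      (∀ i, tr y.v (M.A (y.h k)) i ≠ 0 → (∃ l : Fin N, i = (x (Sum.inr (k, l)), (l : ℕ))) ∨
        i = (γ₀, N)) ∧
      (∀ i, M.B (y.m k) i ≠ 0 → (∃ l : Fin N, i = (x (Sum.inr (k, l)), (l : ℕ))) ∨
        i = (γ₀, N) ∨ i = (γ₁, N + 1)) := by
    intro k
    exact Mv.normal_form {i | ∃ l : Fin N, i = (x (Sum.inr (k, l)), (l : ℕ))} N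
      (by rintro i ⟨l, rfl⟩; exact l.2) y.v (y.h k) (y.m k) (y.hh k) (y.hm k)
  choose M γ₀ γ₁ hfix hA hB using hnf
  let M' : ℕ → Mv := fun k => if hk : k < K then M ⟨k, hk⟩ else Mv.one
  have hM' : ∀ k : Fin K, M' k = M k := fun k => by simp [M']
  let γ : Fin K → Fin (N + 2) → ℚ := fun k =>
    Fin.snoc (α := fun _ => ℚ) (Fin.snoc (α := fun _ => ℚ) (fun l => x (Sum.inr (k, l))) (γ₀ k))
      (γ₁ k)
  have hγ : ∀ k (l : Fin N), γ k l.castSucc.castSucc = x (Sum.inr (k, l)) := by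
    intro k l; simp [γ]
  have hγ0 : ∀ k, γ k (Fin.last N).castSucc = γ₀ k := by intro k; simp [γ]
  have hγ1 : ∀ k, γ k (Fin.last (N + 1)) = γ₁ k := by intro k; simp [γ]
  let x' : Pi (Option α) K (N + 2) → ℚ
    | Sum.inl none => y.v
    | Sum.inl (some i) => x (Sum.inl i)
    | Sum.inr (k, l) => γ k l
  let c' : Qi (Option α) K (N + 2) → ℂ
    | Sum.inl none => y.s
    | Sum.inl (some i) => c (Sum.inl i)
    | Sum.inr (true, none, k, l) => tr y.v ((M k).A (y.h k)) (γ k l, (l : ℕ))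
    | Sum.inr (false, none, k, l) => (M k).B (y.m k) (γ k l, (l : ℕ))
    | Sum.inr (b, some i, k, l) =>
        Fin.snoc (α := fun _ => ℂ) (Fin.snoc (α := fun _ => ℂ)
          (fun l => c (Sum.inr (b, i, k, l))) 0) 0 l
  refine ⟨M', x', c', ?_, ?_, ?_, ?_, ?_⟩
  · intro b i k
    cases b <;> constructor <;> simp [c']
  · funext p
    rcases p with i | ⟨k, l⟩
    · rfl
    · exact hγ k l
  · funext q
    rcases q with i | ⟨b, i, k, l⟩
    · rfl
    · cases b <;> simp [c', τo]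
  · intro t i
    refine ⟨rfl, rfl, fun k hk => ?_⟩
    have e1 := real_h_lt K N t x c i ⟨k, hk⟩
    have e2 := real_m_lt K N t x c i ⟨k, hk⟩
    dsimp only at e1 e2
    have h1 := (hfix ⟨k, hk⟩ ((real K N t x c i).h k) (by
      rw [e1]; exact vec_supp _ _ _)).1
    have h2 := (hfix ⟨k, hk⟩ ((real K N t x c i).m k) (by
      rw [e2]; exact vec_supp _ _ _)).2
    have e3 := hM' ⟨k, hk⟩
    dsimp only at e3
    constructor
    · change tr _ ((M' k).A ((real K N t x c i).h k)) = _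
      rw [e3, h1]
      exact tr_of_high _ _ ((real K N t x c i).hh k)
    · change (M' k).B ((real K N t x c i).m k) = _
      rw [e3, h2]
  · intro t
    refine ⟨rfl, rfl, fun k hk => ?_⟩
    have e3 := hM' ⟨k, hk⟩
    dsimp only at e3
    have e1 := real_h_lt K (N + 2) t x' c' none ⟨k, hk⟩
    have e2 := real_m_lt K (N + 2) t x' c' none ⟨k, hk⟩
    dsimp only at e1 e2
    rw [e1, e2]
    constructor
    · change tr y.v ((M' k).A (y.h k)) = _
      rw [e3]
      refine (vec_repr y.v (γ ⟨k, hk⟩) _ ?_ ?_).symm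
      · intro i hi
        rcases hA ⟨k, hk⟩ i hi with ⟨l, rfl⟩ | rfl
        · exact ⟨l.castSucc.castSucc, by rw [hγ]; rfl⟩
        · exact ⟨(Fin.last N).castSucc, by rw [hγ0]; rfl⟩
      · intro i hi
        rw [tr_apply, if_neg (not_le.mpr hi)]
    · change (M' k).B (y.m k) = _
      rw [e3]
      refine (vec_repr y.v (γ ⟨k, hk⟩) _ ?_ ?_).symm
      · intro i hi
        rcases hB ⟨k, hk⟩ i hi with ⟨l, rfl⟩ | rfl | rfl
        · exact ⟨l.castSucc.castSucc, by rw [hγ]; rfl⟩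
        · exact ⟨(Fin.last N).castSucc, by rw [hγ0]; rfl⟩
        · exact ⟨Fin.last (N + 1), by rw [hγ1]; rfl⟩
      · exact (M ⟨k, hk⟩).highB y.v (y.m k) (y.hm k)

theorem ext_act {α : Type} (M : ℕ → Mv) (x : α → Pt) (y : Pt) :
    (fun o => act M (ext x y o)) = ext (fun i => act M (x i)) (act M y) := by
  funext o
  cases o <;> rfl

theorem ext_hact {α : Type} (H : ℕ → ℕ → V) (x : α → Pt) (y : Pt) :
    (fun o => hact H (ext x y o)) = ext (fun i => hact H (x i)) (hact H y) := by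
  funext o
  cases o <;> rfl

theorem samePat_ext {α : Type} {x x' : α → Pt} {y y' : Pt} (h : SamePat x x')
    (h' : ∀ i, x i = y ↔ x' i = y') : SamePat (ext x y) (ext x' y') := by
  intro i j
  cases i <;> cases j
  · simp
  · simp only [ext_none, ext_some]
    rw [eq_comm, h', eq_comm]
  · simp only [ext_none, ext_some]
    exact h' _
  · simp only [ext_some]
    exact h _ _

theorem inv_ex {α : Type} [Finite α] {K : ℕ} {R : Set (Option α → Pt)} (h : Inv K R) :
    Inv K {x : α → Pt | ∃ y, ext x y ∈ R} := by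
  refine ⟨fun M x => ⟨?_, ?_⟩, fun H x => ⟨?_, ?_⟩, fun x x' he hp => ?_⟩
  · rintro ⟨y, hy⟩
    refine ⟨act M y, ?_⟩
    rw [← ext_act]
    exact (h.act M _).mp hy
  · rintro ⟨y, hy⟩
    refine ⟨act (fun k => (M k).inv) y, ?_⟩
    rw [h.act M, ext_act, act_inv']
    exact hy
  · rintro ⟨y, hy⟩
    refine ⟨hact H y, ?_⟩
    rw [← ext_hact]
    exact (h.hact H _).mp hy
  · rintro ⟨y, hy⟩
    refine ⟨hact (-H) y, ?_⟩
    rw [h.hact H, ext_hact, hact_neg']
    exact hy
  · rintro ⟨y, hy⟩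
    by_cases hyx : ∃ i, x i = y
    · obtain ⟨i, rfl⟩ := hyx
      refine ⟨x' i, h.fib _ _ ?_ (samePat_ext hp fun j => hp j i) hy⟩
      intro o
      cases o
      · exact he i
      · exact he _
    · push Not at hyx
      obtain ⟨y', hy', hyy'⟩ := exists_fresh K y (Set.range x') (Set.finite_range x')
      refine ⟨y', h.fib _ _ ?_ (samePat_ext hp fun j => ?_) hy⟩
      · intro o
        cases o
        · exact hyy'
        · exact he _
      · constructor
        · intro hj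
          exact absurd hj (hyx j)
        · intro hj
          exact absurd ⟨j, hj⟩ hy'

theorem GoodAt.ex {α : Type} [Finite α] {K : ℕ} {R : Set (Option α → Pt)} (h : GoodAt K R) :
    GoodAt K {x : α → Pt | ∃ y, ext x y ∈ R} := by
  classical
  refine ⟨inv_ex h.inv, fun N t => ?_⟩
  have := Fintype.ofFinite α
  let T : ℕ := ∑ i, t i
  have hT : ∀ i, t i ≤ T := fun i => Finset.single_le_sum (fun _ _ => Nat.zero_le _)
    (Finset.mem_univ i)
  have key : Dd {z : (Pi α K N → ℚ) × (Qi α K N → ℂ) |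
      ∃ t' : Fin (T + 2), z ∈ {z : (Pi α K N → ℚ) × (Qi α K N → ℂ) |
        ∃ w ∈ {w : (Pi (Option α) K (N + 2) → ℚ) × (Qi (Option α) K (N + 2) → ℂ) |
          w ∈ {w : (Pi (Option α) K (N + 2) → ℚ) × (Qi (Option α) K (N + 2) → ℂ) |
            real K (N + 2) (ext t (t' : ℕ)) w.1 w.2 ∈ R} ∧
          ∀ (b : Bool) (i : α) (k : Fin K),
            w ∈ {w : (Pi (Option α) K (N + 2) → ℚ) × (Qi (Option α) K (N + 2) → ℂ) |
              w ∈ {w : (Pi (Option α) K (N + 2) → ℚ) × (Qi (Option α) K (N + 2) → ℂ) |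
                w.2 (Sum.inr (b, some i, k, (Fin.last N).castSucc)) = 0} ∧
              w ∈ {w : (Pi (Option α) K (N + 2) → ℚ) × (Qi (Option α) K (N + 2) → ℂ) |
                w.2 (Sum.inr (b, some i, k, Fin.last (N + 1))) = 0}}},
          z = (w.1 ∘ σo α K N, w.2 ∘ τo α K N)}} := by
    refine Dd.exists fun t' => Dd.image (Dd.and (h.dd (N + 2) _)
      (Dd.forall fun b => Dd.forall fun i => Dd.forall fun k => Dd.and ?_ ?_)) _ _
    · have := Dd.zero (P := Pi (Option α) K (N + 2))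
        (X (Sum.inr (b, some i, k, (Fin.last N).castSucc)) :
          MvPolynomial (Qi (Option α) K (N + 2)) ℂ)
      simpa using this
    · have := Dd.zero (P := Pi (Option α) K (N + 2))
        (X (Sum.inr (b, some i, k, Fin.last (N + 1))) :
          MvPolynomial (Qi (Option α) K (N + 2)) ℂ)
      simpa using this
  convert key using 1
  ext z
  simp only [Set.mem_ofPred_eq]
  constructor
  · rintro ⟨y, hy⟩
    obtain ⟨M, x', c', hc', hx, hc, hfix, hnew⟩ := exists_extension K N z.1 z.2 y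
    -- the tag of the new point
    have htag : ∃ t' : Fin (T + 2), ∀ i, real K N t z.1 z.2 i = y ↔
        real K N t z.1 z.2 i = real K (N + 2) (ext t (t' : ℕ)) x' c' none := by
      by_cases hex : ∃ i, real K N t z.1 z.2 i = y
      · obtain ⟨i₀, hi₀⟩ := hex
        refine ⟨⟨t i₀, by have := hT i₀; omega⟩, fun i => ?_⟩
        have h1 : real K N t z.1 z.2 i₀ =
            real K (N + 2) (ext t (t i₀)) x' c' none := by
          apply real_eq_of_eqv
          · refine (hfix t i₀).symm.trans ?_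
            rw [hi₀]
            exact hnew _
          · rfl
        rw [← hi₀]
        dsimp only
        rw [← h1]
      · refine ⟨⟨T + 1, by omega⟩, fun i => ⟨fun hi => absurd ⟨i, hi⟩ hex, fun hi => ?_⟩⟩
        have h1 := tag_eq hi
        have h2 := hT i
        simp only [ext_none] at h1
        omega
    obtain ⟨t', ht'⟩ := htag
    have hold : ∀ i, real K (N + 2) (ext t (t' : ℕ)) x' c' (some i) = real K N t z.1 z.2 i := by
      intro i
      rw [real_restrict K N _ x' c' hc' i, hx, hc]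
      rfl
    refine ⟨t', (x', c'), ⟨?_, ?_⟩, ?_⟩
    · have hy2 : ext (fun i => act M (real K N t z.1 z.2 i)) (act M y) ∈ R := by
        rw [← ext_act]
        exact (h.inv.act M _).mp hy
      refine h.inv.fib _ _ ?_ ?_ hy2
      · intro o
        cases o with
        | none => exact hnew _
        | some i =>
          simp only [ext_some]
          rw [hold i]
          exact hfix t i
      · have : real K (N + 2) (ext t (t' : ℕ)) x' c' =
            ext (real K N t z.1 z.2) (real K (N + 2) (ext t (t' : ℕ)) x' c' none) := by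
          funext o
          cases o with
          | none => rfl
          | some i => exact hold i
        rw [this]
        refine samePat_ext ?_ ?_
        · intro i j
          exact ⟨fun h => act_injective M h, fun h => congrArg (act M) h⟩
        · intro i
          rw [← ht' i]
          exact ⟨fun h => act_injective M h, fun h => congrArg (act M) h⟩
    · intro b i k
      exact hc' b i k
    · exact Prod.ext hx.symm hc.symm
  · rintro ⟨t', w, ⟨hw, hz⟩, rfl⟩
    refine ⟨real K (N + 2) (ext t (t' : ℕ)) w.1 w.2 none, ?_⟩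
    have : ext (real K N t (w.1 ∘ σo α K N) (w.2 ∘ τo α K N))
        (real K (N + 2) (ext t (t' : ℕ)) w.1 w.2 none) =
        real K (N + 2) (ext t (t' : ℕ)) w.1 w.2 := by
      funext o
      cases o with
      | none => rfl
      | some i => exact (real_restrict K N (ext t (t' : ℕ)) w.1 w.2 hz i).symm
    rw [this]
    exact hw

theorem Good.ex {α : Type} [Finite α] {R : Set (Option α → Pt)} (h : Good R) :
    Good {x : α → Pt | ∃ y, ext x y ∈ R} := by
  obtain ⟨K, hK⟩ := h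
  exact ⟨K, hK.ex⟩

end Pool.Agent.H13.NipSeq
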