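import Mathlib
import Pool.Agent.H13.NipSeq.Good

/-!
The generic point at infinity.
-/

set_option autoImplicit false

open MvPolynomial

namespace Pool.Agent.H13.NipSeq

/-- The canonical points. -/
def cp (v : ℚ) (s : ℂ) : Pt where
  v := v
  s := s
  h := fun _ => 0
  m := fun _ => 0
  hh := fun _ _ _ => rfl
  hm := fun _ _ _ => rfl

/-- `b ∈ gen R` iff `(b, x) ∈ R` for the canonical points `x` of large level and generic
direction. -/
def gen {α : Type} (R : Set (Option α → Pt)) : Set (α → Pt) :=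
  {b | ∃ v₀ : ℚ, ∃ E : Finset ℂ, ∀ v : ℚ, v₀ < v → ∀ s : ℂ, s ∉ E → ext b (cp v s) ∈ R}

theorem act_comp (M₁ M₀ : ℕ → Mv) (x : Pt) :
    act (fun k => (M₁ k).comp (M₀ k)) x = act M₁ (act M₀ x) := by
  apply Pt.ext
  · rfl
  · rfl
  · funext k
    change tr x.v ((M₁ k).A ((M₀ k).A (x.h k))) = tr x.v ((M₁ k).A (tr x.v ((M₀ k).A (x.h k))))
    rw [tr_A_tr]
  · rfl

theorem Eqv.act {K : ℕ} {x y : Pt} (h : Eqv K x y) (M : ℕ → Mv) :
    Eqv K (NipSeq.act M x) (NipSeq.act M y) := by
  refine ⟨h.1, h.2.1, fun k hk => ?_⟩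
  obtain ⟨h1, h2⟩ := h.2.2 k hk
  constructor
  · change tr x.v ((M k).A (x.h k)) = tr y.v ((M k).A (y.h k))
    rw [h1, h.1]
  · change (M k).B (x.m k) = (M k).B (y.m k)
    rw [h2]

theorem normal_tuple_aux (α : Type) [Finite α] : ∀ (K N : ℕ) (b : α → Pt), N = 2 * Nat.card α →
    ∃ (M : ℕ → Mv) (t : α → ℕ) (x : Pi α K N → ℚ) (c : Qi α K N → ℂ),
      (∀ i, t i < Nat.card α) ∧
      (∀ i, Eqv K (act M (b i)) (real K N t x c i)) ∧ SamePat b (real K N t x c) := by
  induction α using Finite.induction_empty_option with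
  | @of_equiv α β e ih =>
    intro K N b hN
    have hcard : Nat.card α = Nat.card β := Nat.card_congr e
    obtain ⟨M, t, x, c, ht, hE, hP⟩ := ih K N (b ∘ e) (by rw [hcard]; exact hN)
    refine ⟨M, t ∘ e.symm, x ∘ σf e.symm K N, c ∘ τf e.symm K N, ?_, ?_, ?_⟩
    · intro i
      rw [← hcard]
      exact ht _
    · intro i
      have h1 := hE (e.symm i)
      have h2 := congrFun (real_comp e.symm K N t x c) i
      rw [← h2]
      simpa using h1
    · intro i j
      have h1 := hP (e.symm i) (e.symm j)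
      rw [← real_comp e.symm K N t x c]
      simpa using h1
  | h_empty =>
    intro K N b _
    exact ⟨fun _ => Mv.one, fun i => i.elim, fun _ => 0, fun _ => 0, fun i => i.elim,
      fun i => i.elim, fun i => i.elim⟩
  | @h_option α _ ih =>
    intro K N b hN
    classical
    have hcard : Nat.card (Option α) = Nat.card α + 1 := by simp
    obtain ⟨M₀, t₀, x₀, c₀, ht, hE, hP⟩ := ih K (2 * Nat.card α) (b ∘ some) rfl
    obtain rfl : N = 2 * Nat.card α + 2 := by rw [hN, hcard]; ring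
    obtain ⟨M₁, x', c', hc', hx, hc, hfix, hnew⟩ :=
      exists_extension K (2 * Nat.card α) x₀ c₀ (act M₀ (b none))
    have htag : ∃ τ : ℕ, τ < Nat.card α + 1 ∧ ∀ i, b (some i) = b none ↔
        real K (2 * Nat.card α) t₀ x₀ c₀ i =
          real K (2 * Nat.card α + 2) (ext t₀ τ) x' c' none := by
      by_cases hex : ∃ i, b (some i) = b none
      · obtain ⟨i₀, hi₀⟩ := hex
        refine ⟨t₀ i₀, (ht i₀).trans (Nat.lt_succ_self _), fun i => ?_⟩
        have h1 : real K (2 * Nat.card α) t₀ x₀ c₀ i₀ =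
            real K (2 * Nat.card α + 2) (ext t₀ (t₀ i₀)) x' c' none := by
          apply real_eq_of_eqv
          · refine (hfix t₀ i₀).symm.trans ?_
            refine ((hE i₀).act M₁).symm.trans ?_
            have : (b ∘ some) i₀ = b none := hi₀
            rw [this]
            exact hnew _
          · rfl
        rw [← hi₀, ← h1]
        exact hP i i₀
      · refine ⟨Nat.card α, Nat.lt_succ_self _, fun i => ⟨fun hi => absurd ⟨i, hi⟩ hex,
          fun hi => ?_⟩⟩
        have h1 := tag_eq hi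
        have h2 := ht i
        simp only [ext_none] at h1
        omega
    obtain ⟨τ, hτ, hτ'⟩ := htag
    have hold : ∀ i, real K (2 * Nat.card α + 2) (ext t₀ τ) x' c' (some i) =
        real K (2 * Nat.card α) t₀ x₀ c₀ i := by
      intro i
      rw [real_restrict K _ _ x' c' hc' i, hx, hc]
      rfl
    refine ⟨fun k => (M₁ k).comp (M₀ k), ext t₀ τ, x', c', ?_, ?_, ?_⟩
    · intro o
      rw [hcard]
      cases o with
      | none => exact hτ
      | some i => exact (ht i).trans (Nat.lt_succ_self _)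
    · intro o
      rw [act_comp]
      cases o with
      | none => exact hnew _
      | some i =>
        rw [hold i]
        exact ((hE i).act M₁).trans (hfix t₀ i)
    · have e1 : b = ext (b ∘ some) (b none) := by
        funext o; cases o <;> rfl
      have e2 : real K (2 * Nat.card α + 2) (ext t₀ τ) x' c' =
          ext (real K (2 * Nat.card α) t₀ x₀ c₀)
            (real K (2 * Nat.card α + 2) (ext t₀ τ) x' c' none) := by
        funext o
        cases o with
        | none => rfl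
        | some i => exact hold i
      rw [e1, e2]
      exact samePat_ext hP hτ'

/-- Every tuple can be moved to a normal form with `N = 2 * Nat.card α`. -/
theorem normal_tuple {α : Type} [Finite α] (K : ℕ) (b : α → Pt) :
    ∃ (M : ℕ → Mv) (t : α → ℕ) (x : Pi α K (2 * Nat.card α) → ℚ)
      (c : Qi α K (2 * Nat.card α) → ℂ),
      (∀ i, t i < Nat.card α) ∧
      (∀ i, Eqv K (act M (b i)) (real K (2 * Nat.card α) t x c i)) ∧
      SamePat b (real K (2 * Nat.card α) t x c) :=
  normal_tuple_aux α K (2 * Nat.card α) b rfl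

theorem gen_mono {α : Type} {R S : Set (Option α → Pt)} (h : R ⊆ S) : gen R ⊆ gen S := by
  rintro b ⟨v₀, E, hb⟩
  exact ⟨v₀, E, fun v hv s hs => h (hb v hv s hs)⟩

theorem gen_inter {α : Type} {R S : Set (Option α → Pt)} {b : α → Pt} (hR : b ∈ gen R)
    (hS : b ∈ gen S) : b ∈ gen (R ∩ S) := by
  classical
  obtain ⟨v₀, E, hb⟩ := hR
  obtain ⟨v₁, E', hb'⟩ := hS
  refine ⟨max v₀ v₁, E ∪ E', fun v hv s hs => ?_⟩
  rw [Finset.mem_union, not_or] at hs
  exact ⟨hb v (lt_of_le_of_lt (le_max_left _ _) hv) s hs.1,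
    hb' v (lt_of_le_of_lt (le_max_right _ _) hv) s hs.2⟩

theorem gen_ex {α : Type} {R : Set (Option α → Pt)} {b : α → Pt} (hR : b ∈ gen R) :
    ∃ y, ext b y ∈ R := by
  obtain ⟨v₀, E, hb⟩ := hR
  obtain ⟨s, hs⟩ := Infinite.exists_notMem_finset E
  exact ⟨_, hb (v₀ + 1) (by linarith) s hs⟩

/-! ### The coding of the generic point -/

/-- The levels of the extended normal form. -/
def xv {α : Type} {K N : ℕ} (x : Pi α K N → ℚ) (v : ℚ) : Pi (Option α) K N → ℚ
  | Sum.inl none => v
  | Sum.inl (some i) => x (Sum.inl i)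
  | Sum.inr (k, l) => x (Sum.inr (k, l))

/-- The coefficient indices of the extended normal form; the coefficients of the canonical point
are `s` and zeros. -/
def τg {α : Type} {K N : ℕ} : Qi (Option α) K N → Option (Option (Qi α K N))
  | Sum.inl none => none
  | Sum.inl (some i) => some (some (Sum.inl i))
  | Sum.inr (_, none, _, _) => some none
  | Sum.inr (b, some i, k, l) => some (some (Sum.inr (b, i, k, l)))

theorem ext_real_cp {α : Type} (K N : ℕ) (t : α → ℕ) (x : Pi α K N → ℚ) (c : Qi α K N → ℂ)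
    (v : ℚ) (s : ℂ) : ext (real K N t x c) (cp v s) =
      real K N (ext t 0) (xv x v) (ext (ext c 0) s ∘ τg) := by
  funext o
  cases o with
  | some i => rfl
  | none =>
    apply Pt.ext
    · rfl
    · rfl
    · funext k
      rcases lt_trichotomy k K with hk | hk | hk
      · have e1 := real_h_lt K N (ext t 0) (xv x v) (ext (ext c 0) s ∘ τg) none ⟨k, hk⟩
        dsimp only at e1
        rw [e1]
        have : (fun l : Fin N => (ext (ext c 0) s ∘ τg)
            (Sum.inr (true, (none : Option α), (⟨k, hk⟩ : Fin K), l))) = fun _ => (0 : ℂ) := by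
          funext l; rfl
        rw [this]
        change (0 : V) = _
        unfold vec
        simp
      · subst hk
        rw [real_h_K]
        change (0 : V) = _
        simp
      · rw [real_h_gt _ _ _ _ _ _ _ hk]
        rfl
    · funext k
      rcases lt_or_ge k K with hk | hk
      · have e1 := real_m_lt K N (ext t 0) (xv x v) (ext (ext c 0) s ∘ τg) none ⟨k, hk⟩
        dsimp only at e1
        rw [e1]
        have : (fun l : Fin N => (ext (ext c 0) s ∘ τg)
            (Sum.inr (false, (none : Option α), (⟨k, hk⟩ : Fin K), l))) = fun _ => (0 : ℂ) := by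
          funext l; rfl
        rw [this]
        change (0 : V) = _
        unfold vec
        simp
      · rw [real_m_ge _ _ _ _ _ _ _ hk]
        rfl

theorem act_cp (M : ℕ → Mv) (v : ℚ) (s : ℂ) : act M (cp v s) = cp v s := by
  apply Pt.ext
  · rfl
  · rfl
  · funext k
    change tr v ((M k).A 0) = 0
    rw [map_zero]
    ext i
    simp
  · funext k
    change (M k).B 0 = 0
    rw [map_zero]

/-- A level above all the points of a tuple. -/
theorem exists_above {α : Type} [Finite α] (f : α → ℚ) : ∃ v₀ : ℚ, ∀ i, f i ≤ v₀ := by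
  have := Fintype.ofFinite α
  obtain ⟨v₀, hv₀⟩ := (Set.finite_range f).bddAbove
  exact ⟨v₀, fun i => hv₀ ⟨i, rfl⟩⟩

theorem ne_cp {b : Pt} {v : ℚ} {s : ℂ} (h : b.v < v) : b ≠ cp v s := by
  rintro rfl
  exact lt_irrefl _ h

/-- Above all levels of the tuples the generic points cannot distinguish equivalent tuples. -/
theorem ext_cp_of_eqv {α : Type} {K : ℕ} {R : Set (Option α → Pt)} (hR : Inv K R)
    {b b' : α → Pt} (he : ∀ i, Eqv K (b i) (b' i)) (hp : SamePat b b') {v : ℚ} {s : ℂ}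
    (hv : ∀ i, (b i).v < v) (h : ext b (cp v s) ∈ R) : ext b' (cp v s) ∈ R := by
  refine hR.fib _ _ ?_ (samePat_ext hp fun i => ?_) h
  · intro o
    cases o with
    | none => exact Eqv.refl _ _
    | some i => exact he i
  · constructor
    · intro h1; exact absurd h1 (ne_cp (hv i))
    · intro h1
      refine absurd h1 (ne_cp ?_)
      rw [← (he i).1]
      exact hv i

/-- Reduction to normal forms. -/
theorem ext_cp_normal {α : Type} [Finite α] {K N : ℕ} {R : Set (Option α → Pt)} (hR : Inv K R)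
    (b : α → Pt) (M : ℕ → Mv) (t : α → ℕ) (x : Pi α K N → ℚ) (c : Qi α K N → ℂ)
    (hE : ∀ i, Eqv K (act M (b i)) (real K N t x c i)) (hP : SamePat b (real K N t x c))
    {v : ℚ} {s : ℂ} (hv : ∀ i, (b i).v < v) :
    ext b (cp v s) ∈ R ↔ ext (real K N t x c) (cp v s) ∈ R := by
  have hP' : SamePat (fun i => act M (b i)) (real K N t x c) := fun i j =>
    ⟨fun h => (hP i j).mp (act_injective M h), fun h => congrArg (act M) ((hP i j).mpr h)⟩
  rw [hR.act M, ext_act, act_cp]
  constructor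
  · exact ext_cp_of_eqv hR hE hP' hv
  · refine ext_cp_of_eqv hR (fun i => (hE i).symm) hP'.symm fun i => ?_
    rw [← (hE i).1]
    exact hv i

/-- The order automorphism moving one level above the others to another one. -/
theorem exists_move_level {P : Type} [Finite P] (x : P → ℚ) (v v' : ℚ) (hv : ∀ p, x p < v)
    (hv' : ∀ p, x p < v') : ∃ Φ : ℚ ≃o ℚ, (∀ p, Φ (x p) = x p) ∧ Φ v = v' := by
  obtain ⟨Φ, hΦ⟩ := exists_orderIso (ext x v) (ext x v') (by
    intro i j
    cases i <;> cases j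
    · simp
    · simp only [ext_none, ext_some]
      exact ⟨fun h => absurd h (not_lt.mpr (hv _).le), fun h => absurd h (not_lt.mpr (hv' _).le)⟩
    · simp only [ext_none, ext_some]
      exact ⟨fun _ => hv' _, fun _ => hv _⟩
    · simp)
  exact ⟨Φ, fun p => hΦ (some p), hΦ none⟩

theorem xv_comp {α : Type} {K N : ℕ} (x : Pi α K N → ℚ) (v : ℚ) (Φ : ℚ ≃o ℚ) :
    Φ ∘ xv x v = xv (Φ ∘ x) (Φ v) := by
  funext p
  rcases p with (_ | i) | ⟨k, l⟩ <;> rfl

theorem dd_move_level {α : Type} [Finite α] {K N : ℕ}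
    {D : Set ((Pi (Option α) K N → ℚ) × (Qi (Option α) K N → ℂ))} (hD : Dd D)
    (x : Pi α K N → ℚ) (v v' : ℚ) (hv : ∀ p, x p < v) (hv' : ∀ p, x p < v')
    (c : Qi (Option α) K N → ℂ) (h : (xv x v, c) ∈ D) : (xv x v', c) ∈ D := by
  obtain ⟨Φ, h1, h2⟩ := exists_move_level x v v' hv hv'
  have := hD.inv Φ _ _ h
  rw [xv_comp, h2] at this
  have h3 : Φ ∘ x = x := funext h1
  rwa [h3] at this

theorem gen_or {α : Type} [Finite α] {R : Set (Option α → Pt)} (hR : Good R) (b : α → Pt) :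
    b ∈ gen R ∨ b ∈ gen Rᶜ := by
  obtain ⟨K, hK⟩ := hR
  obtain ⟨M, t, x, c, -, hE, hP⟩ := normal_tuple K b
  obtain ⟨v₀, hv₀⟩ := exists_above (fun i => (b i).v)
  obtain ⟨v₁, hv₁⟩ := exists_above x
  set w : ℚ := max v₀ v₁ with hw
  have hD := hK.dd (2 * Nat.card α) (ext t 0)
  have hC : Cst {d : Option (Option (Qi α K (2 * Nat.card α))) → ℂ |
      d ∘ τg ∈ {c' | (xv x (w + 1), c') ∈
        {z : (Pi (Option α) K (2 * Nat.card α) → ℚ) × (Qi (Option α) K (2 * Nat.card α) → ℂ) |
          real K (2 * Nat.card α) (ext t 0) z.1 z.2 ∈ R}}} :=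
    Cst.preimage (hD.cst (xv x (w + 1))) τg
  obtain ⟨B, hB⟩ := Cst.uniform hC
  have hx : ∀ p, x p < w + 1 := fun p => by
    have h1 := hv₁ p
    have h2 := le_max_right v₀ v₁
    linarith
  have hb : ∀ v, w < v → ∀ i, (b i).v < v := fun v hv i =>
    lt_of_le_of_lt ((hv₀ i).trans (le_max_left v₀ v₁)) hv
  have hx' : ∀ v, w < v → ∀ p, x p < v := fun v hv p =>
    lt_of_le_of_lt ((hv₁ p).trans (le_max_right v₀ v₁)) hv
  have key : ∀ v, w < v → ∀ s : ℂ, ext b (cp v s) ∈ R ↔
      ext (ext c 0) s ∈ {d : Option (Option (Qi α K (2 * Nat.card α))) → ℂ |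
      d ∘ τg ∈ {c' | (xv x (w + 1), c') ∈
        {z : (Pi (Option α) K (2 * Nat.card α) → ℚ) × (Qi (Option α) K (2 * Nat.card α) → ℂ) |
          real K (2 * Nat.card α) (ext t 0) z.1 z.2 ∈ R}}} := by
    intro v hv s
    rw [ext_cp_normal hK.inv b M t x c hE hP (hb v hv), ext_real_cp]
    constructor
    · intro h
      exact dd_move_level hD x v (w + 1) (hx' v hv) hx _ h
    · intro h
      exact dd_move_level hD x (w + 1) v hx (hx' v hv) _ h
  rcases hB (ext c 0) with ⟨E, -, hE'⟩ | ⟨E, -, hE'⟩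
  · right
    refine ⟨w, E, fun v hv s hs => ?_⟩
    rw [Set.mem_compl_iff, key v hv s]
    exact hE' s hs
  · left
    refine ⟨w, E, fun v hv s hs => ?_⟩
    rw [key v hv s]
    exact hE' s hs

/-! ### The set `gen R` is good -/

theorem Cst.mem_congr {Q : Type} {C D : Set (Q → ℂ)} (h : ∀ c, c ∈ C ↔ c ∈ D) (hC : Cst C) :
    Cst D := by
  rwa [← Set.ext h]

theorem Cst.ne {Q : Type} (p q : Q) : Cst {c : Q → ℂ | c p ≠ c q} := by
  have := Cst.compl _ (Cst.zero (X p - X q : MvPolynomial Q ℂ))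
  refine Cst.mem_congr (fun c => ?_) this
  simp only [Set.mem_compl_iff, Set.mem_ofPred_eq, map_sub, eval_X, sub_eq_zero]

/-- Substitution of zero. -/
theorem Cst.subst_zero {Q : Type} [Finite Q] {C : Set (Option Q → ℂ)} (hC : Cst C) :
    Cst {c : Q → ℂ | ext c 0 ∈ C} := by
  have h0 := (Cst.inter _ _ hC (Cst.zero (X none : MvPolynomial (Option Q) ℂ))).image some
  refine Cst.mem_congr (fun c => ?_) h0
  simp only [Set.mem_inter_iff, Set.mem_ofPred_eq, eval_X]
  constructor
  · rintro ⟨d, ⟨hd, hd0⟩, rfl⟩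
    have : ext (d ∘ some) 0 = d := by
      funext o
      cases o with
      | none => exact hd0.symm
      | some q => rfl
    rw [this]
    exact hd
  · intro hc
    exact ⟨ext c 0, ⟨hc, rfl⟩, rfl⟩

/-- The quantifier `for all but finitely many s`. -/
theorem Cst.cofinite {Q : Type} [Finite Q] {C : Set (Option Q → ℂ)} (hC : Cst C) :
    Cst {c : Q → ℂ | ∃ E : Finset ℂ, ∀ s ∉ E, ext c s ∈ C} := by
  classical
  obtain ⟨B, hB⟩ := Cst.uniform hC
  let τ : Fin (B + 1) → Option Q → Q ⊕ Fin (B + 1) := fun i o =>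
    Option.elim o (Sum.inr i) Sum.inl
  have h1 : Cst {d : Q ⊕ Fin (B + 1) → ℂ | ∀ i : Fin (B + 1), d ∘ τ i ∈ C} := by
    have := Cst.iInter2 (C := fun i : Fin (B + 1) => {d : Q ⊕ Fin (B + 1) → ℂ | d ∘ τ i ∈ C})
      (fun i => Cst.preimage hC (τ i))
    refine Cst.mem_congr (fun d => ?_) this
    simp
  have h2 : Cst {d : Q ⊕ Fin (B + 1) → ℂ | ∀ p : {p : Fin (B + 1) × Fin (B + 1) // p.1 ≠ p.2},
      d (Sum.inr p.1.1) ≠ d (Sum.inr p.1.2)} := by
    have := Cst.iInter2 (C := fun p : {p : Fin (B + 1) × Fin (B + 1) // p.1 ≠ p.2} =>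
      {d : Q ⊕ Fin (B + 1) → ℂ | d (Sum.inr p.1.1) ≠ d (Sum.inr p.1.2)})
      (fun p => Cst.ne _ _)
    refine Cst.mem_congr (fun d => ?_) this
    simp
  have h3 := (Cst.inter _ _ h1 h2).image (Sum.inl : Q → Q ⊕ Fin (B + 1))
  refine Cst.mem_congr (fun c => ?_) h3
  simp only [Set.mem_inter_iff, Set.mem_ofPred_eq]
  constructor
  · rintro ⟨d, ⟨hd1, hd2⟩, rfl⟩
    have hext : ∀ i, (fun o => Option.elim o (d (Sum.inr i)) (d ∘ Sum.inl)) = d ∘ τ i := by
      intro i
      funext o
      cases o <;> rfl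
    rcases hB (d ∘ Sum.inl) with ⟨E, hE, hE'⟩ | ⟨E, -, hE'⟩
    · exfalso
      have hmem : ∀ i : Fin (B + 1), d (Sum.inr i) ∈ E := by
        intro i
        by_contra hi
        have := hE' _ hi
        rw [hext i] at this
        exact this (hd1 i)
      have hinj : Function.Injective fun i : Fin (B + 1) => d (Sum.inr i) := by
        intro i j hij
        by_contra hne
        exact hd2 ⟨(i, j), hne⟩ hij
      have hcard : Fintype.card (Fin (B + 1)) ≤ E.card := by
        rw [← Finset.card_univ]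
        exact Finset.card_le_card_of_injOn _ (fun i _ => hmem i) (hinj.injOn)
      rw [Fintype.card_fin] at hcard
      omega
    · exact ⟨E, hE'⟩
  · rintro ⟨E, hE⟩
    obtain ⟨F, hF⟩ := Set.Infinite.exists_subset_card_eq
      (Set.Finite.infinite_compl E.finite_toSet) (B + 1)
    let e : Fin (B + 1) ≃ F := (Fintype.equivFinOfCardEq (by simpa using hF.2)).symm
    refine ⟨Sum.elim c (fun i => (e i : ℂ)), ⟨fun i => ?_, fun p => ?_⟩, rfl⟩
    · have h4 : (e i : ℂ) ∉ E := by
        have := hF.1 (e i).2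
        simpa using this
      have h5 := hE _ h4
      have h6 : (Sum.elim c (fun i => (e i : ℂ))) ∘ τ i = ext c (e i : ℂ) := by
        funext o
        cases o <;> rfl
      rw [h6]
      exact h5
    · simp only [Sum.elim_inr]
      intro h7
      exact p.2 (e.injective (Subtype.ext h7))

/-- The level of the polynomials. -/
theorem pol_bound (H : ℕ → ℕ → V) (K : ℕ) : ∃ v₀ : ℚ, ∀ k < K, ∀ (s : ℂ) (i : ℚ × ℕ),
    v₀ < i.1 → pol H k s i = 0 := by
  classical
  let S : Finset (ℚ × ℕ) := (Finset.range K).biUnion fun k =>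
    (Finset.range (k + 1)).biUnion fun j => (H k j).support
  obtain ⟨v₀, hv₀⟩ := (S.image Prod.fst).finite_toSet.bddAbove
  refine ⟨v₀, fun k hk s i hi => ?_⟩
  unfold pol
  rw [Finsupp.finsetSum_apply]
  refine Finset.sum_eq_zero fun j hj => ?_
  have : H k j i = 0 := by
    by_contra hne
    have h1 : i ∈ S := by
      simp only [S, Finset.mem_biUnion]
      exact ⟨k, Finset.mem_range.mpr hk, j, hj, by simpa using hne⟩
    have h2 : i.1 ≤ v₀ := hv₀ (by
      simp only [Finset.coe_image, Set.mem_image, Finset.mem_coe]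
      exact ⟨i, h1, rfl⟩)
    linarith
  simp [this]

theorem hact_cp (H : ℕ → ℕ → V) (K : ℕ) : ∃ v₀ : ℚ, ∀ v : ℚ, v₀ < v → ∀ s : ℂ,
    Eqv K (hact H (cp v s)) (cp v s) := by
  obtain ⟨v₀, hv₀⟩ := pol_bound H K
  refine ⟨v₀, fun v hv s => ⟨rfl, rfl, fun k hk => ⟨?_, rfl⟩⟩⟩
  change (0 : V) + tr v (pol H k s) = 0
  rw [zero_add]
  apply tr_of_low
  intro i hi
  exact hv₀ k hk s i (lt_of_lt_of_le hv hi)

theorem gen_hact {α : Type} [Finite α] {K : ℕ} {R : Set (Option α → Pt)} (hR : Inv K R)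
    (H : ℕ → ℕ → V) (b : α → Pt) (h : b ∈ gen R) : (fun i => hact H (b i)) ∈ gen R := by
  obtain ⟨v₀, E, hb⟩ := h
  obtain ⟨v₁, hv₁⟩ := hact_cp H K
  obtain ⟨v₂, hv₂⟩ := exists_above (fun i => (b i).v)
  refine ⟨max v₀ (max v₁ v₂), E, fun v hv s hs => ?_⟩
  have h0 : v₀ < v := lt_of_le_of_lt (le_max_left _ _) hv
  have h1 : v₁ < v := lt_of_le_of_lt ((le_max_left _ _).trans (le_max_right _ _)) hv
  have h2 : ∀ i, (b i).v < v := fun i =>
    lt_of_le_of_lt ((hv₂ i).trans ((le_max_right _ _).trans (le_max_right _ _))) hv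
  have h3 := (hR.hact H _).mp (hb v h0 s hs)
  rw [ext_hact] at h3
  refine hR.fib _ _ ?_ (samePat_ext (fun i j => Iff.rfl) fun i => ?_) h3
  · intro o
    cases o with
    | none => exact hv₁ v h1 s
    | some i => exact Eqv.refl _ _
  · constructor
    · intro h4
      have h5 : (b i).v = v := congrArg Pt.v h4
      exact absurd h5 (h2 i).ne
    · intro h4
      have h5 : (b i).v = v := congrArg Pt.v h4
      exact absurd h5 (h2 i).ne

theorem gen_inv {α : Type} [Finite α] {K : ℕ} {R : Set (Option α → Pt)} (hR : Inv K R) :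
    Inv K (gen R) := by
  refine ⟨fun M b => ?_, fun H b => ⟨gen_hact hR H b, fun h => ?_⟩, fun b b' he hp => ?_⟩
  · have : ∀ v s, ext b (cp v s) ∈ R ↔ ext (fun i => act M (b i)) (cp v s) ∈ R := by
      intro v s
      rw [hR.act M, ext_act, act_cp]
    constructor
    · rintro ⟨v₀, E, hb⟩
      exact ⟨v₀, E, fun v hv s hs => (this v s).mp (hb v hv s hs)⟩
    · rintro ⟨v₀, E, hb⟩
      exact ⟨v₀, E, fun v hv s hs => (this v s).mpr (hb v hv s hs)⟩
  · have h1 := gen_hact hR (-H) _ h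
    simp only [hact_neg] at h1
    exact h1
  · rintro ⟨v₀, E, hb⟩
    obtain ⟨v₂, hv₂⟩ := exists_above (fun i => (b i).v)
    refine ⟨max v₀ v₂, E, fun v hv s hs => ?_⟩
    exact ext_cp_of_eqv hR he hp (fun i => lt_of_le_of_lt ((hv₂ i).trans (le_max_right _ _)) hv)
      (hb v (lt_of_le_of_lt (le_max_left _ _) hv) s hs)

theorem gen_real_iff {α : Type} [Finite α] {K N : ℕ} {R : Set (Option α → Pt)} (t : α → ℕ)
    (x : Pi α K N → ℚ) (c : Qi α K N → ℂ) : real K N t x c ∈ gen R ↔
      ∃ v₀ : ℚ, ∃ E : Finset ℂ, ∀ v : ℚ, v₀ < v → ∀ s : ℂ, s ∉ E →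
        (xv x v, ext (ext c 0) s ∘ τg) ∈
          {z : (Pi (Option α) K N → ℚ) × (Qi (Option α) K N → ℂ) |
            real K N (ext t 0) z.1 z.2 ∈ R} := by
  constructor
  · rintro ⟨v₀, E, h⟩
    refine ⟨v₀, E, fun v hv s hs => ?_⟩
    have := h v hv s hs
    rw [ext_real_cp] at this
    exact this
  · rintro ⟨v₀, E, h⟩
    refine ⟨v₀, E, fun v hv s hs => ?_⟩
    rw [ext_real_cp]
    exact h v hv s hs

theorem gen_goodAt {α : Type} [Finite α] {K : ℕ} {R : Set (Option α → Pt)} (hK : GoodAt K R) :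
    GoodAt K (gen R) := by
  refine ⟨gen_inv hK.inv, fun N t => ⟨?_, ?_⟩⟩
  · intro Φ x c h
    simp only [Set.mem_ofPred_eq] at h ⊢
    rw [gen_real_iff] at h ⊢
    obtain ⟨v₀, E, h⟩ := h
    refine ⟨Φ v₀, E, fun v hv s hs => ?_⟩
    have h1 := (hK.dd N (ext t 0)).inv Φ _ _ (h (Φ.symm v) (by
      rw [← Φ.lt_iff_lt]; simpa using hv) s hs)
    rw [xv_comp, OrderIso.apply_symm_apply] at h1
    exact h1
  · intro x
    obtain ⟨w, hw⟩ := exists_above x
    have hx : ∀ p, x p < w + 1 := fun p => by linarith [hw p]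
    have hC : Cst {d : Option (Option (Qi α K N)) → ℂ |
        d ∘ τg ∈ {c' | (xv x (w + 1), c') ∈
          {z : (Pi (Option α) K N → ℚ) × (Qi (Option α) K N → ℂ) |
            real K N (ext t 0) z.1 z.2 ∈ R}}} :=
      Cst.preimage ((hK.dd N (ext t 0)).cst (xv x (w + 1))) τg
    have h2 := Cst.subst_zero (Cst.cofinite hC)
    refine Cst.mem_congr (fun c => ?_) h2
    simp only [Set.mem_ofPred_eq]
    rw [gen_real_iff]
    constructor
    · rintro ⟨E, hE⟩
      refine ⟨w, E, fun v hv s hs => ?_⟩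
      exact dd_move_level (hK.dd N (ext t 0)) x (w + 1) v hx
        (fun p => lt_of_le_of_lt (hw p) hv) _ (hE s hs)
    · rintro ⟨v₀, E, hE⟩
      refine ⟨E, fun s hs => ?_⟩
      exact dd_move_level (hK.dd N (ext t 0)) x (max v₀ w + 1) (w + 1)
        (fun p => lt_of_le_of_lt ((hw p).trans (le_max_right v₀ w)) (lt_add_one _)) hx _
        (hE (max v₀ w + 1) (lt_of_le_of_lt (le_max_left _ _) (lt_add_one _)) s hs)

theorem gen_good {α : Type} [Finite α] {R : Set (Option α → Pt)} (hR : Good R) :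
    Good (gen R) := by
  obtain ⟨K, hK⟩ := hR
  exact ⟨K, gen_goodAt hK⟩

end Pool.Agent.H13.NipSeq
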