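import Mathlib
import Pool.Agent.H13.NipSeq.Gen

/-!
The section through `K` points, and the wild relations `psi k`.
-/

set_option autoImplicit false

namespace Pool.Agent.H13.NipSeq

/-- `z none` lies on the section through the points `z (some i)`, `i < K`: for every `k < K` the
vectors `h k` of all these points are the values of one polynomial of degree `≤ k`, and the
functionals `m k` vanish. -/
def Sec (K : ℕ) : Set (Option (Fin K) → Pt) :=
  {z | (∀ i j : Fin K, i ≠ j → (z (some i)).s ≠ (z (some j)).s) ∧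
    (∀ i : Fin K, (z (some i)).v < (z none).v) ∧
    ∃ H : ℕ → ℕ → V, ∀ o, ∀ k < K,
      (z o).h k = tr (z o).v (pol H k (z o).s) ∧ (z o).m k = 0}

/-- The wild relations. The variable `x` is `z none`, the parameters are `z (some 0)` (a point
`x'` of the same level and direction) and `z (some 1)` (a point `b` with the functional). -/
def psi (k : ℕ) : Set (Option (Fin 2) → Pt) :=
  {z | (z none).v = (z (some 0)).v ∧ (z none).s = (z (some 0)).s ∧
    (z none).v ≤ (z (some 1)).v ∧
    dot ((z (some 1)).m k) ((z none).h k - (z (some 0)).h k) ≠ 0}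

/-- Evaluation of the vectors in normal form. -/
theorem vec_apply {N : ℕ} (v : ℚ) (γ : Fin N → ℚ) (c : Fin N → ℂ) (i : ℚ × ℕ) :
    vec v γ c i = ∑ l : Fin N, if v ≤ γ l ∧ i = (γ l, (l : ℕ)) then c l else 0 := by
  unfold vec
  rw [Finsupp.finsetSum_apply]
  apply Finset.sum_congr rfl
  intro l _
  by_cases h1 : v ≤ γ l
  · rw [if_pos h1, Finsupp.single_apply]
    by_cases h2 : i = (γ l, (l : ℕ))
    · rw [if_pos h2.symm, if_pos ⟨h1, h2⟩]
    · rw [if_neg (fun h => h2 h.symm), if_neg (fun h => h2 h.2)]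
  · rw [if_neg h1, if_neg (fun h => h1 h.1)]
    rfl

private theorem vec_apply_self {N : ℕ} (v : ℚ) (γ : Fin N → ℚ) (c : Fin N → ℂ) (l : Fin N) :
    vec v γ c (γ l, (l : ℕ)) = if v ≤ γ l then c l else 0 := by
  rw [vec_apply, Finset.sum_eq_single l]
  · simp
  · intro l' _ hl'
    rw [if_neg]
    rintro ⟨-, h⟩
    apply hl'
    apply Fin.ext
    exact (Prod.mk.inj h).2.symm
  · intro h
    exact absurd (Finset.mem_univ l) h

/-! ### constructible sets -/

private theorem secCst_univ {Q : Type} : Cst (Set.univ : Set (Q → ℂ)) := by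
  have h := Cst.zero (Q := Q) 0
  have e : {c : Q → ℂ | MvPolynomial.eval c (0 : MvPolynomial Q ℂ) = 0} = Set.univ := by
    ext c
    simp
  rwa [e] at h

private theorem secCst_imp {Q : Type} {p : Prop} {P : (Q → ℂ) → Prop} (h : p → Cst {c | P c}) :
    Cst {c | p → P c} := by
  by_cases hp : p
  · have e : {c : Q → ℂ | p → P c} = {c | P c} := by
      ext c
      exact ⟨fun h => h hp, fun h _ => h⟩
    rw [e]
    exact h hp
  · have e : {c : Q → ℂ | p → P c} = Set.univ := by
      ext c
      exact ⟨fun _ => trivial, fun _ h => absurd h hp⟩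
    rw [e]
    exact secCst_univ

private theorem secCst_prop {Q : Type} (p : Prop) : Cst {_c : Q → ℂ | p} := by
  by_cases hp : p
  · have e : {_c : Q → ℂ | p} = Set.univ := by
      ext c
      exact ⟨fun _ => trivial, fun _ => hp⟩
    rw [e]
    exact secCst_univ
  · have e : {_c : Q → ℂ | p} = (Set.univ)ᶜ := by
      ext c
      exact ⟨fun h => absurd h hp, fun h => absurd trivial h⟩
    rw [e]
    exact Cst.compl _ secCst_univ

private theorem secCst_and {Q : Type} {P P' : (Q → ℂ) → Prop} (h : Cst {c | P c})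
    (h' : Cst {c | P' c}) : Cst {c | P c ∧ P' c} := Cst.inter _ _ h h'

private theorem secCst_not {Q : Type} {P : (Q → ℂ) → Prop} (h : Cst {c | P c}) :
    Cst {c | ¬ P c} := Cst.compl _ h

private theorem secCst_forall {Q ι : Type} [Finite ι] {P : ι → (Q → ℂ) → Prop}
    (h : ∀ i, Cst {c | P i c}) : Cst {c | ∀ i, P i c} := by
  cases nonempty_fintype ι
  have key : ∀ s : Finset ι, Cst {c | ∀ i ∈ s, P i c} := by
    intro s
    classical
    induction s using Finset.induction_on with
    | empty =>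
      have e : {c : Q → ℂ | ∀ i ∈ (∅ : Finset ι), P i c} = Set.univ := by
        ext c
        exact ⟨fun _ => trivial, fun _ i hi => absurd hi (Finset.notMem_empty i)⟩
      rw [e]
      exact secCst_univ
    | insert a s ha ih =>
      have e : {c : Q → ℂ | ∀ i ∈ insert a s, P i c} = {c | P a c ∧ ∀ i ∈ s, P i c} := by
        ext c
        exact Finset.forall_mem_insert _ _ _
      rw [e]
      exact secCst_and (h a) ih
  have h2 := key Finset.univ
  have e : {c : Q → ℂ | ∀ i ∈ (Finset.univ : Finset ι), P i c} = {c | ∀ i, P i c} := by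
    ext c
    exact ⟨fun h i => h i (Finset.mem_univ i), fun h i _ => h i⟩
  rwa [e] at h2

private theorem secCst_eq {Q : Type} (f g : MvPolynomial Q ℂ) :
    Cst {c : Q → ℂ | MvPolynomial.eval c f = MvPolynomial.eval c g} := by
  have h := Cst.zero (f - g)
  have e : {c : Q → ℂ | MvPolynomial.eval c (f - g) = 0} =
      {c | MvPolynomial.eval c f = MvPolynomial.eval c g} := by
    ext c
    simp only [Set.mem_ofPred_eq, map_sub, sub_eq_zero]
  rwa [e] at h

private theorem secCst_coord {Q : Type} (a b : Q) : Cst {c : Q → ℂ | c a = c b} := by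
  have h := secCst_eq (MvPolynomial.X a) (MvPolynomial.X b : MvPolynomial Q ℂ)
  simpa only [MvPolynomial.eval_X] using h

/-! ### truncations and automorphisms -/

private theorem tr_tr (v : ℚ) (h : V) : tr v (tr v h) = tr v h := by
  ext i
  simp only [tr_apply]
  split_ifs <;> rfl

private theorem tr_eq_self {v : ℚ} {h : V} (hh : ∀ i : ℚ × ℕ, i.1 < v → h i = 0) : tr v h = h := by
  ext i
  rw [tr_apply]
  split_ifs with hi
  · rfl
  · exact (hh i (not_le.1 hi)).symm

private theorem tr_sub (v : ℚ) (h g : V) : tr v (h - g) = tr v h - tr v g := by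
  ext i
  simp only [tr_apply, Finsupp.sub_apply]
  split_ifs <;> simp

private theorem tr_map_tr (M : Mv) (v : ℚ) (h : V) : tr v (M.A (tr v h)) = tr v (M.A h) := by
  have h1 : M.A h = M.A (tr v h) + M.A (h - tr v h) := by
    rw [← map_add]
    congr 1
    abel
  have h2 : tr v (M.A (h - tr v h)) = 0 := by
    ext i
    rw [tr_apply]
    split_ifs with hi
    · refine M.lowA v _ ?_ i hi
      intro j hj
      rw [Finsupp.sub_apply, tr_apply, if_pos hj, sub_self]
    · rfl
  rw [h1, tr_add, h2, add_zero]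

private theorem act_inv_act (M : ℕ → Mv) (x : Pt) :
    act (fun k => (M k).inv) (act M x) = x := by
  apply Pt.ext
  · rfl
  · rfl
  · funext k
    show tr x.v ((M k).inv.A (tr x.v ((M k).A (x.h k)))) = x.h k
    rw [tr_map_tr]
    show tr x.v ((M k).A.symm ((M k).A (x.h k))) = x.h k
    rw [LinearEquiv.symm_apply_apply, tr_eq_self (x.hh k)]
  · funext k
    show (M k).B.symm ((M k).B (x.m k)) = x.m k
    rw [LinearEquiv.symm_apply_apply]

private theorem map_pol (A : V ≃ₗ[ℂ] V) (H : ℕ → ℕ → V) (k : ℕ) (s : ℂ) :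
    A (pol H k s) = pol (fun k j => A (H k j)) k s := by
  unfold pol
  rw [map_sum]
  apply Finset.sum_congr rfl
  intro j _
  rw [map_smul]

private theorem pol_congr {H H' : ℕ → ℕ → V} {k : ℕ} (h : ∀ j, H k j = H' k j) (s : ℂ) :
    pol H k s = pol H' k s := by
  unfold pol
  apply Finset.sum_congr rfl
  intro j _
  rw [h]

private theorem pol_add (H H' : ℕ → ℕ → V) (k : ℕ) (s : ℂ) :
    pol (fun k j => H k j + H' k j) k s = pol H k s + pol H' k s := by
  unfold pol
  rw [← Finset.sum_add_distrib]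
  apply Finset.sum_congr rfl
  intro j _
  rw [smul_add]

private theorem pol_sub (H H' : ℕ → ℕ → V) (k : ℕ) (s : ℂ) :
    pol (fun k j => H k j - H' k j) k s = pol H k s - pol H' k s := by
  unfold pol
  rw [← Finset.sum_sub_distrib]
  apply Finset.sum_congr rfl
  intro j _
  rw [smul_sub]

private theorem pol_apply (H : ℕ → ℕ → V) (k : ℕ) (s : ℂ) (i : ℚ × ℕ) :
    pol H k s i = ∑ j ∈ Finset.range (k + 1), s ^ j * H k j i := by
  unfold pol
  rw [Finsupp.finsetSum_apply]
  apply Finset.sum_congr rfl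
  intro j _
  rw [Finsupp.smul_apply, smul_eq_mul]

/-! ### the section -/

private theorem sec_act (K : ℕ) (M : ℕ → Mv) (x : Option (Fin K) → Pt) (h : x ∈ Sec K) :
    (fun i => act M (x i)) ∈ Sec K := by
  obtain ⟨h1, h2, H, hH⟩ := h
  refine ⟨h1, h2, fun k j => (M k).A (H k j), ?_⟩
  intro o k hk
  obtain ⟨h3, h4⟩ := hH o k hk
  constructor
  · show tr (x o).v ((M k).A ((x o).h k)) = tr (x o).v (pol (fun k j => (M k).A (H k j)) k (x o).s)
    rw [h3, tr_map_tr, map_pol, pol_congr (H' := fun k j => (M k).A (H k j)) (fun j => rfl)]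
  · show (M k).B ((x o).m k) = 0
    rw [h4, map_zero]

private theorem sec_inv (K : ℕ) : Inv K (Sec K) where
  act := by
    intro M x
    refine ⟨sec_act K M x, fun h => ?_⟩
    have h2 := sec_act K (fun k => (M k).inv) _ h
    simpa only [act_inv_act] using h2
  hact := by
    intro H' x
    constructor
    · rintro ⟨h1, h2, H, hH⟩
      refine ⟨h1, h2, fun k j => H k j + H' k j, ?_⟩
      intro o k hk
      obtain ⟨h3, h4⟩ := hH o k hk
      refine ⟨?_, h4⟩
      show (x o).h k + tr (x o).v (pol H' k (x o).s) = _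
      rw [pol_add, tr_add, h3]
      rfl
    · rintro ⟨h1, h2, H, hH⟩
      refine ⟨h1, h2, fun k j => H k j - H' k j, ?_⟩
      intro o k hk
      obtain ⟨h3, h4⟩ := hH o k hk
      refine ⟨?_, h4⟩
      have h3' : (x o).h k + tr (x o).v (pol H' k (x o).s) = tr (x o).v (pol H k (x o).s) := h3
      rw [pol_sub, tr_sub, ← h3']
      abel
  fib := by
    rintro x y hxy - ⟨h1, h2, H, hH⟩
    refine ⟨?_, ?_, H, ?_⟩
    · intro i j hij
      rw [← (hxy (some i)).2.1, ← (hxy (some j)).2.1]
      exact h1 i j hij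
    · intro i
      rw [← (hxy (some i)).1, ← (hxy none).1]
      exact h2 i
    · intro o k hk
      obtain ⟨e1, e2, e3⟩ := hxy o
      obtain ⟨h3, h4⟩ := hH o k hk
      rw [← e1, ← e2, ← (e3 k hk).1, ← (e3 k hk).2]
      exact ⟨h3, h4⟩

private theorem real_v' {α : Type} (K N : ℕ) (t : α → ℕ) (x : Pi α K N → ℚ) (c : Qi α K N → ℂ)
    (o : α) : (real K N t x c o).v = x (Sum.inl o) := rfl

private theorem real_s' {α : Type} (K N : ℕ) (t : α → ℕ) (x : Pi α K N → ℚ) (c : Qi α K N → ℂ)
    (o : α) : (real K N t x c o).s = c (Sum.inl o) := rfl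

private theorem real_h {α : Type} (K N : ℕ) (t : α → ℕ) (x : Pi α K N → ℚ) (c : Qi α K N → ℂ)
    (o : α) (k : Fin K) : (real K N t x c o).h k = vec (x (Sum.inl o))
      (fun l => x (Sum.inr (k, l))) (fun l => c (Sum.inr (true, o, k, l))) := by
  show (if hk : (k : ℕ) < K then _ else _) = _
  rw [dif_pos k.2]

private theorem real_m {α : Type} (K N : ℕ) (t : α → ℕ) (x : Pi α K N → ℚ) (c : Qi α K N → ℂ)
    (o : α) (k : Fin K) : (real K N t x c o).m k = vec (x (Sum.inl o))
      (fun l => x (Sum.inr (k, l))) (fun l => c (Sum.inr (false, o, k, l))) := by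
  show (if hk : (k : ℕ) < K then _ else _) = _
  rw [dif_pos k.2]

private theorem real_sec_iff {K N : ℕ} (t : Option (Fin K) → ℕ)
    (x : Pi (Option (Fin K)) K N → ℚ) (c : Qi (Option (Fin K)) K N → ℂ) :
    real K N t x c ∈ Sec K ↔
      (∀ i j : Fin K, i ≠ j → ¬ c (Sum.inl (some i)) = c (Sum.inl (some j))) ∧
      (∀ i : Fin K, x (Sum.inl (some i)) < x (Sum.inl none)) ∧
      (∀ (k : Fin K) (l : Fin N), ∃ d : Fin ((k : ℕ) + 1) → ℂ, ∀ o,
        x (Sum.inl o) ≤ x (Sum.inr (k, l)) →
          ∑ j : Fin ((k : ℕ) + 1), c (Sum.inl o) ^ (j : ℕ) * d j =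
            c (Sum.inr (true, o, k, l))) ∧
      (∀ (o : Option (Fin K)) (k : Fin K) (l : Fin N), x (Sum.inl o) ≤ x (Sum.inr (k, l)) →
        c (Sum.inr (false, o, k, l)) = 0) := by
  constructor
  · rintro ⟨h1, h2, H, hH⟩
    refine ⟨h1, h2, ?_, ?_⟩
    · intro k l
      refine ⟨fun j => H k j (x (Sum.inr (k, l)), (l : ℕ)), ?_⟩
      intro o ho
      have h3 := (hH o k k.2).1
      rw [real_h, real_v', real_s'] at h3
      have h4 := DFunLike.congr_fun h3 (x (Sum.inr (k, l)), (l : ℕ))
      rw [vec_apply_self (x (Sum.inl o)) (fun l => x (Sum.inr (k, l))), if_pos ho, tr_apply,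
        if_pos ho, pol_apply] at h4
      rw [h4, ← Fin.sum_univ_eq_sum_range
        (fun j => c (Sum.inl o) ^ j * H k j (x (Sum.inr (k, l)), (l : ℕ)))]
    · intro o k l ho
      have h3 := (hH o k k.2).2
      rw [real_m] at h3
      have h4 := DFunLike.congr_fun h3 (x (Sum.inr (k, l)), (l : ℕ))
      rw [vec_apply_self (x (Sum.inl o)) (fun l => x (Sum.inr (k, l))), if_pos ho] at h4
      exact h4
  · rintro ⟨h1, h2, h3, h4⟩
    choose d hd using h3
    refine ⟨h1, h2, fun k j => if hk : k < K then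
      ∑ l : Fin N, Finsupp.single (x (Sum.inr (⟨k, hk⟩, l)), (l : ℕ))
        (if hj : j < k + 1 then d ⟨k, hk⟩ l ⟨j, hj⟩ else 0) else 0, ?_⟩
    intro o k hk
    have e : ((⟨k, hk⟩ : Fin K) : ℕ) = k := rfl
    constructor
    · have h5 := real_h K N t x c o ⟨k, hk⟩
      rw [e] at h5
      rw [h5, real_v', real_s']
      ext i
      rw [vec_apply, tr_apply, pol_apply]
      have h6 : ∀ j ∈ Finset.range (k + 1), c (Sum.inl o) ^ j * ((if hk : k < K then
          ∑ l : Fin N, Finsupp.single (x (Sum.inr (⟨k, hk⟩, l)), (l : ℕ))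
          (if hj : j < k + 1 then d ⟨k, hk⟩ l ⟨j, hj⟩ else 0) else 0 : V) i) =
          ∑ l : Fin N, if i = (x (Sum.inr (⟨k, hk⟩, l)), (l : ℕ)) then
            c (Sum.inl o) ^ j * (if hj : j < k + 1 then d ⟨k, hk⟩ l ⟨j, hj⟩ else 0) else 0 := by
        intro j _
        rw [dif_pos hk, Finsupp.finsetSum_apply, Finset.mul_sum]
        apply Finset.sum_congr rfl
        intro l _
        rw [Finsupp.single_apply]
        by_cases hi : i = (x (Sum.inr (⟨k, hk⟩, l)), (l : ℕ))
        · rw [if_pos hi.symm, if_pos hi]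
        · rw [if_neg (fun h => hi h.symm), if_neg hi, mul_zero]
      rw [Finset.sum_congr rfl h6, Finset.sum_comm]
      split_ifs with hi
      · apply Finset.sum_congr rfl
        intro l _
        by_cases hil : i = (x (Sum.inr (⟨k, hk⟩, l)), (l : ℕ))
        · have hv : x (Sum.inl o) ≤ x (Sum.inr (⟨k, hk⟩, l)) := by
            rw [hil] at hi
            exact hi
          rw [if_pos ⟨hv, hil⟩]
          simp only [if_pos hil]
          rw [← hd ⟨k, hk⟩ l o hv, ← Fin.sum_univ_eq_sum_range (fun j => c (Sum.inl o) ^ j *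
            (if hj : j < k + 1 then d ⟨k, hk⟩ l ⟨j, hj⟩ else 0))]
          apply Finset.sum_congr rfl
          intro j _
          rw [dif_pos j.2]
        · rw [if_neg (fun h => hil h.2)]
          simp only [if_neg hil, Finset.sum_const_zero]
      · apply Finset.sum_eq_zero
        intro l _
        rw [if_neg]
        rintro ⟨h7, h8⟩
        apply hi
        rw [h8]
        exact h7
    · have h5 := real_m K N t x c o ⟨k, hk⟩
      rw [e] at h5
      rw [h5]
      ext i
      rw [vec_apply]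
      show _ = (0 : ℂ)
      apply Finset.sum_eq_zero
      intro l _
      split_ifs with hl
      · exact h4 o ⟨k, hk⟩ l hl.1
      · rfl

/-- Good at stage `K`. Invariance: replace `H k j` by `A (H k j)` resp. by `H k j + H' k j`.
Coding: for each `k < K`, `l < N` there are `c_j`, `j ≤ k`, with
`∑ c_j s^j = h_{k,l}` for all the points with level at most `γ_{k,l}`. -/
theorem sec_good (K : ℕ) : Good (Sec K) := by
  refine ⟨K, sec_inv K, ?_⟩
  intro N t
  constructor
  · intro Φ x c h
    have h' := (real_sec_iff t x c).1 h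
    apply (real_sec_iff t (Φ ∘ x) c).2
    simpa only [Function.comp_apply, OrderIso.lt_iff_lt, OrderIso.le_iff_le] using h'
  · intro x
    have e : {c | (x, c) ∈ {z : (Pi (Option (Fin K)) K N → ℚ) × (Qi (Option (Fin K)) K N → ℂ) |
        real K N t z.1 z.2 ∈ Sec K}} = {c : Qi (Option (Fin K)) K N → ℂ |
      (∀ i j : Fin K, i ≠ j → ¬ c (Sum.inl (some i)) = c (Sum.inl (some j))) ∧
      (∀ i : Fin K, x (Sum.inl (some i)) < x (Sum.inl none)) ∧
      (∀ (k : Fin K) (l : Fin N), ∃ d : Fin ((k : ℕ) + 1) → ℂ, ∀ o,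
        x (Sum.inl o) ≤ x (Sum.inr (k, l)) →
          ∑ j : Fin ((k : ℕ) + 1), c (Sum.inl o) ^ (j : ℕ) * d j =
            c (Sum.inr (true, o, k, l))) ∧
      (∀ (o : Option (Fin K)) (k : Fin K) (l : Fin N), x (Sum.inl o) ≤ x (Sum.inr (k, l)) →
        c (Sum.inr (false, o, k, l)) = 0)} := by
      ext c
      exact real_sec_iff t x c
    rw [e]
    refine secCst_and ?_ (secCst_and (secCst_prop _) (secCst_and ?_ ?_))
    · refine secCst_forall fun i => secCst_forall fun j => secCst_imp fun _ => ?_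
      exact secCst_not (secCst_coord _ _)
    · refine secCst_forall fun k => secCst_forall fun l => ?_
      have h1 : Cst {c : Qi (Option (Fin K)) K N ⊕ Fin ((k : ℕ) + 1) → ℂ | ∀ o,
          x (Sum.inl o) ≤ x (Sum.inr (k, l)) →
          ∑ j : Fin ((k : ℕ) + 1), c (Sum.inl (Sum.inl o)) ^ (j : ℕ) * c (Sum.inr j) =
            c (Sum.inl (Sum.inr (true, o, k, l)))} := by
        refine secCst_forall fun o => secCst_imp fun _ => ?_
        have h2 := secCst_eq (Q := Qi (Option (Fin K)) K N ⊕ Fin ((k : ℕ) + 1))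
          (∑ j : Fin ((k : ℕ) + 1), MvPolynomial.X (Sum.inl (Sum.inl o)) ^ (j : ℕ) *
            MvPolynomial.X (Sum.inr j))
          (MvPolynomial.X (Sum.inl (Sum.inr (true, o, k, l))))
        simpa only [map_sum, map_mul, map_pow, MvPolynomial.eval_X] using h2
      have h3 := Cst.image h1 (Sum.inl : Qi (Option (Fin K)) K N → _)
      have e2 : {c' : Qi (Option (Fin K)) K N → ℂ | ∃ c ∈
          {c : Qi (Option (Fin K)) K N ⊕ Fin ((k : ℕ) + 1) → ℂ | ∀ o,
          x (Sum.inl o) ≤ x (Sum.inr (k, l)) →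
          ∑ j : Fin ((k : ℕ) + 1), c (Sum.inl (Sum.inl o)) ^ (j : ℕ) * c (Sum.inr j) =
            c (Sum.inl (Sum.inr (true, o, k, l)))}, c' = c ∘ Sum.inl} =
          {c | ∃ d : Fin ((k : ℕ) + 1) → ℂ, ∀ o,
        x (Sum.inl o) ≤ x (Sum.inr (k, l)) →
          ∑ j : Fin ((k : ℕ) + 1), c (Sum.inl o) ^ (j : ℕ) * d j =
            c (Sum.inr (true, o, k, l))} := by
        ext c'
        constructor
        · rintro ⟨c, hc, rfl⟩
          exact ⟨fun j => c (Sum.inr j), hc⟩
        · rintro ⟨d, hd⟩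
          exact ⟨Sum.elim c' d, hd, rfl⟩
      rwa [e2] at h3
    · refine secCst_forall fun o => secCst_forall fun k => secCst_forall fun l =>
        secCst_imp fun _ => ?_
      have h2 := secCst_eq (MvPolynomial.X (Sum.inr (false, o, k, l)))
        (0 : MvPolynomial (Qi (Option (Fin K)) K N) ℂ)
      simpa only [MvPolynomial.eval_X, map_zero] using h2

/-- The canonical points of large level lie on the section through `cp 0 i`, `i < K`. -/
theorem sec_gen (K : ℕ) : (fun i : Fin K => cp 0 (i : ℕ)) ∈ gen (Sec K) := by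
  refine ⟨0, ∅, ?_⟩
  intro v hv s _
  refine ⟨?_, ?_, 0, ?_⟩
  · intro i j hij
    show ((i : ℕ) : ℂ) ≠ ((j : ℕ) : ℂ)
    intro h
    exact hij (Fin.ext (Nat.cast_injective h))
  · intro i
    exact hv
  · intro o k _
    have hp : ∀ s : ℂ, pol 0 k s = 0 := by
      intro s
      unfold pol
      apply Finset.sum_eq_zero
      intro j _
      show s ^ j • (0 : V) = 0
      rw [smul_zero]
    have ht : ∀ w : ℚ, tr w (0 : V) = 0 := by
      intro w
      ext i
      rw [tr_apply]
      simp
    rw [hp, ht]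
    cases o with
    | none => exact ⟨rfl, rfl⟩
    | some i => exact ⟨rfl, rfl⟩

/-! ### the wild relations -/

private theorem dot_sub_right (μ h g : V) : dot μ (h - g) = dot μ h - dot μ g := by
  have h1 := dot_add_right μ (h - g) g
  rw [sub_add_cancel] at h1
  rw [h1]
  ring

private theorem psi_dot (k : ℕ) (M : ℕ → Mv) (x y b : Pt) (hv : x.v = y.v) (hb : x.v ≤ b.v) :
    dot ((act M b).m k) ((act M x).h k - (act M y).h k) = dot (b.m k) (x.h k - y.h k) := by
  show dot ((M k).B (b.m k)) (tr x.v ((M k).A (x.h k)) - tr y.v ((M k).A (y.h k))) = _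
  rw [← hv, ← tr_sub, ← map_sub, dot_tr, (M k).dot_eq]
  intro i hi
  exact (M k).highB b.v (b.m k) (b.hm k) i (lt_of_lt_of_le hi hb)

private theorem psi_inv (k : ℕ) : Inv (k + 1) (psi k) where
  act := by
    intro M x
    constructor
    · rintro ⟨h1, h2, h3, h4⟩
      refine ⟨h1, h2, h3, ?_⟩
      show dot ((act M (x (some 1))).m k) ((act M (x none)).h k - (act M (x (some 0))).h k) ≠ 0
      rw [psi_dot k M _ _ _ h1 h3]
      exact h4
    · rintro ⟨h1, h2, h3, h4⟩
      refine ⟨h1, h2, h3, ?_⟩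
      have h4' : dot ((act M (x (some 1))).m k)
        ((act M (x none)).h k - (act M (x (some 0))).h k) ≠ 0 := h4
      rwa [psi_dot k M (x none) (x (some 0)) (x (some 1)) h1 h3] at h4'
  hact := by
    intro H x
    have key : (x none).v = (x (some 0)).v → (x none).s = (x (some 0)).s →
        (hact H (x none)).h k - (hact H (x (some 0))).h k = (x none).h k - (x (some 0)).h k := by
      intro hv hs
      show (x none).h k + tr (x none).v (pol H k (x none).s) -
        ((x (some 0)).h k + tr (x (some 0)).v (pol H k (x (some 0)).s)) = _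
      rw [hv, hs]
      abel
    constructor
    · rintro ⟨h1, h2, h3, h4⟩
      refine ⟨h1, h2, h3, ?_⟩
      show dot ((x (some 1)).m k) ((hact H (x none)).h k - (hact H (x (some 0))).h k) ≠ 0
      rw [key h1 h2]
      exact h4
    · rintro ⟨h1, h2, h3, h4⟩
      refine ⟨h1, h2, h3, ?_⟩
      have h4' : dot ((x (some 1)).m k)
        ((hact H (x none)).h k - (hact H (x (some 0))).h k) ≠ 0 := h4
      rwa [key h1 h2] at h4'
  fib := by
    rintro x y hxy - ⟨h1, h2, h3, h4⟩
    refine ⟨?_, ?_, ?_, ?_⟩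
    · rw [← (hxy none).1, ← (hxy (some 0)).1]
      exact h1
    · rw [← (hxy none).2.1, ← (hxy (some 0)).2.1]
      exact h2
    · rw [← (hxy none).1, ← (hxy (some 1)).1]
      exact h3
    · rw [← ((hxy none).2.2 k (Nat.lt_succ_self k)).1,
        ← ((hxy (some 0)).2.2 k (Nat.lt_succ_self k)).1,
        ← ((hxy (some 1)).2.2 k (Nat.lt_succ_self k)).2]
      exact h4

private theorem dot_vec {N : ℕ} (v w : ℚ) (γ : Fin N → ℚ) (c d : Fin N → ℂ) :
    dot (vec v γ c) (vec w γ d) = ∑ l : Fin N, if v ≤ γ l ∧ w ≤ γ l then c l * d l else 0 := by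
  have h1 : ∀ (s : Finset (Fin N)) (h : V), dot (∑ l ∈ s, if v ≤ γ l then
      Finsupp.single (γ l, (l : ℕ)) (c l) else 0) h =
      ∑ l ∈ s, if v ≤ γ l then c l * h (γ l, (l : ℕ)) else 0 := by
    intro s h
    classical
    induction s using Finset.induction_on with
    | empty =>
      simp [dot]
    | insert a s ha ih =>
      rw [Finset.sum_insert ha, Finset.sum_insert ha, dot_add_left, ih]
      congr 1
      split_ifs
      · exact dot_single_left _ _ _
      · simp [dot]
  have h2 := h1 Finset.univ (vec w γ d)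
  rw [show dot (vec v γ c) (vec w γ d) = _ from h2]
  apply Finset.sum_congr rfl
  intro l _
  by_cases hv : v ≤ γ l
  · rw [if_pos hv, vec_apply_self]
    by_cases hw : w ≤ γ l
    · rw [if_pos hw, if_pos ⟨hv, hw⟩]
    · rw [if_neg hw, if_neg (fun h => hw h.2), mul_zero]
  · rw [if_neg hv, if_neg (fun h => hv h.1)]

private theorem real_psi_iff {k N : ℕ} (t : Option (Fin 2) → ℕ)
    (x : Pi (Option (Fin 2)) (k + 1) N → ℚ) (c : Qi (Option (Fin 2)) (k + 1) N → ℂ) :
    real (k + 1) N t x c ∈ psi k ↔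
      x (Sum.inl none) = x (Sum.inl (some 0)) ∧ c (Sum.inl none) = c (Sum.inl (some 0)) ∧
      x (Sum.inl none) ≤ x (Sum.inl (some 1)) ∧
      ¬ ((∑ l : Fin N, if x (Sum.inl (some 1)) ≤ x (Sum.inr (Fin.last k, l)) ∧
          x (Sum.inl none) ≤ x (Sum.inr (Fin.last k, l)) then
          c (Sum.inr (false, some 1, Fin.last k, l)) * c (Sum.inr (true, none, Fin.last k, l))
          else 0) =
        (∑ l : Fin N, if x (Sum.inl (some 1)) ≤ x (Sum.inr (Fin.last k, l)) ∧
          x (Sum.inl (some 0)) ≤ x (Sum.inr (Fin.last k, l)) then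
          c (Sum.inr (false, some 1, Fin.last k, l)) * c (Sum.inr (true, some 0, Fin.last k, l))
          else 0)) := by
  have e1 := real_m (k + 1) N t x c (some 1) (Fin.last k)
  have e2 := real_h (k + 1) N t x c none (Fin.last k)
  have e3 := real_h (k + 1) N t x c (some 0) (Fin.last k)
  rw [Fin.val_last] at e1 e2 e3
  have key : dot ((real (k + 1) N t x c (some 1)).m k)
      ((real (k + 1) N t x c none).h k - (real (k + 1) N t x c (some 0)).h k) ≠ 0 ↔
      ¬ ((∑ l : Fin N, if x (Sum.inl (some 1)) ≤ x (Sum.inr (Fin.last k, l)) ∧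
          x (Sum.inl none) ≤ x (Sum.inr (Fin.last k, l)) then
          c (Sum.inr (false, some 1, Fin.last k, l)) * c (Sum.inr (true, none, Fin.last k, l))
          else 0) =
        (∑ l : Fin N, if x (Sum.inl (some 1)) ≤ x (Sum.inr (Fin.last k, l)) ∧
          x (Sum.inl (some 0)) ≤ x (Sum.inr (Fin.last k, l)) then
          c (Sum.inr (false, some 1, Fin.last k, l)) * c (Sum.inr (true, some 0, Fin.last k, l))
          else 0)) := by
    rw [dot_sub_right, e1, e2, e3, dot_vec, dot_vec, sub_ne_zero]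
  rw [← key]
  rfl

/-- Good at stage `k + 1`. -/
theorem psi_good (k : ℕ) : Good (psi k) := by
  refine ⟨k + 1, psi_inv k, ?_⟩
  intro N t
  constructor
  · intro Φ x c h
    have h' := (real_psi_iff t x c).1 h
    apply (real_psi_iff t (Φ ∘ x) c).2
    simpa only [Function.comp_apply, OrderIso.le_iff_le, EmbeddingLike.apply_eq_iff_eq] using h'
  · intro x
    have e : {c | (x, c) ∈ {z : (Pi (Option (Fin 2)) (k + 1) N → ℚ) ×
        (Qi (Option (Fin 2)) (k + 1) N → ℂ) | real (k + 1) N t z.1 z.2 ∈ psi k}} =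
        {c : Qi (Option (Fin 2)) (k + 1) N → ℂ |
      x (Sum.inl none) = x (Sum.inl (some 0)) ∧ c (Sum.inl none) = c (Sum.inl (some 0)) ∧
      x (Sum.inl none) ≤ x (Sum.inl (some 1)) ∧
      ¬ ((∑ l : Fin N, if x (Sum.inl (some 1)) ≤ x (Sum.inr (Fin.last k, l)) ∧
          x (Sum.inl none) ≤ x (Sum.inr (Fin.last k, l)) then
          c (Sum.inr (false, some 1, Fin.last k, l)) * c (Sum.inr (true, none, Fin.last k, l))
          else 0) =
        (∑ l : Fin N, if x (Sum.inl (some 1)) ≤ x (Sum.inr (Fin.last k, l)) ∧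
          x (Sum.inl (some 0)) ≤ x (Sum.inr (Fin.last k, l)) then
          c (Sum.inr (false, some 1, Fin.last k, l)) * c (Sum.inr (true, some 0, Fin.last k, l))
          else 0))} := by
      ext c
      exact real_psi_iff t x c
    rw [e]
    refine secCst_and (secCst_prop _) (secCst_and (secCst_coord _ _)
      (secCst_and (secCst_prop _) (secCst_not ?_)))
    have h2 := secCst_eq (Q := Qi (Option (Fin 2)) (k + 1) N)
      (∑ l : Fin N, if x (Sum.inl (some 1)) ≤ x (Sum.inr (Fin.last k, l)) ∧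
          x (Sum.inl none) ≤ x (Sum.inr (Fin.last k, l)) then
          MvPolynomial.X (Sum.inr (false, some 1, Fin.last k, l)) *
          MvPolynomial.X (Sum.inr (true, none, Fin.last k, l))
          else 0)
      (∑ l : Fin N, if x (Sum.inl (some 1)) ≤ x (Sum.inr (Fin.last k, l)) ∧
          x (Sum.inl (some 0)) ≤ x (Sum.inr (Fin.last k, l)) then
          MvPolynomial.X (Sum.inr (false, some 1, Fin.last k, l)) *
          MvPolynomial.X (Sum.inr (true, some 0, Fin.last k, l))
          else 0)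
    simpa only [map_sum, apply_ite, map_mul, map_zero, MvPolynomial.eval_X] using h2

end Pool.Agent.H13.NipSeq
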