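import Mathlib
import Pool.Agent.H13.NipSeq.Sec

/-!
On the section through `K` points a relation which is good at stage `K` does not shatter large
families of parameters.
-/

set_option autoImplicit false

namespace Pool.Agent.H13.NipSeq

theorem pol_apply (H : ℕ → ℕ → V) (k : ℕ) (s : ℂ) (i : ℚ × ℕ) :
    pol H k s i = ∑ j ∈ Finset.range (k + 1), s ^ j * H k j i := by
  unfold pol
  rw [Finsupp.finsetSum_apply]
  refine Finset.sum_congr rfl fun j _ => ?_
  rw [Finsupp.smul_apply, smul_eq_mul]

/-- Two polynomials of degree `≤ k < K` which agree at `K` points are equal. -/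
theorem coeff_eq {K k : ℕ} (hk : k < K) (s : Fin K → ℂ) (hs : ∀ i j, i ≠ j → s i ≠ s j)
    (c c' : ℕ → ℂ) (h : ∀ i, ∑ j ∈ Finset.range (k + 1), s i ^ j * c j =
      ∑ j ∈ Finset.range (k + 1), s i ^ j * c' j) (j : ℕ) (hj : j ∈ Finset.range (k + 1)) :
    c j = c' j := by
  set P : Polynomial ℂ := ∑ j ∈ Finset.range (k + 1), Polynomial.monomial j (c j - c' j) with hP
  have hdeg : P.natDegree < K := by
    refine lt_of_le_of_lt ?_ hk
    rw [hP]
    refine Polynomial.natDegree_sum_le_of_forall_le _ _ ?_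
    intro i hi
    refine le_trans (Polynomial.natDegree_monomial_le _) ?_
    rw [Finset.mem_range] at hi
    omega
  have heval : ∀ i, P.eval (s i) = 0 := by
    intro i
    rw [hP, Polynomial.eval_finsetSum]
    simp only [Polynomial.eval_monomial]
    have h1 := h i
    rw [← sub_eq_zero, ← Finset.sum_sub_distrib] at h1
    rw [← h1]
    refine Finset.sum_congr rfl fun j _ => ?_
    ring
  have hinj : Function.Injective s := by
    intro i j hij
    by_contra hne
    exact hs i j hne hij
  have hzero : P = 0 := by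
    refine Polynomial.eq_zero_of_natDegree_lt_card_of_eval_eq_zero P hinj heval ?_
    rw [Fintype.card_fin]
    exact hdeg
  have h2 : P.coeff j = c j - c' j := by
    rw [hP, Polynomial.finsetSum_coeff]
    simp only [Polynomial.coeff_monomial]
    rw [Finset.sum_ite_eq' _ _ _, if_pos hj]
  rw [hzero, Polynomial.coeff_zero] at h2
  exact (sub_eq_zero.mp h2.symm)

/-- All the points of the section through `a` lie on one polynomial: two polynomials of degree
`≤ k < K` which agree at `K` distinct directions above a level agree above this level. -/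
theorem sec_uniform (K : ℕ) (a : Fin K → Pt) (h : ∃ x, ext a x ∈ Sec K) :
    ∃ H : ℕ → ℕ → V, ∀ x, ext a x ∈ Sec K → ∀ k < K,
      x.h k = tr x.v (pol H k x.s) ∧ x.m k = 0 := by
  obtain ⟨x₀, hs, hv₀, H, hH⟩ := h
  refine ⟨H, ?_⟩
  rintro x ⟨-, hv, H', hH'⟩ k hk
  have h1 := hH' none k hk
  refine ⟨?_, h1.2⟩
  refine h1.1.trans ?_
  show tr x.v (pol H' k x.s) = tr x.v (pol H k x.s)
  ext i
  rw [tr_apply, tr_apply]
  split_ifs with hi
  · have key : ∀ j ∈ Finset.range (k + 1), H' k j i = H k j i := by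
      intro j hj
      refine coeff_eq hk (fun l : Fin K => (a l).s) hs (fun j => H' k j i) (fun j => H k j i)
        ?_ j hj
      intro l
      have h2 := (hH (some l) k hk).1
      have h3 := (hH' (some l) k hk).1
      have h4 : tr (a l).v (pol H' k (a l).s) i = tr (a l).v (pol H k (a l).s) i := by
        have h5 : tr (a l).v (pol H' k (a l).s) = tr (a l).v (pol H k (a l).s) := h3.symm.trans h2
        rw [h5]
      have h6 : (a l).v < x.v := hv l
      rw [tr_apply, tr_apply, if_pos (h6.le.trans hi), if_pos (h6.le.trans hi), pol_apply,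
        pol_apply] at h4
      exact h4
    rw [pol_apply, pol_apply]
    refine Finset.sum_congr rfl fun j hj => ?_
    rw [key j hj]
  · rfl

/-- The number of elements of `Y` which are `< v` plus the number of those which are `≤ v`. -/
def cutN (Y : Finset ℚ) (v : ℚ) : ℕ := (Y.filter (· < v)).card + (Y.filter (· ≤ v)).card

theorem cutN_le (Y : Finset ℚ) (v : ℚ) : cutN Y v ≤ 2 * Y.card := by
  have h1 := Finset.card_filter_le Y (· < v)
  have h2 := Finset.card_filter_le Y (· ≤ v)
  unfold cutN
  omega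

theorem cutN_lt {Y : Finset ℚ} {v v' y : ℚ} (hvv : v < v') (hy : y ∈ Y)
    (h : (v < y ∧ y ≤ v') ∨ (v ≤ y ∧ y < v')) : cutN Y v < cutN Y v' := by
  have h1 : Y.filter (· < v) ⊆ Y.filter (· < v') := by
    intro z hz
    rw [Finset.mem_filter] at hz ⊢
    exact ⟨hz.1, hz.2.trans hvv⟩
  have h2 : Y.filter (· ≤ v) ⊆ Y.filter (· ≤ v') := by
    intro z hz
    rw [Finset.mem_filter] at hz ⊢
    exact ⟨hz.1, hz.2.trans hvv.le⟩
  have h1' := Finset.card_le_card h1
  have h2' := Finset.card_le_card h2
  unfold cutN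
  rcases h with ⟨ha, hb⟩ | ⟨ha, hb⟩
  · have h3 : Y.filter (· ≤ v) ⊂ Y.filter (· ≤ v') := by
      refine (Finset.ssubset_iff_of_subset h2).mpr ⟨y, Finset.mem_filter.mpr ⟨hy, hb⟩, ?_⟩
      intro hc
      exact absurd (Finset.mem_filter.mp hc).2 (not_le.mpr ha)
    have := Finset.card_lt_card h3
    omega
  · have h3 : Y.filter (· < v) ⊂ Y.filter (· < v') := by
      refine (Finset.ssubset_iff_of_subset h1).mpr ⟨y, Finset.mem_filter.mpr ⟨hy, hb⟩, ?_⟩
      intro hc
      exact absurd (Finset.mem_filter.mp hc).2 (not_lt.mpr ha)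
    have := Finset.card_lt_card h3
    omega

theorem cut_eq {Y : Finset ℚ} {v v' : ℚ} (h : cutN Y v = cutN Y v') {y : ℚ} (hy : y ∈ Y) :
    (y < v ↔ y < v') ∧ (v < y ↔ v' < y) := by
  rcases lt_trichotomy v v' with hlt | heq | hlt
  · have key : ¬ ((v < y ∧ y ≤ v') ∨ (v ≤ y ∧ y < v')) := by
      intro hc
      exact absurd h (cutN_lt hlt hy hc).ne
    push Not at key
    constructor
    · constructor
      · intro h1; exact h1.trans hlt
      · intro h1
        by_contra hc
        exact absurd h1 (not_lt.mpr (key.2 (not_lt.mp hc)))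
    · constructor
      · intro h1; exact key.1 h1
      · intro h1; exact hlt.trans h1
  · subst heq
    exact ⟨Iff.rfl, Iff.rfl⟩
  · have key : ¬ ((v' < y ∧ y ≤ v) ∨ (v' ≤ y ∧ y < v)) := by
      intro hc
      exact absurd h.symm (cutN_lt hlt hy hc).ne
    push Not at key
    constructor
    · constructor
      · intro h1
        by_contra hc
        exact absurd h1 (not_lt.mpr (key.2 (not_lt.mp hc)))
      · intro h1; exact h1.trans hlt
    · constructor
      · intro h1; exact hlt.trans h1
      · intro h1; exact key.1 h1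

/-- Membership only depends on the cut. -/
theorem mem_of_cut {P Q : Type} [Finite P] {D : Set ((Option P → ℚ) × (Option Q → ℂ))}
    (hD : Dd D) (y : P → ℚ) (c : Option Q → ℂ) {Y : Finset ℚ} (hY : ∀ p, y p ∈ Y) {v v' : ℚ}
    (h : cutN Y v = cutN Y v') (hm : (ext y v, c) ∈ D) : (ext y v', c) ∈ D := by
  obtain ⟨Φ, hΦ⟩ := exists_orderIso (ext y v) (ext y v') (by
    intro i j
    cases i with
    | none =>
      cases j with
      | none => simp
      | some j => exact (cut_eq h (hY j)).2
    | some i =>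
      cases j with
      | none => exact (cut_eq h (hY i)).1
      | some j => exact Iff.rfl)
  have h1 := hD.inv Φ _ _ hm
  have h2 : Φ ∘ ext y v = ext y v' := funext hΦ
  rwa [h2] at h1

/-- Patterns for a fixed level. -/
theorem count_level {Q : Type} {n B : ℕ} (A : Fin n → Set (Option Q → ℂ))
    (hA : ∀ j, ∀ c : Q → ℂ,
      (∃ E : Finset ℂ, E.card ≤ B ∧ ∀ s ∉ E, (fun o => Option.elim o s c) ∉ A j) ∨
      (∃ E : Finset ℂ, E.card ≤ B ∧ ∀ s ∉ E, (fun o => Option.elim o s c) ∈ A j))
    (d : Fin n → Q → ℂ) :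
    ∃ W : Finset (Set (Fin n)), W.card ≤ n * B + 1 ∧
      ∀ s : ℂ, {j : Fin n | ext (d j) s ∈ A j} ∈ W := by
  classical
  have h1 : ∀ j, ∃ (E : Finset ℂ) (p : Prop), E.card ≤ B ∧ ∀ s ∉ E, (ext (d j) s ∈ A j ↔ p) := by
    intro j
    rcases hA j (d j) with ⟨E, hE1, hE2⟩ | ⟨E, hE1, hE2⟩
    · exact ⟨E, False, hE1, fun s hs => iff_false_intro (hE2 s hs)⟩
    · exact ⟨E, True, hE1, fun s hs => iff_true_intro (hE2 s hs)⟩
  choose E p hE1 hE2 using h1
  refine ⟨insert {j | p j} ((Finset.univ.biUnion E).image fun s => {j : Fin n | ext (d j) s ∈ A j}),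
    ?_, ?_⟩
  · refine le_trans (Finset.card_insert_le _ _) ?_
    refine Nat.add_le_add_right ?_ 1
    refine le_trans Finset.card_image_le ?_
    refine le_trans Finset.card_biUnion_le ?_
    refine le_trans (Finset.sum_le_sum fun j _ => hE1 j) ?_
    simp
  · intro s
    by_cases hs : s ∈ Finset.univ.biUnion E
    · exact Finset.mem_insert_of_mem (Finset.mem_image_of_mem _ hs)
    · have h2 : ∀ j, s ∉ E j := by
        intro j hj
        exact hs (Finset.mem_biUnion.mpr ⟨j, Finset.mem_univ _, hj⟩)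
      have h3 : {j : Fin n | ext (d j) s ∈ A j} = {j | p j} := by
        ext j
        exact hE2 j s (h2 j)
      rw [h3]
      exact Finset.mem_insert_self _ _

/-- The counting lemma for `Dd`: for a tuple of `n` parameters `(y j, d j)` the pairs `(v, s)`
realize only polynomially many patterns. Here the variable indices are `none`. Classify `v` by its
cut in the set of the levels `y j p` and `s` by its position in the union of the exceptional
sets given by `Dd.finite_sections` and `Cst.uniform`. -/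
theorem dd_count {P Q : Type} [Finite P] [Finite Q]
    {D : Set ((Option P → ℚ) × (Option Q → ℂ))} (hD : Dd D) :
    ∃ C : ℕ, ∀ (n : ℕ) (y : Fin n → P → ℚ) (d : Fin n → Q → ℂ),
      (Set.range fun z : ℚ × ℂ => {j : Fin n | (ext (y j) z.1, ext (d j) z.2) ∈ D}).ncard ≤
        C * (n + 1) ^ 2 := by
  classical
  have := Fintype.ofFinite P
  -- a uniform bound for the exceptional sets
  obtain ⟨B, hB⟩ : ∃ B : ℕ, ∀ x : Option P → ℚ, ∀ c : Q → ℂ,
      (∃ E : Finset ℂ, E.card ≤ B ∧ ∀ s ∉ E, (fun o => Option.elim o s c) ∉ {c | (x, c) ∈ D}) ∨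
      (∃ E : Finset ℂ, E.card ≤ B ∧ ∀ s ∉ E, (fun o => Option.elim o s c) ∈ {c | (x, c) ∈ D}) := by
    have hfin := hD.finite_sections
    have hu : ∀ A ∈ (Set.range fun x : Option P → ℚ => {c : Option Q → ℂ | (x, c) ∈ D}),
        ∃ B : ℕ, ∀ c : Q → ℂ,
          (∃ E : Finset ℂ, E.card ≤ B ∧ ∀ s ∉ E, (fun o => Option.elim o s c) ∉ A) ∨
          (∃ E : Finset ℂ, E.card ≤ B ∧ ∀ s ∉ E, (fun o => Option.elim o s c) ∈ A) := by
      rintro A ⟨x, rfl⟩
      exact (hD.cst x).uniform
    choose! f hf using hu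
    refine ⟨hfin.toFinset.sum f, ?_⟩
    intro x c
    have hx : {c : Option Q → ℂ | (x, c) ∈ D} ∈
        (Set.range fun x : Option P → ℚ => {c : Option Q → ℂ | (x, c) ∈ D}) := ⟨x, rfl⟩
    have hle : f {c : Option Q → ℂ | (x, c) ∈ D} ≤ hfin.toFinset.sum f :=
      Finset.single_le_sum (f := f) (fun _ _ => Nat.zero_le _) (hfin.mem_toFinset.mpr hx)
    rcases hf _ hx c with ⟨E, hE1, hE2⟩ | ⟨E, hE1, hE2⟩
    · exact Or.inl ⟨E, hE1.trans hle, hE2⟩
    · exact Or.inr ⟨E, hE1.trans hle, hE2⟩
  refine ⟨(2 * Fintype.card P + 1) * (B + 1), ?_⟩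
  intro n y d
  set Y : Finset ℚ := (Finset.univ : Finset (Fin n × P)).image fun q => y q.1 q.2 with hY
  have hYmem : ∀ j p, y j p ∈ Y := fun j p => Finset.mem_image.mpr ⟨(j, p), Finset.mem_univ _, rfl⟩
  have hYcard : Y.card ≤ n * Fintype.card P := by
    refine le_trans Finset.card_image_le ?_
    rw [Finset.card_univ, Fintype.card_prod, Fintype.card_fin]
  -- the patterns with a given cut
  have hW : ∀ t : ℕ, ∃ W : Finset (Set (Fin n)), W.card ≤ n * B + 1 ∧
      ∀ v : ℚ, cutN Y v = t → ∀ s : ℂ,
        {j : Fin n | (ext (y j) v, ext (d j) s) ∈ D} ∈ W := by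
    intro t
    by_cases ht : ∃ v : ℚ, cutN Y v = t
    · obtain ⟨v₀, hv₀⟩ := ht
      obtain ⟨W, hW1, hW2⟩ := count_level (B := B)
        (fun j : Fin n => {c : Option Q → ℂ | (ext (y j) v₀, c) ∈ D}) (fun j => hB _) d
      refine ⟨W, hW1, ?_⟩
      intro v hv s
      have h1 : {j : Fin n | (ext (y j) v, ext (d j) s) ∈ D} =
          {j : Fin n | ext (d j) s ∈ {c : Option Q → ℂ | (ext (y j) v₀, c) ∈ D}} := by
        ext j
        constructor
        · intro h
          exact mem_of_cut hD (y j) _ (hYmem j) (hv.trans hv₀.symm) h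
        · intro h
          exact mem_of_cut hD (y j) _ (hYmem j) (hv₀.trans hv.symm) h
      rw [h1]
      exact hW2 s
    · refine ⟨∅, Nat.zero_le _, ?_⟩
      intro v hv
      exact absurd ⟨v, hv⟩ ht
  choose W hW1 hW2 using hW
  have hsub : (Set.range fun z : ℚ × ℂ => {j : Fin n | (ext (y j) z.1, ext (d j) z.2) ∈ D}) ⊆
      (((Finset.range (2 * (n * Fintype.card P) + 1)).biUnion W : Finset (Set (Fin n))) :
        Set (Set (Fin n))) := by
    rintro _ ⟨z, rfl⟩
    rw [Finset.mem_coe, Finset.mem_biUnion]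
    refine ⟨cutN Y z.1, ?_, hW2 _ z.1 rfl z.2⟩
    rw [Finset.mem_range]
    have := cutN_le Y z.1
    omega
  refine le_trans (Set.ncard_le_ncard hsub (Finset.finite_toSet _)) ?_
  rw [Set.ncard_coe_finset]
  refine le_trans (Finset.card_biUnion_le_card_mul _ _ (n * B + 1) fun t _ => hW1 t) ?_
  rw [Finset.card_range]
  have h1 : 2 * (n * Fintype.card P) + 1 ≤ (2 * Fintype.card P + 1) * (n + 1) := by nlinarith
  have h2 : n * B + 1 ≤ (B + 1) * (n + 1) := by nlinarith
  calc (2 * (n * Fintype.card P) + 1) * (n * B + 1)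
      ≤ ((2 * Fintype.card P + 1) * (n + 1)) * ((B + 1) * (n + 1)) := Nat.mul_le_mul h1 h2
    _ = (2 * Fintype.card P + 1) * (B + 1) * (n + 1) ^ 2 := by ring

theorem hact_inj (H : ℕ → ℕ → V) : Function.Injective (hact H) := by
  intro x y h
  have hv : x.v = y.v := by
    have h0 := congrArg Pt.v h
    exact h0
  have hs : x.s = y.s := by
    have h0 := congrArg Pt.s h
    exact h0
  have hm : x.m = y.m := by
    have h0 := congrArg Pt.m h
    exact h0
  have hh : x.h = y.h := by
    funext k
    have h1 : x.h k + tr x.v (pol H k x.s) = y.h k + tr y.v (pol H k y.s) :=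
      congrFun (congrArg Pt.h h) k
    rw [hv, hs] at h1
    exact add_right_cancel h1
  exact Pt.ext hv hs hh hm

theorem act_inj (M : ℕ → Mv) : Function.Injective (act M) := by
  intro x y h
  have hv : x.v = y.v := by
    have h0 := congrArg Pt.v h
    exact h0
  have hs : x.s = y.s := by
    have h0 := congrArg Pt.s h
    exact h0
  have hm : x.m = y.m := by
    funext k
    have h1 : (M k).B (x.m k) = (M k).B (y.m k) := congrFun (congrArg Pt.m h) k
    exact (M k).B.injective h1
  have hh : x.h = y.h := by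
    funext k
    have h1 : tr x.v ((M k).A (x.h k)) = tr y.v ((M k).A (y.h k)) :=
      congrFun (congrArg Pt.h h) k
    rw [← hv] at h1
    have h2 : ∀ i : ℚ × ℕ, x.v ≤ i.1 → (M k).A (x.h k - y.h k) i = 0 := by
      intro i hi
      have h3 : tr x.v ((M k).A (x.h k)) i = tr x.v ((M k).A (y.h k)) i := by rw [h1]
      rw [tr_apply, tr_apply, if_pos hi, if_pos hi] at h3
      rw [map_sub, Finsupp.sub_apply, h3, sub_self]
    have h4 := (M k).lowA' x.v _ h2
    ext i
    by_cases hi : x.v ≤ i.1
    · have h5 := h4 i hi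
      rw [LinearEquiv.symm_apply_apply, Finsupp.sub_apply] at h5
      exact sub_eq_zero.mp h5
    · rw [not_le] at hi
      rw [x.hh k i hi, y.hh k i (hv ▸ hi)]
  exact Pt.ext hv hs hh hm

theorem pol_neg' (H : ℕ → ℕ → V) (k : ℕ) (s : ℂ) :
    pol (fun k j => - H k j) k s = - pol H k s := by
  unfold pol
  rw [← Finset.sum_neg_distrib]
  refine Finset.sum_congr rfl fun j _ => ?_
  rw [smul_neg]

theorem tr_neg' (v : ℚ) (h : V) : tr v (-h) = - tr v h := by
  ext i
  rw [Finsupp.neg_apply, tr_apply, tr_apply, Finsupp.neg_apply]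
  split_ifs
  · rfl
  · rw [neg_zero]

theorem tr_zero (v : ℚ) : tr v (0 : V) = 0 := by
  ext i
  rw [tr_apply, Finsupp.zero_apply]
  split_ifs <;> rfl

theorem vec_zero {N : ℕ} (v : ℚ) (γ : Fin N → ℚ) : vec v γ (fun _ => 0) = 0 := by
  unfold vec
  refine Finset.sum_eq_zero fun l _ => ?_
  rw [Finsupp.single_zero, ite_self]

section core

variable (α : Type) (K N : ℕ)

/-- The variable is the level of the last point. -/
def sgm : Pi (Option α) K N → Option (Pi (Option α) K N)
  | Sum.inl none => none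
  | Sum.inl (some j) => some (Sum.inl (some j))
  | Sum.inr q => some (Sum.inr q)

/-- The variable is the direction of the last point. -/
def ta : Qi (Option α) K N → Option (Qi (Option α) K N)
  | Sum.inl none => none
  | Sum.inl (some j) => some (Sum.inl (some j))
  | Sum.inr q => some (Sum.inr q)

variable {α K N}

/-- the levels of the extended normal form -/
def exX (X : Pi α K N → ℚ) : Pi (Option α) K N → ℚ
  | Sum.inl none => 0
  | Sum.inl (some j) => X (Sum.inl j)
  | Sum.inr q => X (Sum.inr q)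

/-- the coefficients of the extended normal form -/
def exC (c : Qi α K N → ℂ) : Qi (Option α) K N → ℂ
  | Sum.inl none => 0
  | Sum.inl (some j) => c (Sum.inl j)
  | Sum.inr (_, none, _, _) => 0
  | Sum.inr (b, some j, k, l) => c (Sum.inr (b, j, k, l))

theorem real_some (t : α → ℕ) (X : Pi α K N → ℚ) (c : Qi α K N → ℂ) (e : ℕ) (v : ℚ) (s : ℂ)
    (j : α) :
    real K N (ext t e) (ext (exX X) v ∘ sgm α K N) (ext (exC c) s ∘ ta α K N) (some j) =
      real K N t X c j := rfl

end core

theorem core_iff {α : Type} [Finite α] {K : ℕ} {R : Set (Option α → Pt)} (hI : Inv K R)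
    (H : ℕ → ℕ → V) (b : α → Pt) :
    ∃ (t : Option α → ℕ) (y : Pi (Option α) K (2 * Nat.card α) → ℚ)
      (c : Qi (Option α) K (2 * Nat.card α) → ℂ), (∀ o, t o < Nat.card α + 1) ∧
      ∀ x : Pt, (∀ k < K, x.h k = tr x.v (pol H k x.s) ∧ x.m k = 0) → (∀ j, x ≠ b j) →
        (ext b x ∈ R ↔
          real K (2 * Nat.card α) t (ext y x.v ∘ sgm α K _) (ext c x.s ∘ ta α K _) ∈ R) := by
  set H' : ℕ → ℕ → V := fun k j => - H k j with hH'
  obtain ⟨M, t, X, c, ht, hE, hS⟩ := normal_tuple K (fun j => hact H' (b j))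
  refine ⟨ext t (Nat.card α), exX X, exC c, ?_, ?_⟩
  · intro o
    cases o with
    | none => exact Nat.lt_succ_self _
    | some j => exact (ht j).trans (Nat.lt_succ_self _)
  · intro x hx hne
    set w : Option α → Pt := real K (2 * Nat.card α) (ext t (Nat.card α))
      (ext (exX X) x.v ∘ sgm α K _) (ext (exC c) x.s ∘ ta α K _) with hw
    set u : Option α → Pt := fun o => act M (hact H' (ext b x o)) with hu
    have h1 : ext b x ∈ R ↔ u ∈ R := (hI.hact H' (ext b x)).trans (hI.act M _)
    have hEqv : ∀ o, Eqv K (u o) (w o) := by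
      intro o
      cases o with
      | some j => exact hE j
      | none =>
        refine ⟨rfl, rfl, ?_⟩
        intro k hk
        constructor
        · show tr x.v ((M k).A (x.h k + tr x.v (pol H' k x.s))) = (w none).h k
          have h2 : x.h k + tr x.v (pol H' k x.s) = 0 := by
            rw [(hx k hk).1, hH', pol_neg', tr_neg', add_neg_cancel]
          rw [h2, map_zero, tr_zero]
          show 0 = (w none).h k
          simp only [hw, real, dif_pos hk]
          exact (vec_zero _ _).symm
        · show (M k).B (x.m k) = (w none).m k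
          rw [(hx k hk).2, map_zero]
          simp only [hw, real, dif_pos hk]
          exact (vec_zero _ _).symm
    have hneq : ∀ j, u none ≠ u (some j) := by
      intro j hc
      exact hne j (hact_inj H' (act_inj M hc))
    have hneq' : ∀ j, w none ≠ w (some j) := by
      intro j hc
      have hv : x.v = (w (some j)).v := by
        have h0 := congrArg Pt.v hc
        exact h0
      have h3 : (w none).h K = (w (some j)).h K := by rw [hc]
      have h4 : (w none).h K = Finsupp.single (x.v, 0) ((Nat.card α : ℕ) : ℂ) := by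
        simp only [hw, real, lt_irrefl, dif_neg, not_false_eq_true, if_true]
        rfl
      have h5 : (w (some j)).h K = Finsupp.single ((w (some j)).v, 0) ((t j : ℕ) : ℂ) := by
        simp only [hw, real, lt_irrefl, dif_neg, not_false_eq_true, if_true]
        rfl
      rw [h4, h5, ← hv] at h3
      have h6 := DFunLike.congr_fun h3 (x.v, 0)
      rw [Finsupp.single_eq_same, Finsupp.single_eq_same] at h6
      have h7 : Nat.card α = t j := by exact_mod_cast h6
      have := ht j
      omega
    have hpat : SamePat u w := by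
      intro o o'
      cases o with
      | none =>
        cases o' with
        | none => exact iff_of_true rfl rfl
        | some j => exact iff_of_false (hneq j) (hneq' j)
      | some i =>
        cases o' with
        | none => exact iff_of_false (hneq i).symm (hneq' i).symm
        | some j =>
          constructor
          · intro h
            exact (hS i j).mp (act_inj M h)
          · intro h
            have h8 : hact H' (b i) = hact H' (b j) := (hS i j).mpr h
            show act M (hact H' (b i)) = act M (hact H' (b j))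
            rw [h8]
    have hpat' : SamePat w u := fun o o' => (hpat o o').symm
    have hEqv' : ∀ o, Eqv K (w o) (u o) := fun o =>
      ⟨(hEqv o).1.symm, (hEqv o).2.1.symm, fun k hk =>
        ⟨((hEqv o).2.2 k hk).1.symm, ((hEqv o).2.2 k hk).2.symm⟩⟩
    rw [h1]
    exact ⟨hI.fib u w hEqv hpat, hI.fib w u hEqv' hpat'⟩

theorem exists_large (A C T : ℕ) : ∃ n : ℕ, n * A + (C * (n + 1) ^ 2) ^ T < 2 ^ n := by
  have h1 := tendsto_pow_const_div_const_pow_of_one_lt (2 * T + 1) (r := (2 : ℝ)) (by norm_num)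
  set M : ℝ := 2 * ((A : ℝ) + (C : ℝ) ^ T + 1) with hM
  have hMpos : 0 < M := by positivity
  have h2 : ∀ᶠ n : ℕ in Filter.atTop, (n : ℝ) ^ (2 * T + 1) / 2 ^ n < 1 / M :=
    h1.eventually_lt_const (by positivity)
  obtain ⟨m, hm, hm1⟩ := (h2.and (Filter.eventually_ge_atTop 1)).exists
  obtain ⟨n, rfl⟩ : ∃ n, m = n + 1 := ⟨m - 1, by omega⟩
  refine ⟨n, ?_⟩
  rw [div_lt_div_iff₀ (by positivity) hMpos] at hm
  have h3 : ((n * A + (C * (n + 1) ^ 2) ^ T : ℕ) : ℝ) < ((2 ^ n : ℕ) : ℝ) := by
    push_cast
    push_cast at hm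
    have hn1 : (1 : ℝ) ≤ (n : ℝ) + 1 := by
      have : (0 : ℝ) ≤ n := Nat.cast_nonneg n
      linarith
    have h4 : (n : ℝ) * A ≤ ((n : ℝ) + 1) ^ (2 * T + 1) * A := by
      refine mul_le_mul_of_nonneg_right ?_ (Nat.cast_nonneg _)
      calc (n : ℝ) ≤ (n : ℝ) + 1 := by linarith
        _ = ((n : ℝ) + 1) ^ 1 := (pow_one _).symm
        _ ≤ ((n : ℝ) + 1) ^ (2 * T + 1) := pow_le_pow_right₀ hn1 (by omega)
    have h5 : ((C : ℝ) * ((n : ℝ) + 1) ^ 2) ^ T ≤ ((n : ℝ) + 1) ^ (2 * T + 1) * (C : ℝ) ^ T := by
      rw [mul_pow, ← pow_mul, mul_comm]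
      refine mul_le_mul_of_nonneg_right ?_ (by positivity)
      exact pow_le_pow_right₀ hn1 (by omega)
    have h6 : (0 : ℝ) ≤ ((n : ℝ) + 1) ^ (2 * T + 1) := by positivity
    have h7 : 2 * ((n : ℝ) * A + ((C : ℝ) * ((n : ℝ) + 1) ^ 2) ^ T) ≤
        ((n : ℝ) + 1) ^ (2 * T + 1) * M := by
      rw [hM]
      nlinarith
    have h8 : ((n : ℝ) + 1) ^ (2 * T + 1) * M < 2 * 2 ^ n := by
      rw [one_mul] at hm
      have h9 : (2 : ℝ) ^ (n + 1) = 2 * 2 ^ n := by ring
      rw [h9] at hm
      exact hm
    linarith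
  exact_mod_cast h3

/-- No large shattered families on a section. Let `R` be good at stage `K`. All the points of the
section are moved to canonical points by one polynomial move (`sec_uniform`), then each parameter
tuple `b i` is moved to a normal form (`normal_tuple`; the canonical points are not moved), and
`dd_count` bounds the number of patterns of those `x` which are not among the `b i j`. -/
theorem nip_count {α : Type} [Finite α] {R : Set (Option α → Pt)} (hR : Good R) :
    ∃ K n : ℕ, ∀ (a : Fin K → Pt) (b : Fin n → α → Pt),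
      ¬ ∀ S : Finset (Fin n), ∃ x, ext a x ∈ Sec K ∧ ∀ i, ext (b i) x ∈ R ↔ i ∈ S := by
  classical
  obtain ⟨K, hinv, hdd⟩ := hR
  have := Fintype.ofFinite α
  set N : ℕ := 2 * Nat.card α with hN
  -- the constant
  have hC : ∀ t : Option α → Fin (Nat.card α + 1), ∃ C : ℕ, ∀ (n : ℕ)
      (y : Fin n → Pi (Option α) K N → ℚ) (d : Fin n → Qi (Option α) K N → ℂ),
      (Set.range fun z : ℚ × ℂ => {j : Fin n |
        (ext (y j) z.1, ext (d j) z.2) ∈ {z : (Option (Pi (Option α) K N) → ℚ) ×
          (Option (Qi (Option α) K N) → ℂ) | (z.1 ∘ sgm α K N, z.2 ∘ ta α K N) ∈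
            {z : (Pi (Option α) K N → ℚ) × (Qi (Option α) K N → ℂ) |
              real K N (fun o => (t o : ℕ)) z.1 z.2 ∈ R}}}).ncard ≤ C * (n + 1) ^ 2 := by
    intro t
    exact dd_count ((hdd N fun o => (t o : ℕ)).preimage (sgm α K N) (ta α K N))
  choose C hC using hC
  set C₀ : ℕ := ∑ t, C t with hC₀
  obtain ⟨n, hn⟩ := exists_large (Fintype.card α) C₀
    (Fintype.card (Option α → Fin (Nat.card α + 1)))
  refine ⟨K, n, ?_⟩
  intro a b hshat
  choose x hxa hxb using hshat
  obtain ⟨H, hH⟩ := sec_uniform K a ⟨x ∅, hxa ∅⟩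
  choose t y c ht hcore using fun i : Fin n => core_iff hinv H (b i)
  -- the first kind of subsets
  have hxinj : Function.Injective x := by
    intro S S' h
    ext i
    rw [← hxb S i, ← hxb S' i, h]
  set S1 : Set (Finset (Fin n)) := {S | ∃ i j, x S = b i j} with hS1
  have hcard1 : Nat.card S1 ≤ n * Fintype.card α := by
    have h1 : ∀ S : S1, ∃ q : Fin n × α, x S = b q.1 q.2 := by
      rintro ⟨S, i, j, h⟩
      exact ⟨(i, j), h⟩
    choose g hg using h1
    have h2 : Function.Injective g := by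
      intro S S' h
      apply Subtype.ext
      apply hxinj
      rw [hg S, hg S', h]
    have h3 := Nat.card_le_card_of_injective g h2
    rw [Nat.card_prod, Nat.card_fin, Nat.card_eq_fintype_card (α := α)] at h3
    exact h3
  -- the patterns
  set pat : (Option α → Fin (Nat.card α + 1)) → ℚ × ℂ → Set (Fin n) := fun t z => {j : Fin n |
        (ext (y j) z.1, ext (c j) z.2) ∈ {z : (Option (Pi (Option α) K N) → ℚ) ×
          (Option (Qi (Option α) K N) → ℂ) | (z.1 ∘ sgm α K N, z.2 ∘ ta α K N) ∈
            {z : (Pi (Option α) K N → ℚ) × (Qi (Option α) K N → ℂ) |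
              real K N (fun o => (t o : ℕ)) z.1 z.2 ∈ R}}} with hpat
  have hcard2 : Nat.card (S1ᶜ : Set (Finset (Fin n))) ≤
      (C₀ * (n + 1) ^ 2) ^ (Fintype.card (Option α → Fin (Nat.card α + 1))) := by
    have h1 : Function.Injective (fun S : (S1ᶜ : Set (Finset (Fin n))) =>
        fun t : Option α → Fin (Nat.card α + 1) =>
          (⟨pat t ((x S).v, (x S).s), ⟨_, rfl⟩⟩ : Set.range (pat t))) := by
      intro S S' h
      apply Subtype.ext
      have key : ∀ (S : (S1ᶜ : Set (Finset (Fin n)))) (i : Fin n), i ∈ S.1 ↔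
          i ∈ pat (fun o => ⟨t i o, ht i o⟩) ((x S).v, (x S).s) := by
        intro S i
        rw [← hxb S.1 i]
        refine hcore i (x S.1) (hH (x S.1) (hxa S.1)) ?_
        intro j hj
        exact S.2 ⟨i, j, hj⟩
      ext i
      rw [key S i, key S' i]
      have h2 := congrArg Subtype.val (congrFun h fun o => ⟨t i o, ht i o⟩)
      have h3 : pat (fun o => ⟨t i o, ht i o⟩) ((x S).v, (x S).s) =
        pat (fun o => ⟨t i o, ht i o⟩) ((x S').v, (x S').s) := h2
      rw [h3]
    have h4 := Nat.card_le_card_of_injective _ h1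
    refine le_trans h4 ?_
    rw [Nat.card_pi]
    have h5 : ∀ t ∈ (Finset.univ : Finset (Option α → Fin (Nat.card α + 1))),
        Nat.card (Set.range (pat t)) ≤ C₀ * (n + 1) ^ 2 := by
      intro t' _
      rw [Nat.card_coe_set_eq]
      refine le_trans (hC t' n y c) ?_
      refine Nat.mul_le_mul_right _ ?_
      exact Finset.single_le_sum (f := C) (fun _ _ => Nat.zero_le _) (Finset.mem_univ _)
    refine le_trans (Finset.prod_le_prod' h5) ?_
    rw [Finset.prod_const, Finset.card_univ]
  have htot : 2 ^ n = Nat.card S1 + Nat.card (S1ᶜ : Set (Finset (Fin n))) := by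
    rw [Nat.card_coe_set_eq, Nat.card_coe_set_eq, Set.ncard_add_ncard_compl,
      Nat.card_eq_fintype_card, Fintype.card_finset, Fintype.card_fin]
  omega

end Pool.Agent.H13.NipSeq
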