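import Mathlib
import Pool.Agent.H13.NipSeq.Good

/-!
The language of all good relations, quantifier elimination and transfer to other models.
Everything in this file follows formally from the closure properties in the file Good.
-/

set_option autoImplicit false

open FirstOrder FirstOrder.Language

namespace Pool.Agent.H13.NipSeq

universe u

/-- The language with one `n`-ary relation symbol for every good `n`-ary relation. -/
def Lg : FirstOrder.Language.{0, 0} := ⟨fun _ => Empty, fun n => {R : Set (Fin n → Pt) // Good R}⟩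

instance : Lg.Structure Pt where
  funMap := fun f => f.elim
  RelMap := fun R x => x ∈ R.1

/-- The theory of the structure `Pt`. -/
def Tth : Lg.Theory := Lg.completeTheory Pt

/-- all terms are variables -/
theorem term_var {α : Type} (t : Lg.Term α) : ∃ a, t = Term.var a := by
  cases t with
  | var a => exact ⟨a, rfl⟩
  | func f _ => exact f.elim

/-- the renaming of variables for a quantifier -/
def qren (α : Type) (n : ℕ) : α ⊕ Fin (n + 1) → Option (α ⊕ Fin n) :=
  Sum.elim (fun a => some (Sum.inl a)) (Fin.snoc (fun j => some (Sum.inr j)) none)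

theorem good_of_bounded {α : Type} [Finite α] {n : ℕ} (φ : Lg.BoundedFormula α n) :
    Good {z : α ⊕ Fin n → Pt | φ.Realize (z ∘ Sum.inl) (z ∘ Sum.inr)} := by
  induction φ with
  | @falsum n =>
    have h : Good ((Set.univ : Set (α ⊕ Fin n → Pt))ᶜ) := Good.univ.compl
    rw [Set.compl_univ] at h
    exact h
  | equal t₁ t₂ =>
    obtain ⟨i, rfl⟩ := term_var t₁
    obtain ⟨j, rfl⟩ := term_var t₂
    have h := Good.eq i j
    convert h using 1
    ext z
    simp only [Set.mem_ofPred_eq, BoundedFormula.Realize, Term.realize_var, Sum.elim_comp_inl_inr]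
  | rel R ts =>
    choose i hi using fun k => term_var (ts k)
    have h := Good.preimage i R.2
    convert h using 1
    ext z
    simp only [Set.mem_ofPred_eq, BoundedFormula.Realize, hi, Term.realize_var,
      Sum.elim_comp_inl_inr]
    rfl
  | imp f₁ f₂ h₁ h₂ =>
    have h := (h₁.inter h₂.compl).compl
    convert h using 1
    ext z
    simp only [Set.mem_ofPred_eq, BoundedFormula.Realize, Set.mem_compl_iff, Set.mem_inter_iff,
      not_and, not_not]
  | @all n f h₁ =>
    have h := (Good.ex (Good.preimage (qren α n) h₁.compl)).compl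
    convert h using 1
    ext z
    simp only [Set.mem_ofPred_eq, BoundedFormula.Realize, Set.mem_compl_iff, not_exists, not_not]
    have key : ∀ y : Pt, (ext z y ∘ qren α n) ∘ Sum.inl = z ∘ Sum.inl ∧
        (ext z y ∘ qren α n) ∘ Sum.inr = Fin.snoc (z ∘ Sum.inr) y := by
      intro y
      constructor
      · rfl
      · funext k
        refine Fin.lastCases ?_ (fun j => ?_) k
        · simp [qren]
        · simp [qren]
    constructor
    · intro h2 y
      rw [(key y).1, (key y).2]
      exact h2 y
    · intro h2 y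
      have h3 := h2 y
      rw [(key y).1, (key y).2] at h3
      exact h3

/-- Quantifier elimination: every definable relation is good (induction on bounded formulas:
for `φ : Lg.BoundedFormula α n` the set of `z : α ⊕ Fin n → Pt` with
`φ.Realize (z ∘ Sum.inl) (z ∘ Sum.inr)` is good). -/
theorem good_of_formula {α : Type} [Finite α] (φ : Lg.Formula α) :
    Good {x : α → Pt | φ.Realize x} := by
  have h := Good.preimage (Sum.elim id Fin.elim0 : α ⊕ Fin 0 → α) (good_of_bounded φ)
  convert h using 1
  ext x
  simp only [Set.mem_ofPred_eq, Formula.Realize]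
  have h1 : (x ∘ (Sum.elim id Fin.elim0 : α ⊕ Fin 0 → α)) ∘ Sum.inl = x := rfl
  have h2 : (x ∘ (Sum.elim id Fin.elim0 : α ⊕ Fin 0 → α)) ∘ Sum.inr = default :=
    Subsingleton.elim _ _
  rw [h1, h2]

/-- A formula for a good relation (choose a bijection `α ≃ Fin n`). -/
noncomputable def fml {α : Type} [Finite α] (R : Set (α → Pt)) (hR : Good R) : Lg.Formula α :=
  Relations.formula (L := Lg) (n := Nat.card α)
    (⟨{y : Fin (Nat.card α) → Pt | y ∘ (Finite.equivFin α) ∈ R},
      Good.preimage (Finite.equivFin α) hR⟩ : {R : Set (Fin (Nat.card α) → Pt) // Good R})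
    (fun i => Term.var ((Finite.equivFin α).symm i))

theorem realize_fml {α : Type} [Finite α] (R : Set (α → Pt)) (hR : Good R) (x : α → Pt) :
    (fml R hR).Realize x ↔ x ∈ R := by
  have h : ((fun i => (Term.var ((Finite.equivFin α).symm i) : Lg.Term α).realize x) ∘
      (Finite.equivFin α)) = x := by
    funext i
    simp
  have h0 : (fml R hR).Realize x ↔
      ((fun i => (Term.var ((Finite.equivFin α).symm i) : Lg.Term α).realize x) ∘
      (Finite.equivFin α)) ∈ R := Formula.realize_rel
  rw [h0, h]

section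

variable (M : Type u) [Lg.Structure M]

/-- The interpretation of a good relation in a model. -/
def Ip {α : Type} [Finite α] (R : Set (α → Pt)) (hR : Good R) : Set (α → M) :=
  {x | (fml R hR).Realize x}

/-- the universal closure -/
noncomputable def ucl {α : Type} [Finite α] (φ : Lg.Formula α) : Lg.Sentence :=
  (φ.relabel Sum.inr : Lg.Formula (Empty ⊕ α)).iAlls α

theorem realize_ucl {α : Type} [Finite α] (φ : Lg.Formula α) :
    M ⊨ ucl φ ↔ ∀ x : α → M, φ.Realize x := by
  unfold ucl Sentence.Realize
  rw [Formula.realize_iAlls]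
  refine forall_congr' fun x => ?_
  rw [Formula.realize_relabel]
  rfl

variable {M}
variable (hM : M ⊨ Tth)

include hM

/-- Transfer. -/
theorem transfer {α : Type} [Finite α] (φ ψ : Lg.Formula α)
    (h : ∀ x : α → Pt, φ.Realize x → ψ.Realize x) (x : α → M) (hx : φ.Realize x) :
    ψ.Realize x := by
  have h1 : Pt ⊨ ucl (φ.imp ψ) := (realize_ucl Pt (φ.imp ψ)).2 fun y => h y
  have h2 : M ⊨ ucl (φ.imp ψ) := hM.realize_of_mem _ (mem_completeTheory.2 h1)
  exact (realize_ucl M (φ.imp ψ)).1 h2 x hx

theorem Ip_formula {α : Type} [Finite α] (φ : Lg.Formula α) (x : α → M) :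
    φ.Realize x ↔ x ∈ Ip M {x : α → Pt | φ.Realize x} (good_of_formula φ) := by
  constructor
  · exact transfer hM _ _ (fun y hy => (realize_fml _ _ y).2 hy) x
  · exact transfer hM _ _ (fun y hy => (realize_fml _ _ y).1 hy) x

theorem Ip_mono {α : Type} [Finite α] {R S : Set (α → Pt)} (hR : Good R) (hS : Good S)
    (h : R ⊆ S) : Ip M R hR ⊆ Ip M S hS := by
  intro x hx
  exact transfer hM _ _ (fun y hy => (realize_fml _ _ y).2 (h ((realize_fml _ _ y).1 hy))) x hx

theorem Ip_compl {α : Type} [Finite α] {R : Set (α → Pt)} (hR : Good R) (x : α → M) :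
    x ∈ Ip M Rᶜ hR.compl ↔ x ∉ Ip M R hR := by
  constructor
  · intro hx
    have h1 : (fml R hR).not.Realize x := transfer hM (fml Rᶜ hR.compl) (fml R hR).not
      (fun y hy => Formula.realize_not.2 fun hy' =>
        (realize_fml _ _ y).1 hy ((realize_fml _ _ y).1 hy')) x hx
    exact Formula.realize_not.1 h1
  · intro hx
    exact transfer hM (fml R hR).not (fml Rᶜ hR.compl)
      (fun y hy => (realize_fml _ _ y).2 fun hy' =>
        Formula.realize_not.1 hy ((realize_fml _ _ y).2 hy')) x (Formula.realize_not.2 hx)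

theorem Ip_inter {α : Type} [Finite α] {R S : Set (α → Pt)} (hR : Good R) (hS : Good S)
    (x : α → M) : x ∈ Ip M (R ∩ S) (hR.inter hS) ↔ x ∈ Ip M R hR ∧ x ∈ Ip M S hS := by
  constructor
  · intro hx
    exact ⟨Ip_mono hM (hR.inter hS) hR Set.inter_subset_left hx,
      Ip_mono hM (hR.inter hS) hS Set.inter_subset_right hx⟩
  · rintro ⟨h1, h2⟩
    exact transfer hM (fml R hR ⊓ fml S hS) (fml (R ∩ S) (hR.inter hS))
      (fun y hy => (realize_fml _ _ y).2 ⟨(realize_fml _ _ y).1 (Formula.realize_inf.1 hy).1,
        (realize_fml _ _ y).1 (Formula.realize_inf.1 hy).2⟩) x (Formula.realize_inf.2 ⟨h1, h2⟩)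

theorem Ip_univ {α : Type} [Finite α] (x : α → M) : x ∈ Ip M Set.univ (Good.univ (α := α)) := by
  exact transfer hM ⊤ (fml Set.univ (Good.univ (α := α)))
    (fun y _ => (realize_fml _ _ y).2 (Set.mem_univ y)) x (Formula.realize_top.2 trivial)

theorem Ip_eq {α : Type} [Finite α] (i j : α) (x : α → M) :
    x ∈ Ip M {x : α → Pt | x i = x j} (Good.eq i j) ↔ x i = x j := by
  have h0 : ∀ (N : Type u) [Lg.Structure N] (y : α → N),
      ((Term.var i : Lg.Term α).equal (Term.var j)).Realize y ↔ y i = y j := by
    intro N _ y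
    rw [Formula.realize_equal]
    rfl
  have h0' : ∀ (y : α → Pt),
      ((Term.var i : Lg.Term α).equal (Term.var j)).Realize y ↔ y i = y j := by
    intro y
    rw [Formula.realize_equal]
    rfl
  rw [← h0 M x]
  constructor
  · exact transfer hM _ _ (fun y hy => (h0' y).2 ((realize_fml _ _ y).1 hy)) x
  · exact transfer hM _ _ (fun y hy => (realize_fml _ _ y).2 ((h0' y).1 hy)) x

theorem Ip_preimage {α β : Type} [Finite α] [Finite β] (f : α → β) {R : Set (α → Pt)}
    (hR : Good R) (x : β → M) :
    x ∈ Ip M {x : β → Pt | x ∘ f ∈ R} (Good.preimage f hR) ↔ x ∘ f ∈ Ip M R hR := by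
  have h1 : x ∘ f ∈ Ip M R hR ↔ ((fml R hR).relabel f).Realize x :=
    Formula.realize_relabel.symm
  rw [h1]
  constructor
  · exact transfer hM (fml _ (Good.preimage f hR)) ((fml R hR).relabel f)
      (fun y hy => Formula.realize_relabel.2
      ((realize_fml _ _ _).2 ((realize_fml _ _ y).1 hy))) x
  · exact transfer hM ((fml R hR).relabel f) (fml _ (Good.preimage f hR))
      (fun y hy => (realize_fml _ _ y).2
      ((realize_fml R hR (y ∘ f)).1 (Formula.realize_relabel.1 hy))) x

theorem Ip_ex {α : Type} [Finite α] {R : Set (Option α → Pt)} (hR : Good R) (x : α → M) :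
    x ∈ Ip M {x : α → Pt | ∃ y, ext x y ∈ R} (Good.ex hR) ↔ ∃ y, ext x y ∈ Ip M R hR := by
  set g : Option α → α ⊕ Unit := fun o => Option.elim o (Sum.inr ()) Sum.inl with hg
  have h0 : ∀ (N : Type u) [Lg.Structure N] (x : α → N),
      (((fml R hR).relabel g).iExs Unit).Realize x ↔ ∃ y, (fml R hR).Realize (ext x y) := by
    intro N _ x
    rw [Formula.realize_iExs]
    have h2 : ∀ i : Unit → N, Sum.elim x i ∘ g = ext x (i ()) := by
      intro i
      funext o
      cases o <;> rfl
    constructor
    · rintro ⟨i, hi⟩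
      rw [Formula.realize_relabel, h2] at hi
      exact ⟨_, hi⟩
    · rintro ⟨y, hy⟩
      refine ⟨fun _ => y, ?_⟩
      rw [Formula.realize_relabel, h2]
      exact hy
  have h0' : ∀ (x : α → Pt),
      (((fml R hR).relabel g).iExs Unit).Realize x ↔ ∃ y, (fml R hR).Realize (ext x y) := by
    intro x
    rw [Formula.realize_iExs]
    have h2 : ∀ i : Unit → Pt, Sum.elim x i ∘ g = ext x (i ()) := by
      intro i
      funext o
      cases o <;> rfl
    constructor
    · rintro ⟨i, hi⟩
      rw [Formula.realize_relabel, h2] at hi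
      exact ⟨_, hi⟩
    · rintro ⟨y, hy⟩
      refine ⟨fun _ => y, ?_⟩
      rw [Formula.realize_relabel, h2]
      exact hy
  have h1 : (∃ y, ext x y ∈ Ip M R hR) ↔ (((fml R hR).relabel g).iExs Unit).Realize x :=
    (h0 M x).symm
  rw [h1]
  constructor
  · refine transfer hM _ _ (fun y hy => (h0' y).2 ?_) x
    obtain ⟨z, hz⟩ := (realize_fml _ _ y).1 hy
    exact ⟨z, (realize_fml _ _ _).2 hz⟩
  · refine transfer hM _ _ (fun y hy => (realize_fml _ _ y).2 ?_) x
    obtain ⟨z, hz⟩ := (h0' y).1 hy
    exact ⟨z, (realize_fml _ _ _).1 hz⟩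

/-- A nonempty good relation has a nonempty interpretation. -/
theorem Ip_nonempty {α : Type} [Finite α] {R : Set (α → Pt)} (hR : Good R) (h : R.Nonempty) :
    (Ip M R hR).Nonempty := by
  by_contra hne
  rw [Set.not_nonempty_iff_eq_empty] at hne
  have h1 : M ⊨ ucl (fml R hR).not := by
    rw [realize_ucl]
    intro x
    rw [Formula.realize_not]
    intro hx
    have h2 : x ∈ Ip M R hR := hx
    rw [hne] at h2
    exact h2
  have : M ⊨ Lg.completeTheory Pt := hM
  have h2 : Pt ⊨ ucl (fml R hR).not := (realize_iff_of_model_completeTheory Pt M _).1 h1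
  rw [realize_ucl] at h2
  obtain ⟨x, hx⟩ := h
  exact Formula.realize_not.1 (h2 x) ((realize_fml _ _ x).2 hx)

omit hM

theorem Ip_elem {N : Type u} [Lg.Structure N] (f : M ↪ₑ[Lg] N) {α : Type} [Finite α]
    {R : Set (α → Pt)} (hR : Good R) (x : α → M) : f ∘ x ∈ Ip N R hR ↔ x ∈ Ip M R hR :=
  f.map_formula _ _

/-- An elementary extension of a model is a model. -/
theorem model_of_elem (hM : M ⊨ Tth) {N : Type u} [Lg.Structure N] (f : M ↪ₑ[Lg] N) :
    N ⊨ Tth := (f.theory_model_iff Tth).1 hM

end

end Pool.Agent.H13.NipSeq
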