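import Mathlib

/-!
Global types, NIP, forking and Morley sequences: definitions.

Formulas `φ : L.Formula (Option (Fin m))` have the variable `x` at `none` and `m` further
variables `y` at `some i`, which are used for parameters.
-/

set_option autoImplicit false

open FirstOrder FirstOrder.Language

namespace Pool.Agent.H13.NipSeq

universe u

/-- The assignment `x ↦ a`, `y ↦ b` for the formulas `φ(x, y)`. -/
def asg {m : ℕ} {M : Type u} (b : Fin m → M) (a : M) : Option (Fin m) → M :=
  fun o => Option.elim o a b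

section

variable (L : FirstOrder.Language.{0, 0}) (M : Type u) [L.Structure M]

/-- A formula `φ(x, b)` with parameters `b` in `M`. -/
structure PFormula where
  m : ℕ
  φ : L.Formula (Option (Fin m))
  b : Fin m → M

variable {L M}

/-- `a` satisfies the formula `φ(x, b)`. -/
def PFormula.Sat (q : PFormula L M) (a : M) : Prop := q.φ.Realize (asg q.b a)

/-- The parameters of the formula lie in `A`. -/
def PFormula.Over (q : PFormula L M) (A : Set M) : Prop := ∀ i, q.b i ∈ A

variable (L M)

/-- A global type: a complete type over `M` in one variable, i.e. a set of formulas with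
parameters in `M` which is finitely satisfiable in `M` and contains every formula or its
negation. -/
structure GlobalType where
  mem : PFormula L M → Prop
  fin_sat : ∀ s : Finset (PFormula L M), (∀ q ∈ s, mem q) → ∃ a : M, ∀ q ∈ s, q.Sat a
  complete : ∀ (m : ℕ) (φ : L.Formula (Option (Fin m))) (b : Fin m → M),
    mem ⟨m, φ, b⟩ ∨ mem ⟨m, φ.not, b⟩

/-- `κ`-saturation: every finitely satisfiable set of formulas in one variable over a set of
fewer than `κ` parameters is satisfiable in `M`. -/
def IsSaturated (κ : Cardinal.{u}) : Prop :=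
  ∀ A : Set M, Cardinal.mk A < κ → ∀ Γ : Set (PFormula L M), (∀ q ∈ Γ, q.Over A) →
    (∀ s : Finset (PFormula L M), (∀ q ∈ s, q ∈ Γ) → ∃ a : M, ∀ q ∈ s, q.Sat a) →
      ∃ a : M, ∀ q ∈ Γ, q.Sat a

/-- A set `X` of elements has IP: there are a formula `φ(x, y)` and tuples `b i`, `i < ω`, such
that for every `S ⊆ ω` some `a ∈ X` satisfies `φ(a, b i)` exactly for `i ∈ S`. -/
def HasIP (X : Set M) : Prop :=
  ∃ (m : ℕ) (φ : L.Formula (Option (Fin m))) (b : ℕ → Fin m → M),
    ∀ S : Set ℕ, ∃ a ∈ X, ∀ i : ℕ, φ.Realize (asg (b i) a) ↔ i ∈ S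

variable {L M}

/-- The realizations in `M` of the restriction `p ↾ B`. -/
def GlobalType.realizations (p : GlobalType L M) (B : Set M) : Set M :=
  {a | ∀ q : PFormula L M, q.Over B → p.mem q → q.Sat a}

/-- The realizations of `p` in an elementary extension `N` of `M`. -/
def GlobalType.realizationsIn (p : GlobalType L M) {N : Type u} [L.Structure N]
    (f : M ↪ₑ[L] N) : Set N :=
  {a | ∀ q : PFormula L M, p.mem q → q.φ.Realize (asg (f ∘ q.b) a)}

/-- The restriction `p ↾ B`, a partial type over `B ⊆ M`, has IP. -/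
def GlobalType.RestrictionHasIP (p : GlobalType L M) (B : Set M) : Prop :=
  HasIP L M (p.realizations B)

/-- `p` is NIP: in no elementary extension of `M` the set of its realizations has IP. -/
def GlobalType.IsNIP (p : GlobalType L M) : Prop :=
  ∀ (N : Type u) [L.Structure N] (f : M ↪ₑ[L] N), ¬ HasIP L N (p.realizationsIn f)

/-- Two `m`-tuples have the same type over `A`. -/
def SameType (L : FirstOrder.Language.{0, 0}) {M : Type u} [L.Structure M] (A : Set M) {m : ℕ}
    (b c : Fin m → M) : Prop :=
  ∀ (n : ℕ) (ψ : L.Formula (Fin m ⊕ Fin n)) (e : Fin n → M), (∀ i, e i ∈ A) →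
    (ψ.Realize (Sum.elim b e) ↔ ψ.Realize (Sum.elim c e))

/-- `φ(x, b)` divides over `A`: for some `k` and some `c i ≡_A b`, `i < ω`, no element satisfies
`k` of the formulas `φ(x, c i)`. -/
def PFormula.Divides (q : PFormula L M) (A : Set M) : Prop :=
  ∃ (k : ℕ) (c : ℕ → Fin q.m → M), (∀ i, SameType L A q.b (c i)) ∧
    ∀ s : Finset ℕ, s.card = k → ¬ ∃ a : M, ∀ i ∈ s, q.φ.Realize (asg (c i) a)

/-- `φ(x, b)` forks over `A`: it implies a finite disjunction of formulas dividing over `A`. -/
def PFormula.Forks (q : PFormula L M) (A : Set M) : Prop :=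
  ∃ s : Finset (PFormula L M), (∀ r ∈ s, r.Divides A) ∧ ∀ a : M, q.Sat a → ∃ r ∈ s, r.Sat a

/-- `p` does not fork over `A`. -/
def GlobalType.NonForking (p : GlobalType L M) (A : Set M) : Prop :=
  ∀ q : PFormula L M, p.mem q → ¬ q.Forks A

/-- `(a i)` is indiscernible over `A`. -/
def Indiscernible (L : FirstOrder.Language.{0, 0}) {M : Type u} [L.Structure M] (A : Set M)
    (a : ℕ → M) : Prop :=
  ∀ (n : ℕ) (i j : Fin n → ℕ), StrictMono i → StrictMono j → SameType L A (a ∘ i) (a ∘ j)

/-- `(a i)` is a Morley sequence of `p` over `A`. -/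
def GlobalType.IsMorley (p : GlobalType L M) (A : Set M) (a : ℕ → M) : Prop :=
  Indiscernible L A a ∧ ∀ i, a i ∈ p.realizations (A ∪ {x | ∃ j < i, x = a j})

end

end Pool.Agent.H13.NipSeq
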