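import Mathlib
import Pool.Agent.H13.NipSeq.Lang
import Pool.Agent.H13.NipSeq.Types

/-!
Saturated models and good relations.
-/

set_option autoImplicit false

open FirstOrder FirstOrder.Language Cardinal

namespace Pool.Agent.H13.NipSeq

universe u

theorem satAux_finset {α ι : Type} [Finite α] {R : ι → Set (α → Pt)}
    (h : ∀ i, Good (R i)) (s : Finset ι) : Good {x | ∀ i ∈ s, x ∈ R i} := by
  classical
  induction s using Finset.induction_on with
  | empty =>
    convert (Good.univ (α := α)) using 1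
    ext x
    simp
  | insert a s _ ih =>
    convert (h a).inter ih using 1
    ext x
    simp

theorem Good.forall {α ι : Type} [Finite α] [Finite ι] {R : ι → Set (α → Pt)}
    (h : ∀ i, Good (R i)) : Good {x | ∀ i, x ∈ R i} := by
  classical
  have := Fintype.ofFinite ι
  convert satAux_finset h Finset.univ using 1
  ext x
  simp

theorem Good.iInter {α ι : Type} [Finite α] [Finite ι] {R : ι → Set (α → Pt)}
    (h : ∀ i, Good (R i)) : Good (⋂ i, R i) := by
  convert Good.forall h using 1
  ext x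
  simp

section

variable {M : Type u} [Lg.Structure M] (hM : M ⊨ Tth)

include hM

theorem satAux_Ip {α ι : Type} [Finite α] {R : ι → Set (α → Pt)}
    (h : ∀ i, Good (R i)) (s : Finset ι) (x : α → M) (hx : ∀ i ∈ s, x ∈ Ip M (R i) (h i)) :
    x ∈ Ip M {x | ∀ i ∈ s, x ∈ R i} (satAux_finset h s) := by
  classical
  induction s using Finset.induction_on with
  | empty =>
    exact Ip_mono hM Good.univ _ (fun y _ => by simp) (Ip_univ hM x)
  | insert a s _ ih =>
    have h1 := ih (fun i hi => hx i (Finset.mem_insert_of_mem hi))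
    have h2 := hx a (Finset.mem_insert_self a s)
    refine Ip_mono hM ((h a).inter (satAux_finset h s)) _ ?_ ((Ip_inter hM _ _ x).2 ⟨h2, h1⟩)
    rintro y ⟨hy1, hy2⟩ i hi
    rcases Finset.mem_insert.1 hi with rfl | hi
    · exact hy1
    · exact hy2 i hi

theorem Ip_forall {α ι : Type} [Finite α] [Finite ι] {R : ι → Set (α → Pt)}
    (h : ∀ i, Good (R i)) (x : α → M) :
    x ∈ Ip M {x | ∀ i, x ∈ R i} (Good.forall h) ↔ ∀ i, x ∈ Ip M (R i) (h i) := by
  classical
  constructor
  · intro hx i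
    exact Ip_mono hM (Good.forall h) (h i) (fun y (hy : ∀ i, y ∈ R i) => hy i) hx
  · intro hx
    have := Fintype.ofFinite ι
    exact Ip_mono hM (satAux_finset h Finset.univ) _ (fun y hy i => hy i (Finset.mem_univ i))
      (satAux_Ip hM h Finset.univ x (fun i _ => hx i))

/-- Saturation for directed families of good relations over a finite tuple of parameters: use
the formulas `(fml (S i) _).relabel (Option.map e)` with `e : α ≃ Fin m` and the parameter set
`Set.range b`. -/
theorem sat_good {κ : Cardinal.{u}} (hκ : ℵ₀ < κ) (hs : IsSaturated Lg M κ) {α ι : Type}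
    [Finite α] [Nonempty ι] (b : α → M) (S : ι → Set (Option α → Pt)) (hS : ∀ i, Good (S i))
    (hdir : ∀ i j, ∃ k, S k ⊆ S i ∧ S k ⊆ S j)
    (hsat : ∀ i, ∃ y, ext b y ∈ Ip M (S i) (hS i)) :
    ∃ y, ∀ i, ext b y ∈ Ip M (S i) (hS i) := by
  classical
  let e := Finite.equivFin α
  let q : ι → PFormula Lg M := fun i =>
    ⟨Nat.card α, (fml (S i) (hS i)).relabel (Option.map e), b ∘ e.symm⟩
  have hq : ∀ i y, (q i).Sat y ↔ ext b y ∈ Ip M (S i) (hS i) := by
    intro i y
    unfold PFormula.Sat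
    change ((fml (S i) (hS i)).relabel (Option.map e)).Realize (asg (b ∘ e.symm) y) ↔ _
    rw [Formula.realize_relabel]
    have : asg (b ∘ e.symm) y ∘ Option.map e = ext b y := by
      funext o
      cases o with
      | none => rfl
      | some i =>
        change b (e.symm (e i)) = b i
        rw [Equiv.symm_apply_apply]
    rw [this]
    rfl
  have hfin : ∀ s : Finset (PFormula Lg M), (∀ p ∈ s, p ∈ Set.range q) →
      ∃ k, ∀ p ∈ s, ∀ y, ext b y ∈ Ip M (S k) (hS k) → p.Sat y := by
    intro s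
    induction s using Finset.induction_on with
    | empty =>
      intro _
      exact ⟨Classical.arbitrary ι, by simp⟩
    | insert p s _ ih =>
      intro h
      obtain ⟨k, hk⟩ := ih (fun p' hp' => h p' (Finset.mem_insert_of_mem hp'))
      obtain ⟨i, rfl⟩ := h p (Finset.mem_insert_self _ _)
      obtain ⟨l, hl1, hl2⟩ := hdir i k
      refine ⟨l, fun p' hp' y hy => ?_⟩
      rcases Finset.mem_insert.1 hp' with rfl | hp'
      · exact (hq i y).2 (Ip_mono hM _ _ hl1 hy)
      · exact hk p' hp' y (Ip_mono hM _ _ hl2 hy)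
  have hA : Cardinal.mk (Set.range b) < κ := by
    refine lt_trans ?_ hκ
    have : Finite (Set.range b) := Set.finite_range b
    exact Cardinal.lt_aleph0_of_finite _
  obtain ⟨y, hy⟩ := hs (Set.range b) hA (Set.range q) (by
    rintro _ ⟨i, rfl⟩ j
    exact ⟨e.symm j, rfl⟩) (by
    intro s h
    obtain ⟨k, hk⟩ := hfin s h
    obtain ⟨y, hy⟩ := hsat k
    exact ⟨y, fun p hp => hk p hp y hy⟩)
  exact ⟨y, fun i => (hq i y).1 (hy (q i) ⟨i, rfl⟩)⟩

omit hM

/-- some point -/
def satAuxPt : Pt where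
  v := 0
  s := 0
  h := fun _ => 0
  m := fun _ => 0
  hh := fun _ _ _ => rfl
  hm := fun _ _ _ => rfl

/-- The projection of `W` to the first `j` variables. -/
def Epr {α : Type} {N : ℕ} (W : Set (α ⊕ Fin N → Pt)) (j : ℕ) : Set (α ⊕ Fin j → Pt) :=
  {z | ∃ c : ℕ → Pt, (∀ l : Fin j, c l = z (Sum.inr l)) ∧
    Sum.elim (fun i => z (Sum.inl i)) (fun l : Fin N => c l) ∈ W}

theorem satAux_inl {α : Type} {j : ℕ} {X : Type*} (z : α ⊕ Fin j → X) (y : X) (i : α) :
    (ext z y ∘ qren α j) (Sum.inl i) = z (Sum.inl i) := rfl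

theorem satAux_cast {α : Type} {j : ℕ} {X : Type*} (z : α ⊕ Fin j → X) (y : X) (l : Fin j) :
    (ext z y ∘ qren α j) (Sum.inr l.castSucc) = z (Sum.inr l) := by
  simp [qren]

theorem satAux_last {α : Type} {j : ℕ} {X : Type*} (z : α ⊕ Fin j → X) (y : X) :
    (ext z y ∘ qren α j) (Sum.inr (Fin.last j)) = y := by
  simp [qren]

theorem satAux_Epr {α : Type} {N : ℕ} (W : Set (α ⊕ Fin N → Pt)) (j : ℕ) :
    Epr W j = {z | ∃ y, ext z y ∈ {w : Option (α ⊕ Fin j) → Pt |
      w ∘ qren α j ∈ Epr W (j + 1)}} := by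
  ext z
  constructor
  · rintro ⟨c, hc, hW⟩
    refine ⟨c j, c, ?_, ?_⟩
    · intro l
      induction l using Fin.lastCases with
      | last => rw [satAux_last]; rfl
      | cast l => rw [satAux_cast, ← hc l]; rfl
    · exact hW
  · rintro ⟨y, c, hc, hW⟩
    refine ⟨c, fun l => ?_, hW⟩
    have := hc l.castSucc
    rw [satAux_cast] at this
    exact this

theorem satAux_ge {α : Type} {N : ℕ} (W : Set (α ⊕ Fin N → Pt)) (j : ℕ) (h : N ≤ j) :
    Epr W j = {z | z ∘ (Sum.map id (Fin.castLE h)) ∈ W} := by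
  ext z
  have key : ∀ c : ℕ → Pt, (∀ l : Fin j, c l = z (Sum.inr l)) →
      Sum.elim (fun i => z (Sum.inl i)) (fun l : Fin N => c l) =
        z ∘ (Sum.map id (Fin.castLE h)) := by
    intro c hc
    funext o
    cases o with
    | inl i => rfl
    | inr l =>
      have := hc (Fin.castLE h l)
      exact this
  constructor
  · rintro ⟨c, hc, hW⟩
    rw [key c hc] at hW
    exact hW
  · intro hW
    have hc : ∀ l : Fin j, (fun l : ℕ => if h : l < j then z (Sum.inr ⟨l, h⟩) else satAuxPt) l =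
        z (Sum.inr l) := by
      intro l
      simp
    refine ⟨(fun l : ℕ => if h : l < j then z (Sum.inr ⟨l, h⟩) else satAuxPt), hc, ?_⟩
    rw [key (fun l : ℕ => if h : l < j then z (Sum.inr ⟨l, h⟩) else satAuxPt) hc]
    exact hW

/-- For `j ≥ N` this is a preimage of `W`; for `j < N` it is obtained from `Epr W (j + 1)` by
an existential quantifier (induction on `N - j`). -/
theorem Epr_good {α : Type} [Finite α] {N : ℕ} {W : Set (α ⊕ Fin N → Pt)} (hW : Good W)
    (j : ℕ) : Good (Epr W j) := by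
  have h : ∀ k j, N ≤ j + k → Good (Epr W j) := by
    intro k
    induction k with
    | zero =>
      intro j hj
      rw [satAux_ge W j (by omega)]
      exact Good.preimage _ hW
    | succ k ih =>
      intro j hj
      rw [satAux_Epr]
      exact Good.ex (Good.preimage (qren α j) (ih (j + 1) (by omega)))
  exact h N j (by omega)

include hM

theorem satAux_step {κ : Cardinal.{u}} (hκ : ℵ₀ < κ) (hs : IsSaturated Lg M κ) {α ι : Type}
    [Finite α] [Nonempty ι] (a : α → M) (N : ι → ℕ) (W : ∀ i, Set (α ⊕ Fin (N i) → Pt))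
    (hW : ∀ i, Good (W i))
    (hdir : ∀ i j, ∃ k, ∃ (hi : N i ≤ N k) (hj : N j ≤ N k), ∀ z : α ⊕ Fin (N k) → Pt, z ∈ W k →
      z ∘ Sum.map id (Fin.castLE hi) ∈ W i ∧ z ∘ Sum.map id (Fin.castLE hj) ∈ W j)
    (j : ℕ) (c : Fin j → M) (hc : ∀ i, Sum.elim a c ∈ Ip M (Epr (W i) j) (Epr_good (hW i) j)) :
    ∃ y, ∀ i, Sum.elim a (Fin.snoc (α := fun _ => M) c y) ∈
      Ip M (Epr (W i) (j + 1)) (Epr_good (hW i) (j + 1)) := by
  have hext : ∀ y, ext (Sum.elim a c) y ∘ qren α j =
      Sum.elim a (Fin.snoc (α := fun _ => M) c y) := by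
    intro y
    funext o
    rcases o with i | l
    · rfl
    · induction l using Fin.lastCases with
      | last => rw [satAux_last]; simp
      | cast l => rw [satAux_cast]; simp
  have hsub : ∀ i k (hi : N i ≤ N k), (∀ z : α ⊕ Fin (N k) → Pt, z ∈ W k →
      z ∘ Sum.map id (Fin.castLE hi) ∈ W i) → Epr (W k) (j + 1) ⊆ Epr (W i) (j + 1) := by
    rintro i k hi h z ⟨d, hd, hdW⟩
    refine ⟨d, hd, ?_⟩
    have := h _ hdW
    convert this using 1
    funext o
    rcases o with i | l
    · rfl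
    · rfl
  obtain ⟨y, hy⟩ := sat_good hM hκ hs (Sum.elim a c)
    (fun i => {w : Option (α ⊕ Fin j) → Pt | w ∘ qren α j ∈ Epr (W i) (j + 1)})
    (fun i => Good.preimage (qren α j) (Epr_good (hW i) (j + 1)))
    (by
      intro i i'
      obtain ⟨k, hi, hi', h⟩ := hdir i i'
      exact ⟨k, fun w hw => hsub i k hi (fun z hz => (h z hz).1) hw,
        fun w hw => hsub i' k hi' (fun z hz => (h z hz).2) hw⟩)
    (by
      intro i
      rw [← Ip_ex hM]
      exact Ip_mono hM _ _ (satAux_Epr (W i) j).subset (hc i))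
  refine ⟨y, fun i => ?_⟩
  have := hy i
  rw [Ip_preimage hM, hext] at this
  exact this

/-- A directed family of good relations in finitely many of the variables `c 0, c 1, …` is
realized by one sequence: choose `c 0, c 1, …` successively by `sat_good`, keeping all the
projections `Epr (W i) j` true. -/
theorem exists_seq {κ : Cardinal.{u}} (hκ : ℵ₀ < κ) (hs : IsSaturated Lg M κ) {α ι : Type}
    [Finite α] [Nonempty ι] (a : α → M) (N : ι → ℕ) (W : ∀ i, Set (α ⊕ Fin (N i) → Pt))
    (hW : ∀ i, Good (W i))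
    (hdir : ∀ i j, ∃ k, ∃ (hi : N i ≤ N k) (hj : N j ≤ N k), ∀ z : α ⊕ Fin (N k) → Pt, z ∈ W k →
      z ∘ Sum.map id (Fin.castLE hi) ∈ W i ∧ z ∘ Sum.map id (Fin.castLE hj) ∈ W j)
    (h0 : ∀ i, Sum.elim a (fun l : Fin 0 => l.elim0) ∈ Ip M (Epr (W i) 0) (Epr_good (hW i) 0)) :
    ∃ c : ℕ → M, ∀ i, Sum.elim a (fun l : Fin (N i) => c l) ∈ Ip M (W i) (hW i) := by
  classical
  let St : ℕ → Type u := fun j =>
    {c : Fin j → M // ∀ i, Sum.elim a c ∈ Ip M (Epr (W i) j) (Epr_good (hW i) j)}
  let step : ∀ j, St j → St (j + 1) := fun j c =>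
    ⟨Fin.snoc (α := fun _ => M) c.1
      (satAux_step hM hκ hs a N W hW hdir j c.1 c.2).choose,
      (satAux_step hM hκ hs a N W hW hdir j c.1 c.2).choose_spec⟩
  let st : ∀ j, St j := fun j => Nat.rec (motive := St) ⟨fun l => l.elim0, h0⟩ step j
  have hst : ∀ j, st (j + 1) = step j (st j) := fun j => rfl
  let c : ℕ → M := fun n => (st (n + 1)).1 (Fin.last n)
  have hc : ∀ j (l : Fin j), (st j).1 l = c l := by
    intro j
    induction j with
    | zero => exact fun l => l.elim0
    | succ j ih =>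
      intro l
      induction l using Fin.lastCases with
      | last => rfl
      | cast l =>
        rw [hst]
        change Fin.snoc (α := fun _ => M) (st j).1 _ l.castSucc = _
        rw [Fin.snoc_castSucc]
        exact ih l
  refine ⟨c, fun i => ?_⟩
  have h1 := (st (N i)).2 i
  have h2 : (st (N i)).1 = fun l : Fin (N i) => c l := funext (hc (N i))
  rw [h2] at h1
  refine Ip_mono hM _ _ ?_ h1
  rw [satAux_ge (W i) (N i) le_rfl]
  intro z hz
  convert (show z ∘ Sum.map id (Fin.castLE le_rfl) ∈ W i from hz) using 1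
  funext o
  rcases o with i | l
  · rfl
  · rfl

end

end Pool.Agent.H13.NipSeq
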