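import Mathlib
import Pool.Agent.H13.NipSeq.Sat
import Pool.Agent.H13.NipSeq.Nip

/-!
The global type over a model.
-/

set_option autoImplicit false

open FirstOrder FirstOrder.Language Cardinal

namespace Pool.Agent.H13.NipSeq

universe u

theorem glob_ext_comp_map {α β : Type} {M : Type*} (f : α → β) (b : β → M) (y : M) :
    ext b y ∘ Option.map f = ext (b ∘ f) y := by
  funext o
  cases o <;> rfl

theorem gen_preimage {α β : Type} (f : α → β) (R : Set (Option α → Pt)) :
    gen {x : Option β → Pt | x ∘ Option.map f ∈ R} = {b : β → Pt | b ∘ f ∈ gen R} := by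
  ext b
  constructor
  · rintro ⟨v₀, E, h⟩
    refine ⟨v₀, E, fun v hv s hs => ?_⟩
    have h1 := h v hv s hs
    rw [Set.mem_ofPred_eq, glob_ext_comp_map] at h1
    exact h1
  · rintro ⟨v₀, E, h⟩
    refine ⟨v₀, E, fun v hv s hs => ?_⟩
    rw [Set.mem_ofPred_eq, glob_ext_comp_map]
    exact h v hv s hs

section

variable {M : Type u} [Lg.Structure M] (hM : M ⊨ Tth)

include hM

theorem Ip_gen_ex {α : Type} [Finite α] {R : Set (Option α → Pt)} (hR : Good R) (b : α → M)
    (h : b ∈ Ip M (gen R) (gen_good hR)) : ∃ y, ext b y ∈ Ip M R hR :=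
  (Ip_ex hM hR b).1 (Ip_mono hM (gen_good hR) (Good.ex hR) (fun _ hx => gen_ex hx) h)

theorem Ip_gen_or {α : Type} [Finite α] {R : Set (Option α → Pt)} (hR : Good R) (b : α → M) :
    b ∈ Ip M (gen R) (gen_good hR) ∨ b ∈ Ip M (gen Rᶜ) (gen_good hR.compl) := by
  by_cases h : b ∈ Ip M (gen R) (gen_good hR)
  · exact Or.inl h
  · right
    have h1 := (Ip_compl hM (gen_good hR) b).2 h
    refine Ip_mono hM (gen_good hR).compl (gen_good hR.compl) ?_ h1
    intro x hx
    exact (gen_or hR x).resolve_left hx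

theorem Ip_gen_inter {α : Type} [Finite α] {R S : Set (Option α → Pt)} (hR : Good R)
    (hS : Good S) (b : α → M) (h : b ∈ Ip M (gen R) (gen_good hR))
    (h' : b ∈ Ip M (gen S) (gen_good hS)) : b ∈ Ip M (gen (R ∩ S)) (gen_good (hR.inter hS)) := by
  have h1 := (Ip_inter hM (gen_good hR) (gen_good hS) b).2 ⟨h, h'⟩
  exact Ip_mono hM ((gen_good hR).inter (gen_good hS)) (gen_good (hR.inter hS))
    (fun x hx => gen_inter hx.1 hx.2) h1

theorem Ip_gen_preimage {α β : Type} [Finite α] [Finite β] (f : α → β)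
    {R : Set (Option α → Pt)} (hR : Good R) (b : β → M) :
    b ∈ Ip M (gen {x : Option β → Pt | x ∘ Option.map f ∈ R})
      (gen_good (Good.preimage (Option.map f) hR)) ↔ b ∘ f ∈ Ip M (gen R) (gen_good hR) := by
  rw [← Ip_preimage hM f (gen_good hR) b]
  constructor
  · intro h
    exact Ip_mono hM _ _ (gen_preimage f R).le h
  · intro h
    exact Ip_mono hM _ _ (gen_preimage f R).ge h

/-- a formula holds at a tuple iff the tuple lies in the interpretation -/
theorem glob_sat (q : PFormula Lg M) (a : M) :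
    q.Sat a ↔ ext q.b a ∈ Ip M {x : Option (Fin q.m) → Pt | q.φ.Realize x}
      (good_of_formula q.φ) := by
  rw [← Ip_formula hM q.φ (ext q.b a)]
  rfl

/-- finitely many formulas are implied by one good relation -/
theorem glob_join (s : Finset (PFormula Lg M)) (hs : ∀ q ∈ s,
    q.b ∈ Ip M (gen {x : Option (Fin q.m) → Pt | q.φ.Realize x})
      (gen_good (good_of_formula q.φ))) :
    ∃ (α : Type) (_ : Finite α) (R : Set (Option α → Pt)) (hR : Good R) (b : α → M),
      b ∈ Ip M (gen R) (gen_good hR) ∧ ∀ a, ext b a ∈ Ip M R hR → ∀ q ∈ s, q.Sat a := by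
  classical
  induction s using Finset.induction_on with
  | empty =>
    refine ⟨Empty, inferInstance, Set.univ, Good.univ, fun e => e.elim, ?_, ?_⟩
    · refine Ip_mono hM Good.univ _ ?_ (Ip_univ hM _)
      intro x _
      exact ⟨0, ∅, fun _ _ _ _ => trivial⟩
    · intro a _ q hq
      exact absurd hq (Finset.notMem_empty q)
  | insert q s _ ih =>
    obtain ⟨α, hα, R, hR, b, hb, hsat⟩ := ih fun r hr => hs r (Finset.mem_insert_of_mem hr)
    have hq := hs q (Finset.mem_insert_self q s)
    have hR1 : Good {x : Option (α ⊕ Fin q.m) → Pt | x ∘ Option.map Sum.inl ∈ R} :=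
      Good.preimage (Option.map Sum.inl) hR
    have hR2 : Good {x : Option (α ⊕ Fin q.m) → Pt | x ∘ Option.map Sum.inr ∈
        {x : Option (Fin q.m) → Pt | q.φ.Realize x}} :=
      Good.preimage (Option.map Sum.inr) (good_of_formula q.φ)
    refine ⟨α ⊕ Fin q.m, inferInstance, _, hR1.inter hR2, Sum.elim b q.b, ?_, ?_⟩
    · apply Ip_gen_inter hM hR1 hR2
      · exact (Ip_gen_preimage hM Sum.inl hR (Sum.elim b q.b)).2 hb
      · exact (Ip_gen_preimage hM Sum.inr (good_of_formula q.φ) (Sum.elim b q.b)).2 hq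
    · intro a ha r hr
      rw [Ip_inter hM hR1 hR2] at ha
      have h1 := (Ip_preimage hM (Option.map Sum.inl) hR (ext (Sum.elim b q.b) a)).1 ha.1
      have h2 := (Ip_preimage hM (Option.map Sum.inr) (good_of_formula q.φ)
        (ext (Sum.elim b q.b) a)).1 ha.2
      rw [glob_ext_comp_map] at h1 h2
      rcases Finset.mem_insert.1 hr with rfl | hr
      · exact (glob_sat hM r a).2 h2
      · exact hsat a h1 r hr

/-- The global type: `φ(x, b) ∈ p` iff `b` lies in `gen` of the relation defined by `φ`.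
(For `fin_sat` join the finitely many parameter tuples: induction on the finite set with the
statement: there are a finite type `α`, a good `R` and `b : α → M` in `Ip M (gen R)` such that
every `a` with `ext b a ∈ Ip M R` satisfies all the formulas.) -/
theorem exists_global : ∃ p : GlobalType Lg M, ∀ q : PFormula Lg M,
    p.mem q ↔ q.b ∈ Ip M (gen {x : Option (Fin q.m) → Pt | q.φ.Realize x})
      (gen_good (good_of_formula q.φ)) := by
  refine ⟨⟨fun q => q.b ∈ Ip M (gen {x : Option (Fin q.m) → Pt | q.φ.Realize x})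
      (gen_good (good_of_formula q.φ)), ?_, ?_⟩, fun q => Iff.rfl⟩
  · intro s hs
    obtain ⟨α, hα, R, hR, b, hb, hsat⟩ := glob_join hM s hs
    obtain ⟨a, ha⟩ := Ip_gen_ex hM hR b hb
    exact ⟨a, hsat a ha⟩
  · intro m φ b
    rcases Ip_gen_or hM (good_of_formula φ) b with h | h
    · exact Or.inl h
    · right
      refine Ip_mono hM _ _ (gen_mono ?_) h
      intro x hx
      exact Formula.realize_not.2 hx

/-- The formulas of `p` in terms of good relations. -/
theorem mem_fml (p : GlobalType Lg M) (hp : ∀ q : PFormula Lg M,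
    p.mem q ↔ q.b ∈ Ip M (gen {x : Option (Fin q.m) → Pt | q.φ.Realize x})
      (gen_good (good_of_formula q.φ))) {m : ℕ} {R : Set (Option (Fin m) → Pt)} (hR : Good R)
    (b : Fin m → M) : p.mem ⟨m, fml R hR, b⟩ ↔ b ∈ Ip M (gen R) (gen_good hR) := by
  rw [hp]
  constructor
  · intro h
    refine Ip_mono hM _ _ (gen_mono ?_) h
    intro x hx
    exact (realize_fml R hR x).1 hx
  · intro h
    refine Ip_mono hM _ _ (gen_mono ?_) h
    intro x hx
    exact (realize_fml R hR x).2 hx

/-- The type does not fork over the empty set: a formula forking over `∅` in `p` gives a formula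
dividing over `∅` in `p`; all its conjugates are in `p`, since `p` is definable over `∅`. -/
theorem nonForking (p : GlobalType Lg M) (hp : ∀ q : PFormula Lg M,
    p.mem q ↔ q.b ∈ Ip M (gen {x : Option (Fin q.m) → Pt | q.φ.Realize x})
      (gen_good (good_of_formula q.φ))) : p.NonForking ∅ := by
  classical
  intro q hq hfork
  obtain ⟨s, hdiv, himp⟩ := hfork
  -- some dividing formula belongs to `p`
  have hex : ∃ r ∈ s, p.mem r := by
    by_contra hcon
    push Not at hcon
    let neg : PFormula Lg M → PFormula Lg M := fun r => ⟨r.m, r.φ.not, r.b⟩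
    obtain ⟨a, ha⟩ := p.fin_sat (insert q (s.image neg)) (by
      intro r hr
      rcases Finset.mem_insert.1 hr with rfl | hr
      · exact hq
      · obtain ⟨r', hr', rfl⟩ := Finset.mem_image.1 hr
        exact (p.complete r'.m r'.φ r'.b).resolve_left (hcon r' hr'))
    obtain ⟨r, hr, hra⟩ := himp a (ha q (Finset.mem_insert_self _ _))
    have h1 := ha (neg r) (Finset.mem_insert_of_mem (Finset.mem_image_of_mem neg hr))
    exact Formula.realize_not.1 h1 hra
  obtain ⟨r, hr, hrp⟩ := hex
  obtain ⟨k, c, hc, hk⟩ := hdiv r hr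
  have hcp : ∀ i, p.mem ⟨r.m, r.φ, c i⟩ := by
    intro i
    rw [hp]
    have h1 := (hp r).1 hrp
    have h2 := hc i 0 ((fml (gen {x : Option (Fin r.m) → Pt | r.φ.Realize x})
      (gen_good (good_of_formula r.φ))).relabel Sum.inl) (fun l => l.elim0) (fun l => l.elim0)
    rw [Formula.realize_relabel, Formula.realize_relabel] at h2
    exact h2.1 h1
  obtain ⟨a, ha⟩ := p.fin_sat ((Finset.range k).image fun i => ⟨r.m, r.φ, c i⟩) (by
    intro q' hq'
    obtain ⟨i, _, rfl⟩ := Finset.mem_image.1 hq'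
    exact hcp i)
  refine hk (Finset.range k) (Finset.card_range k) ⟨a, fun i hi => ?_⟩
  exact ha ⟨r.m, r.φ, c i⟩ (Finset.mem_image.2 ⟨i, hi, rfl⟩)

/-- The type is NIP: `nip_count` and `sec_gen`. -/
theorem isNIP (p : GlobalType Lg M) (hp : ∀ q : PFormula Lg M,
    p.mem q ↔ q.b ∈ Ip M (gen {x : Option (Fin q.m) → Pt | q.φ.Realize x})
      (gen_good (good_of_formula q.φ))) : p.IsNIP := by
  classical
  intro N _ f hIP
  obtain ⟨m, φ, b, hb⟩ := hIP
  have hN : N ⊨ Tth := model_of_elem hM f
  have hR : Good {x : Option (Fin m) → Pt | φ.Realize x} := good_of_formula φ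
  obtain ⟨K, n, hcount⟩ := nip_count hR
  -- the base points of the section
  obtain ⟨a₁, ha₁⟩ := Ip_nonempty hM (gen_good (sec_good K)) ⟨_, sec_gen K⟩
  have ha₁p : p.mem ⟨K, fml (Sec K) (sec_good K), a₁⟩ := (mem_fml hM p hp (sec_good K) a₁).2 ha₁
  -- the relation expressing that a family is shattered
  let T : Finset (Fin n) → Fin n → Set (Option (Fin m) → Pt) := fun S i =>
    if i ∈ S then {x | φ.Realize x} else {x | φ.Realize x}ᶜ
  have hT : ∀ S i, Good (T S i) := by
    intro S i
    by_cases h : i ∈ S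
    · simp only [T, h, if_true]
      exact hR
    · simp only [T, h, if_false]
      exact hR.compl
  let β : Type := Fin K ⊕ (Fin n × Fin m)
  let g₁ : Fin K → β := Sum.inl
  let g₂ : Fin n → Fin m → β := fun i j => Sum.inr (i, j)
  have hQ1 : Good {x : Option β → Pt | x ∘ Option.map g₁ ∈ Sec K} :=
    Good.preimage (Option.map g₁) (sec_good K)
  have hQ2 : ∀ (S : Finset (Fin n)) (i : Fin n),
      Good {x : Option β → Pt | x ∘ Option.map (g₂ i) ∈ T S i} := fun S i =>
    Good.preimage (Option.map (g₂ i)) (hT S i)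
  have hQ3 : ∀ S : Finset (Fin n), Good ({x : Option β → Pt | x ∘ Option.map g₁ ∈ Sec K} ∩
      {x | ∀ i, x ∈ {x : Option β → Pt | x ∘ Option.map (g₂ i) ∈ T S i}}) := fun S =>
    hQ1.inter (Good.forall (hQ2 S))
  have hW : ∀ S : Finset (Fin n), Good {z : β → Pt | ∃ y, ext z y ∈
      ({x : Option β → Pt | x ∘ Option.map g₁ ∈ Sec K} ∩
      {x | ∀ i, x ∈ {x : Option β → Pt | x ∘ Option.map (g₂ i) ∈ T S i}})} := fun S =>
    Good.ex (hQ3 S)
  -- it is empty in `Pt`
  have hempty : {z : β → Pt | ∀ S : Finset (Fin n), z ∈ {z : β → Pt | ∃ y, ext z y ∈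
      ({x : Option β → Pt | x ∘ Option.map g₁ ∈ Sec K} ∩
      {x | ∀ i, x ∈ {x : Option β → Pt | x ∘ Option.map (g₂ i) ∈ T S i}})}} ⊆
      (Set.univ : Set (β → Pt))ᶜ := by
    intro z hz
    exfalso
    refine hcount (z ∘ g₁) (fun i => z ∘ g₂ i) ?_
    intro S
    obtain ⟨y, hy1, hy2⟩ := hz S
    rw [Set.mem_ofPred_eq, glob_ext_comp_map] at hy1
    refine ⟨y, hy1, ?_⟩
    intro i
    have h1 := hy2 i
    rw [Set.mem_ofPred_eq, glob_ext_comp_map] at h1
    by_cases h : i ∈ S
    · simp only [T, h, if_true] at h1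
      exact ⟨fun _ => h, fun _ => h1⟩
    · simp only [T, h, if_false] at h1
      exact ⟨fun h2 => absurd h2 h1, fun h2 => absurd h2 h⟩
  -- it is not empty in `N`
  let z₀ : β → N := Sum.elim (f ∘ a₁) (fun ij => b ij.1 ij.2)
  have hz₀ : z₀ ∈ Ip N _ (Good.forall hW) := by
    rw [Ip_forall hN hW]
    intro S
    rw [Ip_ex hN (hQ3 S)]
    obtain ⟨a, ha, haS⟩ := hb {j : ℕ | ∃ i ∈ S, (i : ℕ) = j}
    refine ⟨a, ?_⟩
    rw [Ip_inter hN hQ1 (Good.forall (hQ2 S)), Ip_preimage hN (Option.map g₁) (sec_good K),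
      Ip_forall hN (hQ2 S)]
    constructor
    · rw [glob_ext_comp_map]
      exact ha _ ha₁p
    · intro i
      rw [Ip_preimage hN (Option.map (g₂ i)) (hT S i), glob_ext_comp_map]
      have h1 : φ.Realize (ext (z₀ ∘ g₂ i) a) ↔ i ∈ S := by
        have h2 := haS i
        have h3 : (i : ℕ) ∈ {j : ℕ | ∃ i ∈ S, (i : ℕ) = j} ↔ i ∈ S := by
          constructor
          · rintro ⟨i', hi', h4⟩
            have h5 : i' = i := Fin.ext h4
            rw [← h5]
            exact hi'
          · intro h4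
            exact ⟨i, h4, rfl⟩
        rw [h3] at h2
        exact h2
      by_cases h : i ∈ S
      · have h2 : ext (z₀ ∘ g₂ i) a ∈ Ip N {x : Option (Fin m) → Pt | φ.Realize x} hR :=
          (Ip_formula hN φ _).1 (h1.2 h)
        refine Ip_mono hN hR (hT S i) ?_ h2
        simp only [T, h, if_true]
        exact subset_rfl
      · have h2 : ext (z₀ ∘ g₂ i) a ∈ Ip N {x : Option (Fin m) → Pt | φ.Realize x}ᶜ hR.compl :=
          (Ip_compl hN hR _).2 fun h3 => h (h1.1 ((Ip_formula hN φ _).2 h3))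
        refine Ip_mono hN hR.compl (hT S i) ?_ h2
        simp only [T, h, if_false]
        exact subset_rfl
  have h1 := Ip_mono hN (Good.forall hW) Good.univ.compl hempty hz₀
  exact (Ip_compl hN Good.univ z₀).1 h1 (Ip_univ hN z₀)

end

end Pool.Agent.H13.NipSeq
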