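import Mathlib
import Pool.Agent.H13.NipSeq.Sec

/-!
Over `n` points the relation `psi n` has IP on the generic type.
-/

set_option autoImplicit false

namespace Pool.Agent.H13.NipSeq

/-- the sum of the basis vectors with index in `S`. -/
private noncomputable def ipwE (v : ℚ) {N : ℕ} (S : Finset (Fin N)) : V :=
  ∑ i ∈ S, Finsupp.single (v, (i : ℕ)) (1 : ℂ)

private theorem ipwE_apply (v : ℚ) {N : ℕ} (S : Finset (Fin N)) (i : Fin N) :
    ipwE v S (v, (i : ℕ)) = if i ∈ S then 1 else 0 := by
  unfold ipwE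
  rw [Finsupp.finsetSum_apply]
  have h : ∀ j ∈ S, (Finsupp.single (v, (j : ℕ)) (1 : ℂ)) (v, (i : ℕ)) =
      if j = i then 1 else 0 := by
    intro j _
    rw [Finsupp.single_apply]
    by_cases hji : j = i
    · subst hji; simp
    · rw [if_neg, if_neg hji]
      intro e
      apply hji
      apply Fin.ext
      exact (Prod.mk.inj e).2
  rw [Finset.sum_congr rfl h, Finset.sum_ite_eq']

private theorem tr_ipwE (v : ℚ) {N : ℕ} (S : Finset (Fin N)) :
    tr v (ipwE v S) = ipwE v S := by
  ext i
  rw [tr_apply]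
  split_ifs with hi
  · rfl
  · unfold ipwE
    rw [Finsupp.finsetSum_apply]
    symm
    apply Finset.sum_eq_zero
    intro j _
    rw [Finsupp.single_apply, if_neg]
    rintro rfl
    exact hi le_rfl

/-- the polynomial move. -/
private noncomputable def ipwH (n : ℕ) (q : Polynomial ℂ) (e : V) : ℕ → ℕ → V :=
  fun k j => if k = n then q.coeff j • e else 0

private theorem pol_ipwH_ne {n k : ℕ} (hk : k ≠ n) (q : Polynomial ℂ) (e : V) (s : ℂ) :
    pol (ipwH n q e) k s = 0 := by
  unfold pol ipwH
  apply Finset.sum_eq_zero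
  intro j _
  rw [if_neg hk, smul_zero]

private theorem pol_ipwH {n : ℕ} (q : Polynomial ℂ) (hq : q.natDegree < n + 1) (e : V) (s : ℂ) :
    pol (ipwH n q e) n s = q.eval s • e := by
  unfold pol ipwH
  rw [Polynomial.eval_eq_sum_range' hq, Finset.sum_smul]
  apply Finset.sum_congr rfl
  intro j _
  rw [if_pos rfl, smul_smul, mul_comm]

/-- Take `v` large and `s` generic (in particular different from the directions of the `a i`),
`q(T) = ∏ (T - s_i) / ∏ (s - s_i)`, a polynomial of degree `n` with `q(s_i) = 0`, `q(s) = 1`.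
For a subset `S` the polynomial move with `H n j = (coefficient of T^j in q) • ∑_{i ∈ S} e_i`,
`e_i = single (v, n₀ + i) 1`, `n₀` large, `H k j = 0` for `k ≠ n`, fixes all the `a i` and moves
`cp v s` to the point `x_S` with `h n = ∑_{i ∈ S} e_i`. The parameters are `cp v s` and the point
with level `v` and `m n = e_i`. -/
theorem ip_witness {n : ℕ} {R : Set (Option (Fin n) → Pt)} (hR : Good R) (a : Fin n → Pt)
    (ha : a ∈ gen R) (N : ℕ) :
    ∃ b : Fin N → Fin 2 → Pt, ∀ S : Finset (Fin N),
      ∃ x, ext a x ∈ R ∧ ∀ i, ext (b i) x ∈ psi n ↔ i ∈ S := by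
  classical
  obtain ⟨K, hK⟩ := hR
  obtain ⟨v₀, E, hE⟩ := ha
  obtain ⟨s, hs⟩ := Infinite.exists_notMem_finset
    (E ∪ Finset.univ.image fun i : Fin n => (a i).s)
  rw [Finset.mem_union, not_or] at hs
  obtain ⟨hsE, hsa⟩ := hs
  have hsa' : ∀ i : Fin n, s - (a i).s ≠ 0 := by
    intro i h0
    apply hsa
    rw [Finset.mem_image]
    exact ⟨i, Finset.mem_univ i, (sub_eq_zero.1 h0).symm⟩
  -- the polynomial
  set v : ℚ := v₀ + 1 with hv
  have hcp := hE v (by rw [hv]; linarith) s hsE
  set c : ℂ := ∏ i : Fin n, (s - (a i).s) with hc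
  have hc0 : c ≠ 0 := Finset.prod_ne_zero_iff.2 fun i _ => hsa' i
  obtain ⟨q, hqdeg, hqa, hqs⟩ : ∃ q : Polynomial ℂ, q.natDegree < n + 1 ∧
      (∀ i : Fin n, q.eval (a i).s = 0) ∧ q.eval s = 1 := by
    refine ⟨Polynomial.C c⁻¹ * ∏ i : Fin n, (Polynomial.X - Polynomial.C (a i).s), ?_, ?_, ?_⟩
    · refine Nat.lt_succ_of_le ?_
      refine (Polynomial.natDegree_C_mul_le _ _).trans ?_
      refine (Polynomial.natDegree_prod_le _ _).trans ?_
      simp
    · intro i
      rw [Polynomial.eval_mul, Polynomial.eval_prod, Finset.prod_eq_zero (Finset.mem_univ i),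
        mul_zero]
      simp
    · rw [Polynomial.eval_mul, Polynomial.eval_prod]
      simp only [Polynomial.eval_C, Polynomial.eval_sub, Polynomial.eval_X]
      rw [← hc, inv_mul_cancel₀ hc0]
  -- the parameters
  let bp : Fin N → Pt := fun i =>
    { v := v
      s := 0
      h := fun _ => 0
      m := fun k => if k = n then Finsupp.single (v, (i : ℕ)) 1 else 0
      hh := fun _ _ _ => rfl
      hm := fun k j hj => by
        split_ifs
        · rw [Finsupp.single_apply, if_neg]
          rintro rfl
          exact absurd hj (lt_irrefl _)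
        · rfl }
  refine ⟨fun i => ![cp v s, bp i], fun S => ?_⟩
  refine ⟨hact (ipwH n q (ipwE v S)) (cp v s), ?_, ?_⟩
  · have h1 := (hK.inv.hact (ipwH n q (ipwE v S)) (ext a (cp v s))).1 hcp
    have h2 : (fun i => hact (ipwH n q (ipwE v S)) (ext a (cp v s) i)) =
        ext a (hact (ipwH n q (ipwE v S)) (cp v s)) := by
      funext o
      cases o with
      | none => rfl
      | some i =>
        rw [ext_some, ext_some]
        apply Pt.ext
        · rfl
        · rfl
        · funext k
          show (a i).h k + tr (a i).v (pol (ipwH n q (ipwE v S)) k (a i).s) = (a i).h k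
          by_cases hk : k = n
          · subst hk
            rw [pol_ipwH q hqdeg, hqa i, zero_smul]
            ext j
            simp
          · rw [pol_ipwH_ne hk]
            ext j
            simp
        · rfl
    rwa [h2] at h1
  · intro i
    have hh : (hact (ipwH n q (ipwE v S)) (cp v s)).h n = ipwE v S := by
      show (0 : V) + tr v (pol (ipwH n q (ipwE v S)) n s) = ipwE v S
      rw [pol_ipwH q hqdeg, hqs, one_smul, tr_ipwE, zero_add]
    have hm : (bp i).m n = Finsupp.single (v, (i : ℕ)) 1 := if_pos rfl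
    unfold psi
    simp only [Set.mem_ofPred_eq, ext_none, ext_some]
    constructor
    · rintro ⟨-, -, -, h4⟩
      by_contra hi
      apply h4
      show dot ((bp i).m n) ((hact (ipwH n q (ipwE v S)) (cp v s)).h n - (cp v s).h n) = 0
      rw [hm, hh, dot_single_left]
      show 1 * (ipwE v S - (0 : V)) (v, (i : ℕ)) = 0
      rw [sub_zero, ipwE_apply, if_neg hi, mul_zero]
    · intro hi
      refine ⟨rfl, rfl, le_rfl, ?_⟩
      show dot ((bp i).m n) ((hact (ipwH n q (ipwE v S)) (cp v s)).h n - (cp v s).h n) ≠ 0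
      rw [hm, hh, dot_single_left]
      show 1 * (ipwE v S - (0 : V)) (v, (i : ℕ)) ≠ 0
      rw [sub_zero, ipwE_apply, if_pos hi]
      simp

end Pool.Agent.H13.NipSeq
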