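import Mathlib
import Pool.Agent.H13.NipSeq.Glob

/-!
Morley sequences of the global type.
-/

set_option autoImplicit false

open FirstOrder FirstOrder.Language Cardinal

namespace Pool.Agent.H13.NipSeq

universe u

/-- Recursive choice along `ℕ`. -/
theorem mor_exists_seq {X : Type u} (P : Set X → X → Prop)
    (h : ∀ B : Set X, B.Finite → ∃ y, P B y) :
    ∃ a : ℕ → X, ∀ i, P {x | ∃ j < i, x = a j} (a i) := by
  classical
  have h' : ∀ B : Set X, ∃ y, B.Finite → P B y := by
    intro B
    by_cases hB : B.Finite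
    · obtain ⟨y, hy⟩ := h B hB
      exact ⟨y, fun _ => hy⟩
    · obtain ⟨y, -⟩ := h ∅ Set.finite_empty
      exact ⟨y, fun h => absurd h hB⟩
  choose F hF using h'
  let a : ℕ → X := fun n =>
    Nat.strongRecOn n (fun n ih => F {x | ∃ (j : ℕ) (h : j < n), x = ih j h})
  have ha : ∀ n, a n = F {x | ∃ (j : ℕ) (_ : j < n), x = a j} := by
    intro n
    exact Nat.strongRecOn_eq _ _
  refine ⟨a, fun i => ?_⟩
  have h1 : ({x | ∃ j < i, x = a j} : Set X).Finite := by
    refine (Set.finite_range (fun j : Fin i => a j)).subset ?_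
    rintro x ⟨j, hj, rfl⟩
    exact ⟨⟨j, hj⟩, rfl⟩
  have h2 := hF _ h1
  have h3 : a i = F {x | ∃ j < i, x = a j} := by
    rw [ha i]
    congr 1
    ext x
    simp
  rw [h3]
  exact h2

variable {M : Type u} [Lg.Structure M] (hM : M ⊨ Tth)

include hM

/-- The relation of an increasing tuple and the next realization. -/
theorem mor_step (p : GlobalType Lg M) (hp : ∀ q : PFormula Lg M,
    p.mem q ↔ q.b ∈ Ip M (gen {x : Option (Fin q.m) → Pt | q.φ.Realize x})
      (gen_good (good_of_formula q.φ))) {n : ℕ} {R : Set (Option (Fin n) → Pt)} (hR : Good R)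
    (b : Fin n → M) (B : Set M) (hb : ∀ l, b l ∈ B) (y : M) (hy : y ∈ p.realizations B) :
    ext b y ∈ Ip M R hR ↔ b ∈ Ip M (gen R) (gen_good hR) := by
  constructor
  · intro h
    rcases Ip_gen_or hM hR b with h1 | h1
    · exact h1
    · exfalso
      have h2 : p.mem ⟨n, fml Rᶜ hR.compl, b⟩ := (mem_fml hM p hp hR.compl b).mpr h1
      have h3 : ext b y ∈ Ip M Rᶜ hR.compl := hy ⟨n, fml Rᶜ hR.compl, b⟩ hb h2
      exact (Ip_compl hM hR _).mp h3 h
  · intro h
    exact hy ⟨n, fml R hR, b⟩ hb ((mem_fml hM p hp hR b).mpr h)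

theorem mor_good_iff (p : GlobalType Lg M) (hp : ∀ q : PFormula Lg M,
    p.mem q ↔ q.b ∈ Ip M (gen {x : Option (Fin q.m) → Pt | q.φ.Realize x})
      (gen_good (good_of_formula q.φ))) (a : ℕ → M)
    (ha : ∀ i, a i ∈ p.realizations {x | ∃ j < i, x = a j}) : ∀ (n : ℕ)
    (R : Set (Fin n → Pt)) (hR : Good R) (i j : Fin n → ℕ), StrictMono i → StrictMono j →
      (a ∘ i ∈ Ip M R hR ↔ a ∘ j ∈ Ip M R hR) := by
  intro n
  induction n with
  | zero =>
    intro R hR i j _ _
    rw [Subsingleton.elim i j]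
  | succ n ih =>
    intro R hR i j hi hj
    let f : Fin (n + 1) → Option (Fin n) := Fin.snoc (fun l => some l) none
    have hf : ∀ (c : Fin (n + 1) → ℕ), a ∘ c =
        ext (a ∘ (c ∘ Fin.castSucc)) (a (c (Fin.last n))) ∘ f := by
      intro c
      funext l
      refine Fin.lastCases ?_ (fun l => ?_) l
      · simp only [f, Function.comp, Fin.snoc_last]
        rfl
      · simp only [f, Function.comp, Fin.snoc_castSucc]
        rfl
    have key : ∀ c : Fin (n + 1) → ℕ, StrictMono c → (a ∘ c ∈ Ip M R hR ↔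
        a ∘ (c ∘ Fin.castSucc) ∈ Ip M (gen {x : Option (Fin n) → Pt | x ∘ f ∈ R})
          (gen_good (Good.preimage f hR))) := by
      intro c hc
      rw [hf c, ← Ip_preimage hM f hR]
      refine mor_step hM p hp (Good.preimage f hR) _ {x | ∃ j < c (Fin.last n), x = a j} ?_ _
        (ha _)
      intro l
      exact ⟨c (Fin.castSucc l), hc (Fin.castSucc_lt_last l), rfl⟩
    rw [key i hi, key j hj]
    exact ih _ _ _ _ (hi.comp Fin.strictMono_castSucc) (hj.comp Fin.strictMono_castSucc)

/-- A sequence of successive realizations of `p` is indiscernible over the empty set: for a good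
relation `R` in `n + 1` variables, `R(a_{i_0}, …, a_{i_n})` holds iff
`(a_{i_0}, …, a_{i_{n-1}}) ∈ gen R'`; induction on `n`. -/
theorem indiscernible (p : GlobalType Lg M) (hp : ∀ q : PFormula Lg M,
    p.mem q ↔ q.b ∈ Ip M (gen {x : Option (Fin q.m) → Pt | q.φ.Realize x})
      (gen_good (good_of_formula q.φ))) (a : ℕ → M)
    (ha : ∀ i, a i ∈ p.realizations {x | ∃ j < i, x = a j}) : Indiscernible Lg ∅ a := by
  intro n i j hi hj m ψ e he
  rcases m with _ | m
  · let g : Fin n ⊕ Fin 0 → Fin n := Sum.elim id Fin.elim0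
    have hg : ∀ b : Fin n → M, Sum.elim b e = b ∘ g := by
      intro b
      funext o
      rcases o with l | l
      · rfl
      · exact l.elim0
    have hψ : ∀ b : Fin n → M, ψ.Realize (Sum.elim b e) ↔
        b ∈ Ip M {x : Fin n → Pt | (ψ.relabel g).Realize x} (good_of_formula (ψ.relabel g)) := by
      intro b
      rw [← Ip_formula hM (ψ.relabel g) b, Formula.realize_relabel, hg]
    rw [hψ, hψ]
    exact mor_good_iff hM p hp a ha n _ _ i j hi hj
  · exact absurd (he 0) (Set.notMem_empty _)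

/-- Existence of Morley sequences over the empty set in saturated models. -/
theorem exists_morley {κ : Cardinal.{u}} (hκ : ℵ₀ < κ) (hs : IsSaturated Lg M κ)
    (p : GlobalType Lg M) (hp : ∀ q : PFormula Lg M,
    p.mem q ↔ q.b ∈ Ip M (gen {x : Option (Fin q.m) → Pt | q.φ.Realize x})
      (gen_good (good_of_formula q.φ))) : ∃ a, p.IsMorley ∅ a := by
  obtain ⟨a, ha⟩ := mor_exists_seq (fun (B : Set M) (y : M) => y ∈ p.realizations B) (by
    intro B hB
    obtain ⟨y, hy⟩ := hs B (lt_of_le_of_lt (Cardinal.mk_le_aleph0_iff.2 hB.countable.to_subtype) hκ)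
      {q | q.Over B ∧ p.mem q} (fun q hq => hq.1)
      (fun s hsΓ => p.fin_sat s fun q hq => (hsΓ q hq).2)
    exact ⟨y, fun q h1 h2 => hy q ⟨h1, h2⟩⟩)
  refine ⟨a, indiscernible hM p hp a ha, fun i => ?_⟩
  rw [Set.empty_union]
  exact ha i

end Pool.Agent.H13.NipSeq
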