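import Mathlib
import Pool.Agent.H13.NipSeq.Mor
import Pool.Agent.H13.NipSeq.Ipw

/-!
Over finitely many points the global type has IP.
-/

set_option autoImplicit false

open FirstOrder FirstOrder.Language Cardinal

namespace Pool.Agent.H13.NipSeq

universe u

/-- The index of the `e`-th coordinate of the `i`-th parameter pair. -/
def idx2 (k : ℕ) (i : Fin k) (e : Fin 2) : Fin (2 * k) := ⟨2 * i + e, by omega⟩

/-- One pattern. -/
def patS (n k : ℕ) (R : Set (Option (Fin n) → Pt)) (S : Fin k → Bool) :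
    Set (Option (Fin n ⊕ Fin (2 * k)) → Pt) :=
  {x | x ∘ Option.map Sum.inl ∈ R} ∩
    {x | ∀ i : Fin k, x ∈ if S i = true then
        {x | x ∘ Option.map (fun e : Fin 2 => Sum.inr (idx2 k i e)) ∈ psi n}
      else {x | x ∘ Option.map (fun e : Fin 2 => Sum.inr (idx2 k i e)) ∈ psi n}ᶜ}

theorem patS_good_aux (n k : ℕ) (S : Fin k → Bool) (i : Fin k) :
    Good (if S i = true then
        {x : Option (Fin n ⊕ Fin (2 * k)) → Pt |
          x ∘ Option.map (fun e : Fin 2 => Sum.inr (idx2 k i e)) ∈ psi n}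
      else {x | x ∘ Option.map (fun e : Fin 2 => Sum.inr (idx2 k i e)) ∈ psi n}ᶜ) := by
  have h : Good {x : Option (Fin n ⊕ Fin (2 * k)) → Pt |
      x ∘ Option.map (fun e : Fin 2 => Sum.inr (idx2 k i e)) ∈ psi n} :=
    Good.preimage _ (psi_good n)
  split_ifs
  · exact h
  · exact h.compl

theorem patS_good (n k : ℕ) {R : Set (Option (Fin n) → Pt)} (hR : Good R) (S : Fin k → Bool) :
    Good (patS n k R S) :=
  (Good.preimage (Option.map Sum.inl) hR).inter (Good.forall (patS_good_aux n k S))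

/-- All the patterns. -/
def Wk (n k : ℕ) (R : Set (Option (Fin n) → Pt)) : Set (Fin n ⊕ Fin (2 * k) → Pt) :=
  {z | ∀ S : Fin k → Bool, z ∈ {z | ∃ y, ext z y ∈ patS n k R S}}

theorem Wk_good (n k : ℕ) {R : Set (Option (Fin n) → Pt)} (hR : Good R) : Good (Wk n k R) :=
  Good.forall fun S => Good.ex (patS_good n k hR S)

theorem ext_comp_map {α β : Type} {M : Type*} (z : β → M) (y : M) (f : α → β) :
    ext z y ∘ Option.map f = ext (z ∘ f) y := by
  funext o
  cases o <;> rfl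

theorem mem_patS {n k : ℕ} {R : Set (Option (Fin n) → Pt)} {S : Fin k → Bool}
    {z : Fin n ⊕ Fin (2 * k) → Pt} {y : Pt} : ext z y ∈ patS n k R S ↔
      ext (fun i => z (Sum.inl i)) y ∈ R ∧
      ∀ i : Fin k, ext (fun e : Fin 2 => z (Sum.inr (idx2 k i e))) y ∈ psi n ↔ S i = true := by
  unfold patS
  rw [Set.mem_inter_iff]
  refine and_congr ?_ (forall_congr' fun i => ?_)
  · rw [Set.mem_ofPred_eq, ext_comp_map]
    exact Iff.rfl
  · cases hS : S i
    · simp only [Bool.false_eq_true, if_false, iff_false]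
      rw [Set.mem_compl_iff, Set.mem_ofPred_eq, ext_comp_map]
      exact Iff.rfl
    · simp only [if_true, iff_true]
      rw [Set.mem_ofPred_eq, ext_comp_map]
      exact Iff.rfl

/-- The patterns exist over every point of `gen R`. -/
theorem Wk_witness {n : ℕ} (k : ℕ) {R : Set (Option (Fin n) → Pt)} (hR : Good R)
    (a : Fin n → Pt) (ha : a ∈ gen R) :
    ∃ c : ℕ → Pt, Sum.elim a (fun l : Fin (2 * k) => c l) ∈ Wk n k R := by
  obtain ⟨b, hb⟩ := ip_witness hR a ha k
  refine ⟨fun l => if h : l < 2 * k then b ⟨l / 2, by omega⟩ ⟨l % 2, by omega⟩ else cp 0 0,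
    fun S => ?_⟩
  obtain ⟨y, hy, hy'⟩ := hb (Finset.univ.filter fun i => S i = true)
  refine ⟨y, mem_patS.mpr ⟨hy, fun i => ?_⟩⟩
  have h1 := hy' i
  simp only [Finset.mem_filter, Finset.mem_univ, true_and] at h1
  rw [← h1]
  have h2 : (fun e : Fin 2 => Sum.elim a (fun l : Fin (2 * k) =>
      if h : (l : ℕ) < 2 * k then b ⟨(l : ℕ) / 2, by omega⟩ ⟨(l : ℕ) % 2, by omega⟩ else cp 0 0)
        (Sum.inr (idx2 k i e))) = b i := by
    funext e
    have h3 : ((idx2 k i e : Fin (2 * k)) : ℕ) < 2 * k := (idx2 k i e).2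
    simp only [Sum.elim_inr, h3, dif_pos]
    have h4 : (⟨((idx2 k i e : Fin (2 * k)) : ℕ) / 2, by omega⟩ : Fin k) = i := by
      apply Fin.ext
      have := e.2
      show (2 * (i : ℕ) + (e : ℕ)) / 2 = i
      omega
    have h5 : (⟨((idx2 k i e : Fin (2 * k)) : ℕ) % 2, by omega⟩ : Fin 2) = e := by
      apply Fin.ext
      have := e.2
      show (2 * (i : ℕ) + (e : ℕ)) % 2 = e
      omega
    rw [h4, h5]
  rw [h2]

/-- Directedness. -/
theorem Wk_mono {n : ℕ} {k k' : ℕ} (hk : k ≤ k') {R R' : Set (Option (Fin n) → Pt)}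
    (hR : R' ⊆ R) (z : Fin n ⊕ Fin (2 * k') → Pt) (hz : z ∈ Wk n k' R') :
    z ∘ Sum.map id (Fin.castLE (Nat.mul_le_mul_left 2 hk)) ∈ Wk n k R := by
  intro S
  obtain ⟨y, hy⟩ := hz (fun i => if h : (i : ℕ) < k then S ⟨i, h⟩ else false)
  rw [mem_patS] at hy
  refine ⟨y, mem_patS.mpr ⟨hR hy.1, fun i => ?_⟩⟩
  have h1 := hy.2 (Fin.castLE hk i)
  have h2 : ((Fin.castLE hk i : Fin k') : ℕ) < k := i.2
  simp only [h2, dif_pos] at h1
  exact h1

section

variable {M : Type u} [Lg.Structure M] (hM : M ⊨ Tth)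

include hM

theorem Ip_Wk {n k : ℕ} {R : Set (Option (Fin n) → Pt)} (hR : Good R) (a : Fin n → M)
    (c : ℕ → M) (h : Sum.elim a (fun l : Fin (2 * k) => c l) ∈ Ip M (Wk n k R) (Wk_good n k hR))
    (S : Fin k → Bool) : ∃ y, ext a y ∈ Ip M R hR ∧
      ∀ i : Fin k, ext (fun e : Fin 2 => c (2 * i + e)) y ∈ Ip M (psi n) (psi_good n) ↔
        S i = true := by
  have h1 := (Ip_forall hM (fun S => Good.ex (patS_good n k hR S)) _).mp h S
  obtain ⟨y, hy⟩ := (Ip_ex hM (patS_good n k hR S) _).mp h1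
  obtain ⟨hy1, hy2⟩ := (Ip_inter hM (Good.preimage (Option.map Sum.inl) hR)
    (Good.forall (patS_good_aux n k S)) _).mp hy
  refine ⟨y, ?_, fun i => ?_⟩
  · have h3 := (Ip_preimage hM (Option.map Sum.inl) hR _).mp hy1
    rw [ext_comp_map] at h3
    exact h3
  · have h3 := (Ip_forall hM (patS_good_aux n k S) _).mp hy2 i
    have h4 : ext (Sum.elim a fun l : Fin (2 * k) => c l) y ∈
        Ip M {x : Option (Fin n ⊕ Fin (2 * k)) → Pt |
          x ∘ Option.map (fun e : Fin 2 => Sum.inr (idx2 k i e)) ∈ psi n}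
          (Good.preimage _ (psi_good n)) ↔
        ext (fun e : Fin 2 => c (2 * i + e)) y ∈ Ip M (psi n) (psi_good n) := by
      rw [Ip_preimage hM _ (psi_good n), ext_comp_map]
      exact Iff.rfl
    rw [← h4]
    cases hS : S i
    · simp only [Bool.false_eq_true, iff_false]
      have h6 : ext (Sum.elim a fun l : Fin (2 * k) => c l) y ∈
          Ip M {x : Option (Fin n ⊕ Fin (2 * k)) → Pt |
            x ∘ Option.map (fun e : Fin 2 => Sum.inr (idx2 k i e)) ∈ psi n}ᶜ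
            (Good.preimage _ (psi_good n)).compl := by
        refine Ip_mono hM (patS_good_aux n k S i) _ ?_ h3
        rw [hS]
        simp
      exact (Ip_compl hM _ _).mp h6
    · simp only [iff_true]
      refine Ip_mono hM (patS_good_aux n k S i) _ ?_ h3
      rw [hS]
      simp

/-- A finite set of formulas of `p` over the `a j`, `j < n`, as one good relation. -/
theorem join_formulas (p : GlobalType Lg M) (hp : ∀ q : PFormula Lg M,
    p.mem q ↔ q.b ∈ Ip M (gen {x : Option (Fin q.m) → Pt | q.φ.Realize x})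
      (gen_good (good_of_formula q.φ))) (a : ℕ → M) (n : ℕ) (s : Finset (PFormula Lg M)) :
    (∀ q ∈ s, q.Over (∅ ∪ {x | ∃ j < n, x = a j}) ∧ p.mem q) →
    ∃ (R : Set (Option (Fin n) → Pt)) (hR : Good R),
      (fun j : Fin n => a j) ∈ Ip M (gen R) (gen_good hR) ∧
      ∀ y, ext (fun j : Fin n => a j) y ∈ Ip M R hR → ∀ q ∈ s, q.Sat y := by
  classical
  induction s using Finset.induction_on with
  | empty =>
    intro _
    refine ⟨Set.univ, Good.univ, ?_, fun _ _ q hq => absurd hq (Finset.notMem_empty q)⟩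
    refine Ip_mono hM Good.univ _ ?_ (Ip_univ hM _)
    intro b _
    exact ⟨0, ∅, fun _ _ _ _ => trivial⟩
  | @insert q s _ ih =>
    intro hq
    obtain ⟨R, hR, hRa, hRs⟩ := ih fun r hr => hq r (Finset.mem_insert_of_mem hr)
    obtain ⟨hqo, hqm⟩ := hq q (Finset.mem_insert_self _ _)
    have hch : ∀ l : Fin q.m, ∃ j : Fin n, q.b l = a j := by
      intro l
      rcases hqo l with h | ⟨j, hj, h⟩
      · exact absurd h (Set.notMem_empty _)
      · exact ⟨⟨j, hj⟩, h⟩
    choose f hf using hch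
    have hfb : (fun j : Fin n => a j) ∘ f = q.b := by
      funext l; exact (hf l).symm
    refine ⟨R ∩ {x | x ∘ Option.map f ∈ {x : Option (Fin q.m) → Pt | q.φ.Realize x}},
      hR.inter (Good.preimage (Option.map f) (good_of_formula q.φ)), ?_, ?_⟩
    · refine Ip_gen_inter hM hR (Good.preimage (Option.map f) (good_of_formula q.φ)) _ hRa ?_
      rw [Ip_gen_preimage hM f (good_of_formula q.φ), hfb]
      exact (hp q).mp hqm
    · intro y hy r hr
      obtain ⟨hy1, hy2⟩ := (Ip_inter hM hR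
        (Good.preimage (Option.map f) (good_of_formula q.φ)) _).mp hy
      rcases Finset.mem_insert.mp hr with rfl | hr
      · have h1 := (Ip_preimage hM (Option.map f) (good_of_formula r.φ) _).mp hy2
        rw [ext_comp_map, hfb] at h1
        exact (Ip_formula hM r.φ _).mpr h1
      · exact hRs y hy1 r hr

theorem restriction_hasIP {κ : Cardinal.{u}} (hκ : ℵ₀ < κ) (hs : IsSaturated Lg M κ)
    (p : GlobalType Lg M) (hp : ∀ q : PFormula Lg M,
    p.mem q ↔ q.b ∈ Ip M (gen {x : Option (Fin q.m) → Pt | q.φ.Realize x})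
      (gen_good (good_of_formula q.φ))) (a : ℕ → M) (n : ℕ) :
    p.RestrictionHasIP (∅ ∪ {x | ∃ j < n, x = a j}) := by
  classical
  -- the index set of the directed family
  let ι : Type := {R : Set (Option (Fin n) → Pt) // ∃ hR : Good R,
    (fun j : Fin n => a j) ∈ Ip M (gen R) (gen_good hR)} × ℕ
  obtain ⟨R₀, hR₀, hR₀a, -⟩ := join_formulas hM p hp a n ∅ (by simp)
  haveI : Nonempty ι := ⟨(⟨R₀, hR₀, hR₀a⟩, 0)⟩
  obtain ⟨c, hc⟩ := exists_seq hM hκ hs (ι := ι) (fun j : Fin n => a j) (fun i => 2 * i.2)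
    (fun i => Wk n i.2 i.1.1) (fun i => Wk_good n i.2 i.1.2.choose) (by
      rintro ⟨⟨R, hR, hRa⟩, k⟩ ⟨⟨R', hR', hRa'⟩, k'⟩
      refine ⟨(⟨R ∩ R', hR.inter hR', Ip_gen_inter hM hR hR' _ hRa hRa'⟩, max k k'),
        Nat.mul_le_mul_left 2 (le_max_left _ _), Nat.mul_le_mul_left 2 (le_max_right _ _),
        fun z hz => ⟨?_, ?_⟩⟩
      · exact Wk_mono (le_max_left _ _) Set.inter_subset_left z hz
      · exact Wk_mono (le_max_right _ _) Set.inter_subset_right z hz) (by
      rintro ⟨⟨R, hR, hRa⟩, k⟩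
      let f : Fin n ⊕ Fin 0 → Fin n := Sum.elim id (fun l => l.elim0)
      have h1 : (fun j : Fin n => a j) ∈ Ip M {b : Fin n → Pt | b ∘ f ∈ Epr (Wk n k R) 0}
          (Good.preimage f (Epr_good (Wk_good n k hR) 0)) := by
        refine Ip_mono hM (gen_good hR) _ ?_ hRa
        intro b hb
        obtain ⟨c, hc⟩ := Wk_witness k hR b hb
        exact ⟨c, fun l => l.elim0, hc⟩
      rw [Ip_preimage hM f (Epr_good (Wk_good n k hR) 0)] at h1
      have h2 : (fun j : Fin n => a j) ∘ f =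
          Sum.elim (fun j : Fin n => a j) (fun l : Fin 0 => l.elim0) := by
        funext o
        rcases o with i | l
        · rfl
        · exact l.elim0
      rw [h2] at h1
      exact h1)
  -- the patterns over `c`
  have hpat : ∀ (R : Set (Option (Fin n) → Pt)) (hR : Good R),
      (fun j : Fin n => a j) ∈ Ip M (gen R) (gen_good hR) → ∀ (k : ℕ) (S : Fin k → Bool),
      ∃ y, ext (fun j : Fin n => a j) y ∈ Ip M R hR ∧
      ∀ i : Fin k, ext (fun e : Fin 2 => c (2 * i + e)) y ∈ Ip M (psi n) (psi_good n) ↔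
        S i = true := by
    intro R hR hRa k S
    exact Ip_Wk hM hR _ c (hc (⟨R, hR, hRa⟩, k)) S
  refine ⟨2, fml (psi n) (psi_good n), fun i e => c (2 * i + e), fun S => ?_⟩
  let B : Set M := ∅ ∪ {x | ∃ j < n, x = a j}
  let q₁ : ℕ → PFormula Lg M := fun i => ⟨2, fml (psi n) (psi_good n), fun e => c (2 * i + e)⟩
  let q₂ : ℕ → PFormula Lg M := fun i =>
    ⟨2, (fml (psi n) (psi_good n)).not, fun e => c (2 * i + e)⟩
  let Γ : Set (PFormula Lg M) := {q | (q.Over B ∧ p.mem q) ∨ (∃ i ∈ S, q = q₁ i) ∨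
    (∃ i ∉ S, q = q₂ i)}
  have hcount : (B ∪ Set.range c).Countable := by
    refine Set.Countable.union ?_ (Set.countable_range c)
    refine Set.Countable.union Set.countable_empty ?_
    refine (Set.countable_range (fun j : Fin n => a j)).mono ?_
    rintro x ⟨j, hj, rfl⟩
    exact ⟨⟨j, hj⟩, rfl⟩
  obtain ⟨y, hy⟩ := hs (B ∪ Set.range c) (lt_of_le_of_lt hcount.le_aleph0 hκ) Γ (by
      rintro q (⟨h1, -⟩ | ⟨i, -, rfl⟩ | ⟨i, -, rfl⟩)
      · exact fun l => Or.inl (h1 l)
      · exact fun l => Or.inr ⟨_, rfl⟩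
      · exact fun l => Or.inr ⟨_, rfl⟩) (by
      intro s hsΓ
      obtain ⟨R, hR, hRa, hRs⟩ := join_formulas hM p hp a n
        (s.filter fun q => q.Over B ∧ p.mem q) (by
          intro q hq
          exact (Finset.mem_filter.mp hq).2)
      -- a bound for the indices
      have hbound : ∃ k : ℕ, ∀ q ∈ s, (q.Over B ∧ p.mem q) ∨ (∃ i < k, i ∈ S ∧ q = q₁ i) ∨
          (∃ i < k, i ∉ S ∧ q = q₂ i) := by
        clear hRs
        have : ∀ q ∈ s, ∃ k : ℕ, (q.Over B ∧ p.mem q) ∨ (∃ i < k, i ∈ S ∧ q = q₁ i) ∨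
          (∃ i < k, i ∉ S ∧ q = q₂ i) := by
          intro q hq
          rcases hsΓ q hq with h1 | ⟨i, hi, h1⟩ | ⟨i, hi, h1⟩
          · exact ⟨0, Or.inl h1⟩
          · exact ⟨i + 1, Or.inr (Or.inl ⟨i, Nat.lt_succ_self i, hi, h1⟩)⟩
          · exact ⟨i + 1, Or.inr (Or.inr ⟨i, Nat.lt_succ_self i, hi, h1⟩)⟩
        choose! kk hkk using this
        refine ⟨s.sup kk, fun q hq => ?_⟩
        have hle : kk q ≤ s.sup kk := Finset.le_sup hq
        rcases hkk q hq with h1 | ⟨i, hi, h1⟩ | ⟨i, hi, h1⟩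
        · exact Or.inl h1
        · exact Or.inr (Or.inl ⟨i, lt_of_lt_of_le hi hle, h1⟩)
        · exact Or.inr (Or.inr ⟨i, lt_of_lt_of_le hi hle, h1⟩)
      obtain ⟨k, hk⟩ := hbound
      obtain ⟨y, hy1, hy2⟩ := hpat R hR hRa k (fun i => decide ((i : ℕ) ∈ S))
      refine ⟨y, fun q hq => ?_⟩
      rcases hk q hq with h1 | ⟨i, hi, hiS, rfl⟩ | ⟨i, hi, hiS, rfl⟩
      · exact hRs y hy1 q (Finset.mem_filter.mpr ⟨hq, h1⟩)
      · have h3 := hy2 ⟨i, hi⟩
        simp only [decide_eq_true_eq] at h3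
        exact h3.mpr hiS
      · have h3 := hy2 ⟨i, hi⟩
        simp only [decide_eq_true_eq] at h3
        exact fun h4 => hiS (h3.mp h4))
  refine ⟨y, fun q hqo hqm => hy q (Or.inl ⟨hqo, hqm⟩), fun i => ?_⟩
  constructor
  · intro h1
    by_contra hi
    exact hy (q₂ i) (Or.inr (Or.inr ⟨i, hi, rfl⟩)) h1
  · intro hi
    exact hy (q₁ i) (Or.inr (Or.inl ⟨i, hi, rfl⟩))

end

end Pool.Agent.H13.NipSeq
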